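import Pool.Agent.H73.BT.ThF

/-!
MODULE Abn (skeleton helper73): an elementary abelian normal section of finitary elements.

PROOF. Y = G ⧸ K, L = K.normalCore = kernel of the action on Y. Take b from `theoremF`, B0 =
normalClosure {b} (proper: `Ctx.normalClosure_ne_top`), B = B0 ⊔ L (proper: `Ctx.sup_ne_top`, L ≤ K).
All elements of B move finitely many points of Y (the elements with finite support form a normal
subgroup containing L). Orbits of B on Y are finite (`Ctx.orb` for B and ω; y = t K, and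
K contains the stabilizer of ω; or use c.orb with ω replaced by t • ω).
Let S = the support of b, T = B • S finite B-invariant set in Y. M = {x ∈ B | x moves only points of T},
a subgroup normalised by B; the image P of M in the finite group Equiv.Perm T is not trivial (b).
The p-group B acts on the finite nontrivial p-group P by conjugation, so it has a fixed element
≠ 1 (`IsPGroup.card_modEq_card_fixedPoints`), of order p after taking a power (a fixed element
z ≠ 1, order p^k, take z^(p^(k-1))). So there is x ∈ B, x ∉ L, with x^p ∈ L and [x, y] ∈ L for all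
y ∈ B. Let A = {x ∈ B | x^p ∈ L ∧ ∀ y ∈ B, ⁅x, y⁆ ∈ L}: a normal subgroup of G (its elements commute
modulo L, so (x y)^p ≡ x^p y^p).
-/

set_option autoImplicit false

open Set
open scoped Pointwise commutatorElement

namespace Pool.Agent.H73.BT

open Pool.Agent.H80.BT

/-- a nontrivial finite normal subgroup of a `p`-group contains a central element of order `p` -/
private theorem exists_central {Q : Type*} [Group Q] {p : ℕ} [Fact p.Prime] (hQ : IsPGroup p Q)
    (N : Subgroup Q) [hNn : N.Normal] [hfin : Finite N] (hN : N ≠ ⊥) :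
    ∃ z ∈ N, z ≠ 1 ∧ z ^ p = 1 ∧ ∀ q : Q, z * q = q * z := by
  let act : MulAction Q N := MulAction.compHom N (MulAut.conjNormal : Q →* MulAut N)
  have hact : ∀ (q : Q) (n : N), ((q • n : N) : Q) = q * n * q⁻¹ := by
    intro q n
    exact MulAut.conjNormal_apply q n
  have hdvd : p ∣ Nat.card N := by
    rcases (hQ.to_subgroup N).card_eq_or_dvd with h | h
    · exact (hN (Subgroup.eq_bot_of_card_eq N h)).elim
    · exact h
  have h1 : (1 : N) ∈ MulAction.fixedPoints Q N := by
    intro q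
    apply Subtype.ext
    rw [hact]
    simp
  obtain ⟨z, hz, hz1⟩ := hQ.exists_fixed_point_of_prime_dvd_card_of_fixed_point N hdvd h1
  have hzc : ∀ q : Q, (z : Q) * q = q * z := by
    intro q
    have h2 := congrArg Subtype.val (hz q)
    rw [hact] at h2
    exact (mul_inv_eq_iff_eq_mul.1 h2).symm
  have hz2 : (z : Q) ≠ 1 := by
    intro h
    exact hz1 (Subtype.ext h.symm)
  classical
  have hex : ∃ k : ℕ, (z : Q) ^ p ^ k = 1 := hQ z
  obtain ⟨k, hk⟩ : ∃ k, Nat.find hex = k + 1 := by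
    refine Nat.exists_eq_succ_of_ne_zero fun h => ?_
    have h2 := Nat.find_spec hex
    rw [h, pow_zero, pow_one] at h2
    exact hz2 h2
  refine ⟨(z : Q) ^ p ^ k, pow_mem z.2 _, ?_, ?_, ?_⟩
  · exact Nat.find_min hex (by omega)
  · rw [← pow_mul, ← pow_succ, ← hk]
    exact Nat.find_spec hex
  · intro q
    exact ((show Commute (z : Q) q from hzc q).pow_left _).eq

/-- the subgroup of the elements of `B` of order dividing `p` which commute with all elements of `B` -/
private def cenTor {Q : Type*} [Group Q] (p : ℕ) (B : Subgroup Q) : Subgroup Q where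
  carrier := {σ | σ ∈ B ∧ σ ^ p = 1 ∧ ∀ τ ∈ B, σ * τ = τ * σ}
  mul_mem' := by
    rintro σ τ ⟨h1, h2, h3⟩ ⟨h4, h5, h6⟩
    refine ⟨mul_mem h1 h4, ?_, ?_⟩
    · rw [(show Commute σ τ from h3 τ h4).mul_pow, h2, h5, one_mul]
    · intro ρ hρ
      rw [mul_assoc, h6 ρ hρ, ← mul_assoc, h3 ρ hρ, mul_assoc]
  one_mem' := ⟨one_mem _, one_pow _, fun τ _ => by simp⟩
  inv_mem' := by
    rintro σ ⟨h1, h2, h3⟩
    refine ⟨inv_mem h1, by rw [inv_pow, h2, inv_one], ?_⟩
    intro τ hτ
    exact ((show Commute σ τ from h3 τ hτ).inv_left).eq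

private theorem mem_cenTor {Q : Type*} [Group Q] {p : ℕ} {B : Subgroup Q} {σ : Q} :
    σ ∈ cenTor p B ↔ σ ∈ B ∧ σ ^ p = 1 ∧ ∀ τ ∈ B, σ * τ = τ * σ := Iff.rfl

variable {G : Type*} [Group G] {Ω : Type*} [MulAction G Ω] {p : ℕ}

/-- the elements with finite support form a normal subgroup -/
private theorem fin_supp (K : Subgroup G) {b : G} (hb : {y : G ⧸ K | b • y ≠ y}.Finite) :
    ∀ x ∈ Subgroup.normalClosure {b}, {y : G ⧸ K | x • y ≠ y}.Finite := by
  intro x hx
  have key : Subgroup.normalClosure {b} ≤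
      { carrier := {x : G | {y : G ⧸ K | x • y ≠ y}.Finite}
        mul_mem' := by
          intro u v hu hv
          refine (Set.Finite.union hu hv).subset ?_
          intro y hy
          by_contra h
          rw [Set.mem_union, not_or] at h
          obtain ⟨h1, h2⟩ := h
          simp only [Set.mem_ofPred_eq, not_not] at h1 h2
          apply hy
          rw [mul_smul, h2, h1]
        one_mem' := by
          simp
        inv_mem' := by
          intro u hu
          refine (show ({y : G ⧸ K | u • y ≠ y}).Finite from hu).subset ?_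
          intro y hy h
          apply hy
          rw [inv_smul_eq_iff]
          exact h.symm : Subgroup G } := by
    rw [Subgroup.normalClosure, Subgroup.closure_le]
    intro y hy
    rw [Group.mem_conjugatesOfSet_iff] at hy
    obtain ⟨a, ha, hc⟩ := hy
    rw [Set.mem_singleton_iff] at ha
    subst ha
    rw [isConj_iff] at hc
    obtain ⟨g, rfl⟩ := hc
    refine (hb.image (fun y => g • y)).subset ?_
    intro y hy
    refine ⟨g⁻¹ • y, ?_, smul_inv_smul g y⟩
    intro h
    apply hy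
    show (g * a * g⁻¹) • y = y
    rw [mul_smul, mul_smul, h, smul_inv_smul]
  exact key hx

/-- orbits on the cosets of `K` are finite -/
private theorem fin_orb (c : Ctx G Ω p) (ω : Ω) (K : Subgroup G)
    (hH : MulAction.stabilizer G ω ≤ K) {B : Subgroup G} (hB : B ≠ ⊤) (y : G ⧸ K) :
    ((fun x : G => x • y) '' (B : Set G)).Finite := by
  classical
  induction y using QuotientGroup.induction_on with
  | H t =>
    have h1 := c.orb hB (t • ω)
    have h2 : ∀ q : Ω, ∃ z : G ⧸ K, ∀ x : G, x • t • ω = q → x • (t : G ⧸ K) = z := by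
      intro q
      by_cases hq : ∃ x : G, x • t • ω = q
      · obtain ⟨x, hx⟩ := hq
        refine ⟨x • (t : G ⧸ K), ?_⟩
        intro x' hx'
        show ((x' * t : G) : G ⧸ K) = ((x * t : G) : G ⧸ K)
        rw [QuotientGroup.eq]
        apply hH
        rw [MulAction.mem_stabilizer_iff, mul_smul, mul_smul, inv_smul_eq_iff, mul_smul, hx, hx']
      · exact ⟨t, fun x hx => (hq ⟨x, hx⟩).elim⟩
    choose F hF using h2
    refine (h1.image F).subset ?_
    rintro _ ⟨x, hx, rfl⟩
    exact ⟨x • t • ω, ⟨x, hx, rfl⟩, (hF _ x rfl).symm⟩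

theorem abn (c : Ctx G Ω p) (ω : Ω) (K : Subgroup G) (hK : K ≠ ⊤)
    (hH : MulAction.stabilizer G ω ≤ K) :
    ∃ A : Subgroup G, A.Normal ∧ K.normalCore ≤ A ∧ ¬ A ≤ K ∧
      (∀ a ∈ A, {y : G ⧸ K | a • y ≠ y}.Finite) ∧
      (∀ a ∈ A, ∀ b ∈ A, ⁅a, b⁆ ∈ K.normalCore) ∧ ∀ a ∈ A, a ^ p ∈ K.normalCore := by
  classical
  have : Fact p.Prime := ⟨c.prime⟩
  obtain ⟨b, hb1, hb2⟩ := theoremF c ω K hK hH
  set B : Subgroup G := Subgroup.normalClosure {b} with hBdef
  have hB : B ≠ ⊤ := c.normalClosure_ne_top b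
  have hBn : B.Normal := Subgroup.normalClosure_normal
  have hbB : b ∈ B := Subgroup.subset_normalClosure (Set.mem_singleton b)
  set f : G →* Equiv.Perm (G ⧸ K) := MulAction.toPermHom G (G ⧸ K) with hf
  have hfa : ∀ (x : G) (y : G ⧸ K), f x y = x • y := fun x y => rfl
  have hL : K.normalCore = f.ker := Subgroup.normalCore_eq_ker K
  set Q : Subgroup (Equiv.Perm (G ⧸ K)) := B.map f with hQdef
  have hQp : IsPGroup p Q := (c.pgrp.to_subgroup B).map f
  -- the finite invariant set
  set T : Set (G ⧸ K) := ⋃ y ∈ {y : G ⧸ K | b • y ≠ y}, (fun x : G => x • y) '' (B : Set G) with hT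
  have hTf : T.Finite := hb2.biUnion fun y _ => fin_orb c ω K hH hB y
  have hTB : ∀ x ∈ B, ∀ y ∈ T, x • y ∈ T := by
    intro x hx y hy
    rw [hT, Set.mem_iUnion₂] at hy ⊢
    obtain ⟨s, hs, x', hx', rfl⟩ := hy
    exact ⟨s, hs, x * x', mul_mem hx hx', mul_smul x x' s⟩
  have hTQ : ∀ σ ∈ Q, ∀ y ∈ T, σ y ∈ T := by
    rintro _ ⟨x, hx, rfl⟩ y hy
    exact hTB x hx y hy
  have hTQ' : ∀ σ ∈ Q, ∀ y, y ∉ T → σ y ∉ T := by
    intro σ hσ y hy h
    apply hy
    have h1 := hTQ σ⁻¹ (inv_mem hσ) _ h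
    have h2 : σ⁻¹ (σ y) = y := σ.symm_apply_apply y
    rwa [h2] at h1
  let N : Subgroup Q :=
    { carrier := {q | ∀ y, y ∉ T → (q : Equiv.Perm (G ⧸ K)) y = y}
      mul_mem' := by
        intro u v hu hv y hy
        rw [Subgroup.coe_mul, Equiv.Perm.mul_apply, hv y hy, hu y hy]
      one_mem' := fun y _ => rfl
      inv_mem' := by
        intro u hu y hy
        rw [Subgroup.coe_inv, Equiv.Perm.inv_eq_iff_eq]
        exact (hu y hy).symm }
  have hNm : ∀ q : Q, q ∈ N ↔ ∀ y, y ∉ T → (q : Equiv.Perm (G ⧸ K)) y = y := fun q => Iff.rfl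
  have hNn : N.Normal := by
    refine ⟨fun n hn q => ?_⟩
    rw [hNm] at hn ⊢
    intro y hy
    have h1 := hn _ (hTQ' _ (inv_mem q.2) y hy)
    have h2 : (q : Equiv.Perm (G ⧸ K)) ((q : Equiv.Perm (G ⧸ K))⁻¹ y) = y :=
      (q : Equiv.Perm (G ⧸ K)).apply_symm_apply y
    show (q : Equiv.Perm (G ⧸ K)) ((n : Equiv.Perm (G ⧸ K)) ((q : Equiv.Perm (G ⧸ K))⁻¹ y)) = y
    rw [h1, h2]
  have hNf : Finite N := by
    have : Finite T := hTf
    refine Finite.of_injective (β := T → T)
      (fun n : N => fun t : T => ⟨((n : Q) : Equiv.Perm (G ⧸ K)) t, hTQ _ (n : Q).2 t t.2⟩) ?_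
    intro n m hnm
    apply Subtype.ext
    apply Subtype.ext
    apply Equiv.ext
    intro y
    by_cases hy : y ∈ T
    · have := congrFun hnm ⟨y, hy⟩
      exact congrArg Subtype.val this
    · rw [(hNm _).1 n.2 y hy, (hNm _).1 m.2 y hy]
  have hNb : N ≠ ⊥ := by
    intro h
    obtain ⟨y, hy⟩ := hb1
    apply hy
    have hbN : (⟨f b, b, hbB, rfl⟩ : Q) ∈ N := by
      rw [hNm]
      intro y hy
      by_contra h2
      apply hy
      rw [hT, Set.mem_iUnion₂]
      exact ⟨y, h2, 1, one_mem _, one_smul _ _⟩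
    rw [h, Subgroup.mem_bot] at hbN
    have h3 := congrArg Subtype.val hbN
    have h4 : f b = 1 := h3
    show b • y = y
    rw [← hfa, h4]
    rfl
  obtain ⟨z, hzN, hz1, hzp, hzc⟩ := exists_central hQp N hNb
  have hAn : ((cenTor p Q).comap f).Normal := by
    refine ⟨fun x hx g => ?_⟩
    rw [Subgroup.mem_comap, mem_cenTor] at hx ⊢
    obtain ⟨⟨x', hx', hx''⟩, h2, h3⟩ := hx
    refine ⟨⟨g * x' * g⁻¹, hBn.conj_mem x' hx' g, by rw [map_mul, map_mul, hx'', map_mul, map_mul]⟩, ?_, ?_⟩
    · rw [← map_pow, conj_pow, map_mul, map_mul, map_pow, h2, mul_one, ← map_mul, mul_inv_cancel,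
        map_one]
    · rintro _ ⟨y, hy, rfl⟩
      have h4 := h3 (f (g⁻¹ * y * g)) ⟨g⁻¹ * y * g, by
        have := hBn.conj_mem y hy g⁻¹
        rwa [inv_inv] at this, rfl⟩
      have h5 : f (g * x * g⁻¹) * f y = f g * (f x * f (g⁻¹ * y * g)) * f g⁻¹ := by
        rw [← map_mul, ← map_mul, ← map_mul, ← map_mul]
        congr 1
        group
      have h6 : f y * f (g * x * g⁻¹) = f g * (f (g⁻¹ * y * g) * f x) * f g⁻¹ := by
        rw [← map_mul, ← map_mul, ← map_mul, ← map_mul]
        congr 1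
        group
      rw [h5, h6, h4]
  refine ⟨(cenTor p Q).comap f, hAn, ?_, ?_, ?_, ?_, ?_⟩
  · intro x hx
    rw [hL, MonoidHom.mem_ker] at hx
    rw [Subgroup.mem_comap, hx]
    exact one_mem _
  · intro hle
    obtain ⟨σ, hσ⟩ := z
    obtain ⟨x, hx, rfl⟩ := hσ
    have hxA : x ∈ (cenTor p Q).comap f := by
      rw [Subgroup.mem_comap, mem_cenTor]
      refine ⟨⟨x, hx, rfl⟩, ?_, ?_⟩
      · exact congrArg Subtype.val hzp
      · intro τ hτ
        exact congrArg Subtype.val (hzc ⟨τ, hτ⟩)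
    have h7 : x ∈ K.normalCore := (Subgroup.normal_le_normalCore.2 hle) hxA
    rw [hL, MonoidHom.mem_ker] at h7
    exact hz1 (Subtype.ext h7)
  · intro x hx
    rw [Subgroup.mem_comap, mem_cenTor] at hx
    obtain ⟨⟨x', hx', hx''⟩, -, -⟩ := hx
    refine (fin_supp K hb2 x' hx').subset ?_
    intro y hy h
    apply hy
    rw [← hfa] at h ⊢
    rwa [hx''] at h
  · intro x hx y hy
    rw [Subgroup.mem_comap, mem_cenTor] at hx hy
    rw [hL, MonoidHom.mem_ker, map_commutatorElement, commutatorElement_eq_one_iff_mul_comm]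
    exact hx.2.2 _ hy.1
  · intro x hx
    rw [Subgroup.mem_comap, mem_cenTor] at hx
    rw [hL, MonoidHom.mem_ker, map_pow]
    exact hx.2.1

end Pool.Agent.H73.BT
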