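import Pool.Agent.H73.BT.ThF

/-!
MODULE All (helper73): every element is finitary at large scale.
-/

set_option autoImplicit false

open Set
open scoped Pointwise commutatorElement

namespace Pool.Agent.H73.BT

open Pool.Agent.H80.BT

variable {G : Type*} [Group G] {Ω : Type*} [MulAction G Ω] {p : ℕ}

/-- the elements moving finitely many points of `G ⧸ K` -/
def FinK (K : Subgroup G) : Subgroup G where
  carrier := {g | {y : G ⧸ K | g • y ≠ y}.Finite}
  mul_mem' := by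
    intro a b ha hb
    apply (ha.union hb).subset
    intro y hy
    by_contra h
    rw [Set.mem_union, not_or] at h
    have h1 : a • y = y := by
      by_contra h'; exact h.1 h'
    have h2 : b • y = y := by
      by_contra h'; exact h.2 h'
    apply hy
    rw [mul_smul, h2, h1]
  one_mem' := by
    have : {y : G ⧸ K | (1 : G) • y ≠ y} = ∅ := by
      ext y
      simp
    change {y : G ⧸ K | (1 : G) • y ≠ y}.Finite
    rw [this]
    exact Set.finite_empty
  inv_mem' := by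
    intro a ha
    apply ha.subset
    intro y hy h
    apply hy
    rw [inv_smul_eq_iff, h]

theorem mem_FinK {K : Subgroup G} {g : G} : g ∈ FinK K ↔ {y : G ⧸ K | g • y ≠ y}.Finite := Iff.rfl

instance FinK_normal (K : Subgroup G) : (FinK K).Normal := by
  constructor
  intro n hn g
  rw [mem_FinK] at hn ⊢
  apply (hn.image (fun y => g • y)).subset
  intro y hy
  refine ⟨g⁻¹ • y, ?_, smul_inv_smul g y⟩
  intro h
  apply hy
  rw [mul_smul, mul_smul, h, smul_inv_smul]

theorem FinK_mono {K K' : Subgroup G} (h : K ≤ K') : FinK K ≤ FinK K' := by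
  intro g hg
  rw [mem_FinK] at hg ⊢
  apply (hg.image (fun y => ((y.out : G) : G ⧸ K'))).subset
  intro y hy
  refine ⟨((y.out : G) : G ⧸ K), ?_, ?_⟩
  · intro h1
    apply hy
    have h2 : ((g * y.out : G) : G ⧸ K) = ((y.out : G) : G ⧸ K) := h1
    have h3 := h (QuotientGroup.eq.mp h2)
    have h4 : ((g * y.out : G) : G ⧸ K') = ((y.out : G) : G ⧸ K') := QuotientGroup.eq.mpr h3
    have h5 : g • y = ((g * y.out : G) : G ⧸ K') := by
      conv_lhs => rw [← QuotientGroup.out_eq' y]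
      rfl
    rw [h5, h4, QuotientGroup.out_eq']
  · have h1 : ((((y.out : G) : G ⧸ K).out : G) : G ⧸ K) = ((y.out : G) : G ⧸ K) :=
      QuotientGroup.out_eq' _
    have h2 := h (QuotientGroup.eq.mp h1)
    have h3 : (((((y.out : G) : G ⧸ K).out : G)) : G ⧸ K') = ((y.out : G) : G ⧸ K') :=
      QuotientGroup.eq.mpr h2
    rw [QuotientGroup.out_eq'] at h3
    exact h3

theorem allfin (c : Ctx G Ω p) (ω : Ω) (g : G) :
    ∃ K : Subgroup G, K ≠ ⊤ ∧ MulAction.stabilizer G ω ≤ K ∧ {y : G ⧸ K | g • y ≠ y}.Finite := by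
  set 𝓕 : Set (Subgroup G) :=
    {N | ∃ K : Subgroup G, K ≠ ⊤ ∧ MulAction.stabilizer G ω ≤ K ∧ N = FinK K} with h𝓕
  have hne : 𝓕.Nonempty := ⟨_, MulAction.stabilizer G ω, c.stab_ne_top ω, le_rfl, rfl⟩
  have hdir : DirectedOn (· ≤ ·) 𝓕 := by
    rintro _ ⟨K, hK, hHK, rfl⟩ _ ⟨K', hK', hHK', rfl⟩
    exact ⟨_, ⟨K ⊔ K', c.sup_ne_top hK hK', hHK.trans le_sup_left, rfl⟩,
      FinK_mono le_sup_left, FinK_mono le_sup_right⟩
  have htop : sSup 𝓕 = ⊤ := by
    by_contra h
    have hn : (sSup 𝓕).Normal := by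
      constructor
      intro n hn g
      rw [Subgroup.mem_sSup_of_directedOn hne hdir] at hn ⊢
      obtain ⟨N, ⟨K, hK, hHK, rfl⟩, hnN⟩ := hn
      exact ⟨_, ⟨K, hK, hHK, rfl⟩, (FinK_normal K).conj_mem n hnN g⟩
    set K := sSup 𝓕 ⊔ MulAction.stabilizer G ω with hKdef
    have hK : K ≠ ⊤ := c.sup_ne_top h (c.stab_ne_top ω)
    obtain ⟨b, ⟨y, hy⟩, hbf⟩ := theoremF c ω K hK le_sup_right
    have hle : FinK K ≤ sSup 𝓕 := le_sSup (⟨K, hK, le_sup_right, rfl⟩ : FinK K ∈ 𝓕)
    have hb : b ∈ sSup 𝓕 := hle (mem_FinK.mpr hbf)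
    apply hy
    have h5 : b • y = ((b * y.out : G) : G ⧸ K) := by
      conv_lhs => rw [← QuotientGroup.out_eq' y]
      rfl
    rw [h5]
    conv_rhs => rw [← QuotientGroup.out_eq' y]
    apply QuotientGroup.eq.mpr
    have h6 : (b * y.out)⁻¹ * y.out = (y.out)⁻¹ * b⁻¹ * y.out := by group
    rw [h6]
    apply Subgroup.mem_sup_left
    have := hn.conj_mem _ (inv_mem hb) (y.out)⁻¹
    rwa [inv_inv] at this
  have hg : g ∈ sSup 𝓕 := by rw [htop]; trivial
  obtain ⟨N, ⟨K, hK, hHK, rfl⟩, hgN⟩ := (Subgroup.mem_sSup_of_directedOn hne hdir).mp hg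
  exact ⟨K, hK, hHK, hgN⟩

end Pool.Agent.H73.BT
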