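import Pool.Agent.H73.BT.Wlk

/-!
MODULE Bad (skeleton helper73): starting points far from a finite set.

`away` PROOF. Let B be the finite set of points w with cls C w = cls C δ for some δ ∈ Δ (w = t • ω with
t ∈ (rep δ) C; C • ω is finite by `Ctx.orb`; B ⊆ ⋃ rep δ • (C • ω)). S = the pointwise stabiliser
of Δ, proper since δ ∈ Δ exists (Δ nonempty, `Ctx.stab_ne_top` and monotonicity), so S-orbits are
finite. E 0 = B, E (j+1) = E j ∪ ⋃ over the letter a = (s (L-1-j)).1 of (S • (g a)⁻¹ • E j) ∪ (g a • S • E j)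
(or: by induction on n, the set of z for which some h in the coset and some walk of length n of
any shifted letter sequence s (· + i) ends in B is finite: the walk from z with letters s 0, ... is the
walk from letter (s 0) • z with letters s 1, ...). All finite. Ω is infinite: take z outside.
-/

set_option autoImplicit false

open Set
open scoped Pointwise commutatorElement

namespace Pool.Agent.H73.BT

open Pool.Agent.H80.BT

variable {G : Type*} [Group G] {Ω : Type*} [MulAction G Ω] {p : ℕ} {ι : Type*}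

theorem away (c : Ctx G Ω p) (ω : Ω) (C : Subgroup G) (hC : C ≠ ⊤)
    (hH : MulAction.stabilizer G ω ≤ C) (Δ : Finset Ω) (hΔ : Δ.Nonempty) (g : ι → G)
    (s : ℕ → ι × Bool) (L : ℕ) :
    ∃ z : Ω, ∀ h : ι → G, (∀ i, ∀ δ ∈ Δ, h i • δ = δ) →
      ∀ j ≤ L, ∀ δ ∈ Δ, cls c ω C δ ≠ cls c ω C (walk (fun i => g i * h i) s z j) := by
  classical
  have := c.inf
  obtain ⟨δ0, hδ0⟩ := hΔ
  -- the pointwise stabiliser
  let S : Subgroup G := ⨅ δ ∈ Δ, MulAction.stabilizer G δ
  have hS : ∀ x : G, x ∈ S ↔ ∀ δ ∈ Δ, x • δ = δ := by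
    intro x
    simp only [S, Subgroup.mem_iInf, MulAction.mem_stabilizer_iff]
  have hS1 : S ≠ ⊤ := by
    intro h
    apply c.stab_ne_top δ0
    rw [eq_top_iff, ← h]
    exact iInf₂_le δ0 hδ0
  have horb : ∀ E : Set Ω, E.Finite → {w : Ω | ∃ x ∈ S, ∃ e ∈ E, x • e = w}.Finite := by
    intro E hE
    refine (hE.biUnion (fun e _ => c.orb hS1 e)).subset ?_
    rintro w ⟨x, hx, e, he, rfl⟩
    exact Set.mem_biUnion he ⟨x, hx, rfl⟩
  -- finitely many starting points can end in a finite set
  have key : ∀ j : ℕ, ∀ E : Set Ω, E.Finite →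
      {z : Ω | ∃ h : ι → G, (∀ i, ∀ δ ∈ Δ, h i • δ = δ) ∧
        walk (fun i => g i * h i) s z j ∈ E}.Finite := by
    intro j
    induction j with
    | zero =>
      intro E hE
      refine hE.subset ?_
      rintro z ⟨h, _, hz⟩
      exact hz
    | succ j ih =>
      intro E hE
      cases hb : (s j).2
      · refine (ih ((fun e => g (s j).1 • e) '' {w : Ω | ∃ x ∈ S, ∃ e ∈ E, x • e = w})
          ((horb E hE).image _)).subset ?_
        rintro z ⟨h, hh, hz⟩
        refine ⟨h, hh, ?_⟩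
        have h1 : walk (fun i => g i * h i) s z (j + 1) =
            (g (s j).1 * h (s j).1)⁻¹ • walk (fun i => g i * h i) s z j := by
          show letter (fun i => g i * h i) (s j) • walk (fun i => g i * h i) s z j = _
          simp only [letter, hb, Bool.false_eq_true, if_false]
        rw [h1] at hz
        refine ⟨h (s j).1 • ((g (s j).1 * h (s j).1)⁻¹ • walk (fun i => g i * h i) s z j),
          ⟨h (s j).1, (hS _).2 (hh _), _, hz, rfl⟩, ?_⟩
        show g (s j).1 • (h (s j).1 • ((g (s j).1 * h (s j).1)⁻¹ •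
          walk (fun i => g i * h i) s z j)) = walk (fun i => g i * h i) s z j
        rw [← mul_smul (g (s j).1) (h (s j).1), smul_inv_smul]
      · refine (ih {w : Ω | ∃ x ∈ S, ∃ e ∈ ((fun e => (g (s j).1)⁻¹ • e) '' E), x • e = w}
          (horb _ (hE.image _))).subset ?_
        rintro z ⟨h, hh, hz⟩
        refine ⟨h, hh, ?_⟩
        have h1 : walk (fun i => g i * h i) s z (j + 1) =
            (g (s j).1 * h (s j).1) • walk (fun i => g i * h i) s z j := by
          show letter (fun i => g i * h i) (s j) • walk (fun i => g i * h i) s z j = _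
          simp only [letter, hb, if_true]
        rw [h1] at hz
        refine ⟨(h (s j).1)⁻¹, S.inv_mem ((hS _).2 (hh _)), _, ⟨_, hz, rfl⟩, ?_⟩
        show (h (s j).1)⁻¹ • ((g (s j).1)⁻¹ • ((g (s j).1 * h (s j).1) •
          walk (fun i => g i * h i) s z j)) = walk (fun i => g i * h i) s z j
        rw [mul_smul, inv_smul_smul, inv_smul_smul]
  -- the points in a class of a point of Δ
  have hB : {w : Ω | ∃ δ ∈ Δ, cls c ω C δ = cls c ω C w}.Finite := by
    refine ((Finset.finite_toSet Δ).biUnion (fun δ _ =>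
      (c.orb hC ω).image (fun v => rep c ω δ • v))).subset ?_
    rintro w ⟨δ, hδ, he⟩
    refine Set.mem_biUnion (Finset.mem_coe.2 hδ) ⟨((rep c ω δ)⁻¹ * rep c ω w) • ω,
      ⟨(rep c ω δ)⁻¹ * rep c ω w, QuotientGroup.eq.mp he, rfl⟩, ?_⟩
    show rep c ω δ • (((rep c ω δ)⁻¹ * rep c ω w) • ω) = w
    rw [mul_smul, smul_inv_smul, rep_smul]
  have hfin : (⋃ j ∈ Set.Iic L, {z : Ω | ∃ h : ι → G, (∀ i, ∀ δ ∈ Δ, h i • δ = δ) ∧
      walk (fun i => g i * h i) s z j ∈ {w : Ω | ∃ δ ∈ Δ, cls c ω C δ = cls c ω C w}}).Finite :=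
    (Set.finite_Iic L).biUnion (fun j _ => key j _ hB)
  obtain ⟨z, hz⟩ := hfin.infinite_compl.nonempty
  refine ⟨z, fun h hh j hj δ hδ he => hz ?_⟩
  exact Set.mem_biUnion (Set.mem_Iic.2 hj) ⟨h, hh, δ, hδ, he⟩

end Pool.Agent.H73.BT
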