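import Pool.Agent.H80.BT.A

/-!
MODULE Chn (frame helper73): a cofinal sequence of proper subgroups.

PROOF. Ω is infinite: choose an injection a : ℕ → Ω (`Infinite.natEmbedding`) and t n with t n • ω = a n. The subgroup generated by
all t n has an infinite orbit, so it is ⊤ (`c.orb` / `c.bt`). Let K n = stabilizer ω ⊔ closure {t 0, ..., t n}; it is proper (`Ctx.adj`), increasing.
Let C be proper. As in the proof of `Ctx.sup_ne_top` (the lemma `key` there; `exists_reps` for C and c.orb) there is a finite set s
with C ≤ stabilizer ω ⊔ closure s. Every element of s is in the closure of all the t n, so in the closure of finitely many of them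
(the closures of {t 0, ..., t n} are directed with union everything). So C ≤ K n for some n.
-/

set_option autoImplicit false

open Set
open scoped Pointwise

namespace Pool.Agent.H73.BT

open Pool.Agent.H80.BT

variable {G : Type*} [Group G] {Ω : Type*} [MulAction G Ω] {p : ℕ}

theorem chain (c : Ctx G Ω p) (ω : Ω) :
    ∃ K : ℕ → Subgroup G, (∀ n, K n ≠ ⊤) ∧ Monotone K ∧ (∀ n, MulAction.stabilizer G ω ≤ K n) ∧
      ∀ C : Subgroup G, C ≠ ⊤ → ∃ n, C ≤ K n := by
  classical
  have hinf := c.inf
  have htr := c.trans
  have h0 : ∀ n : ℕ, ∃ g : G, g • ω = (Infinite.natEmbedding Ω) n := fun n =>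
    MulAction.exists_smul_eq G ω _
  choose t ht using h0
  have htop : Subgroup.closure (Set.range t) = ⊤ := by
    by_contra hne
    have hfin := c.orb hne ω
    have hsub : Set.range (Infinite.natEmbedding Ω) ⊆
        ((fun g : G => g • ω) '' ((Subgroup.closure (Set.range t) : Subgroup G) : Set G)) := by
      rintro _ ⟨n, rfl⟩
      exact ⟨t n, Subgroup.subset_closure ⟨n, rfl⟩, ht n⟩
    exact Set.infinite_range_of_injective (Infinite.natEmbedding Ω).injective (hfin.subset hsub)
  have hmem : ∀ g : G, ∃ n : ℕ, g ∈ Subgroup.closure (t '' Set.Iic n) := by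
    have hdir : Directed (· ≤ ·) (fun n : ℕ => Subgroup.closure (t '' Set.Iic n)) := by
      apply Monotone.directed_le
      intro m n hmn
      exact Subgroup.closure_mono (Set.image_mono (Set.Iic_subset_Iic.mpr hmn))
    intro g
    have hg : g ∈ ⨆ n : ℕ, Subgroup.closure (t '' Set.Iic n) := by
      have hle : Subgroup.closure (Set.range t) ≤ ⨆ n : ℕ, Subgroup.closure (t '' Set.Iic n) := by
        rw [Subgroup.closure_le]
        rintro _ ⟨n, rfl⟩
        exact Subgroup.mem_iSup_of_mem n
          (Subgroup.subset_closure ⟨n, Set.mem_Iic.mpr le_rfl, rfl⟩)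
      apply hle
      rw [htop]
      trivial
    exact (Subgroup.mem_iSup_of_directed hdir).mp hg
  choose N hN using hmem
  refine ⟨fun n => MulAction.stabilizer G ω ⊔ Subgroup.closure (t '' Set.Iic n), ?_, ?_, ?_, ?_⟩
  · intro n
    exact c.adj ω le_rfl (c.stab_ne_top ω) ((Set.finite_Iic n).image t)
  · intro m n hmn
    exact sup_le_sup_left
      (Subgroup.closure_mono (Set.image_mono (Set.Iic_subset_Iic.mpr hmn))) _
  · intro n
    exact le_sup_left
  · intro C hC
    obtain ⟨s, hsf, -, hs⟩ := exists_reps ω (C : Set G) (c.orb hC ω)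
    obtain ⟨M, hM⟩ := (hsf.image N).bddAbove
    refine ⟨M, ?_⟩
    intro x hx
    obtain ⟨y, hy, hyx⟩ := hs x hx
    have hyM : y ∈ Subgroup.closure (t '' Set.Iic M) :=
      Subgroup.closure_mono
        (Set.image_mono (Set.Iic_subset_Iic.mpr (hM ⟨y, hy, rfl⟩))) (hN y)
    have h : x = y * (y⁻¹ * x) := by group
    rw [h]
    exact mul_mem (Subgroup.mem_sup_right hyM) (Subgroup.mem_sup_left hyx)

end Pool.Agent.H73.BT
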