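import Pool.Agent.H80.BT.A
import Mathlib.Topology.Baire.LocallyCompactRegular
import Mathlib.Topology.Baire.Lemmas

/-!
MODULE Cov (frame helper73): minimal closed invariant subsets and Baire.

PROOF. Let S be the set of nonempty closed subsets M of X with r h x ∈ M for all h and x ∈ M; univ ∈ S. Zorn downwards (`zorn_superset_nonempty`):
the intersection of a nonempty chain is nonempty (`IsCompact.nonempty_sInter_of_directed_nonempty_isCompact_isClosed`), closed, invariant. Let M be minimal.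
M is compact Hausdorff, so a Baire space, and it is the union of the closed sets A n ∩ M: `nonempty_interior_of_iUnion_of_closed` in the
subtype M gives n and an open U of X with U ∩ M ⊆ A n and a point x0 ∈ U ∩ M. The set {x ∈ M | ∀ h, r h x ∉ U} is closed and invariant (r h (r g x) = r (g * h) x),
and does not contain x0 = r 1 x0, so by minimality it is empty. By compactness of M finitely many of the open sets {x | r h x ∈ U} cover M.
For x ∈ M and r h x ∈ U we have r h x ∈ U ∩ M ⊆ A n.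
-/

set_option autoImplicit false

open Set

namespace Pool.Agent.H73.BT

theorem cov {X : Type*} [TopologicalSpace X] [CompactSpace X] [T2Space X] [Nonempty X] {G : Type*} [Group G]
    (r : G → X → X) (hr1 : ∀ x, r 1 x = x) (hr : ∀ g h x, r h (r g x) = r (g * h) x)
    (hc : ∀ h, Continuous (r h)) (A : ℕ → Set X) (hA : ∀ n, IsClosed (A n)) (hU : ∀ x, ∃ n, x ∈ A n) :
    ∃ M : Set X, IsClosed M ∧ M.Nonempty ∧ (∀ h, ∀ x ∈ M, r h x ∈ M) ∧
      ∃ (n : ℕ) (H : Finset G), ∀ x ∈ M, ∃ h ∈ H, r h x ∈ A n := by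
  classical
  obtain ⟨M, _, hM⟩ := zorn_superset_nonempty {M : Set X | IsClosed M ∧ M.Nonempty ∧ ∀ h, ∀ x ∈ M, r h x ∈ M}
    (by
      intro c hcS hch hne
      have hcl : ∀ s ∈ c, IsClosed s := fun s hs => (hcS hs).1
      refine ⟨⋂₀ c, ⟨isClosed_sInter hcl, ?_, ?_⟩, fun s hs => sInter_subset_of_mem hs⟩
      · have : Nonempty c := hne.to_subtype
        have hdir : DirectedOn (fun a b : Set X => a ⊇ b) c := by
          intro a ha b hb
          rcases hch.total ha hb with h | h
          · exact ⟨a, ha, subset_rfl, h⟩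
          · exact ⟨b, hb, h, subset_rfl⟩
        exact IsCompact.nonempty_sInter_of_directed_nonempty_isCompact_isClosed hdir
          (fun s hs => (hcS hs).2.1) (fun s hs => (hcl s hs).isCompact) hcl
      · intro h x hx s hs
        exact (hcS hs).2.2 h x (hx s hs))
    univ ⟨isClosed_univ, univ_nonempty, fun _ _ _ => mem_univ _⟩
  obtain ⟨hMcl, hMne, hMinv⟩ := hM.prop
  have : CompactSpace M := isCompact_iff_compactSpace.1 hMcl.isCompact
  have : Nonempty M := hMne.to_subtype
  obtain ⟨n, hn⟩ := nonempty_interior_of_iUnion_of_closed (X := M) (f := fun n : ℕ => (Subtype.val ⁻¹' A n : Set M))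
    (fun n => (hA n).preimage continuous_subtype_val)
    (by
      ext x
      simp only [mem_iUnion, mem_preimage, mem_univ, iff_true]
      exact hU x.1)
  obtain ⟨x0, hx0⟩ := hn
  rw [mem_interior] at hx0
  obtain ⟨V, hVA, hVo, hxV⟩ := hx0
  obtain ⟨U, hUo, hUV⟩ := isOpen_induced_iff.1 hVo
  have hUA : ∀ x ∈ M, x ∈ U → x ∈ A n := by
    intro x hx hxU
    have h1 : (⟨x, hx⟩ : M) ∈ V := by
      rw [← hUV]
      exact hxU
    exact hVA h1
  have hx0U : (x0 : X) ∈ U := by
    rw [← hUV] at hxV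
    exact hxV
  have hcov : ∀ x ∈ M, ∃ h, r h x ∈ U := by
    by_contra hcon
    push Not at hcon
    obtain ⟨x1, hx1, hx1U⟩ := hcon
    have hN : {x | x ∈ M ∧ ∀ h, r h x ∉ U} ∈ {M : Set X | IsClosed M ∧ M.Nonempty ∧ ∀ h, ∀ x ∈ M, r h x ∈ M} := by
      refine ⟨?_, ⟨x1, hx1, hx1U⟩, ?_⟩
      · have h1 : {x | x ∈ M ∧ ∀ h, r h x ∉ U} = M ∩ ⋂ h, (r h) ⁻¹' Uᶜ := by
          ext x
          simp only [mem_ofPred_eq, mem_inter_iff, mem_iInter, mem_preimage, mem_compl_iff]
        rw [h1]
        exact hMcl.inter (isClosed_iInter fun h => hUo.isClosed_compl.preimage (hc h))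
      · rintro h x ⟨hx, hxU⟩
        refine ⟨hMinv h x hx, fun g => ?_⟩
        rw [hr]
        exact hxU _
    have h2 := hM.le_of_le hN (fun x hx => hx.1)
    have h3 := (h2 x0.2).2 1
    rw [hr1] at h3
    exact h3 hx0U
  obtain ⟨H, hH⟩ := hMcl.isCompact.elim_finite_subcover (fun h => (r h) ⁻¹' U) (fun h => hUo.preimage (hc h))
    (fun x hx => by
      obtain ⟨h, hh⟩ := hcov x hx
      exact mem_iUnion.2 ⟨h, hh⟩)
  refine ⟨M, hMcl, hMne, hMinv, n, H, fun x hx => ?_⟩
  obtain ⟨h, hh, hxh⟩ := mem_iUnion₂.1 (hH hx)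
  exact ⟨h, hh, hUA _ (hMinv h x hx) hxh⟩

end Pool.Agent.H73.BT
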