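import Pool.Agent.H80.BT.D

/-!
MODULE Crt (skeleton helper73, base library H80/BT by helper80).

`exists_hom_p`: a proper subgroup of a finite p-group is contained in the kernel of a nonzero
character with values in `ZMod p`. PROOF: `Pool.Agent.H80.BT.exists_hom_of_proper` (file H80/BT/C)
gives a prime l and f; a nonzero homomorphism from a p-group to ZMod l forces l = p.

`crt`: PROOF. For k in s let P k be the range of the action homomorphism R -> Equiv.Perm (D k)
(D k is finite and R-invariant), a finite p-group. Let Q = Pi over {k // k in s} of P k (finite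
p-group) and phi : R ->* Q. CLAIM phi is onto. Otherwise take f from `exists_hom_p` for the range
of phi. Put u k x = toAdd (f (Pi.mulSingle k (phi x k))) for x in R, 0 for x not in R. This is an
element of `VS Ω R p` (it vanishes on the elements of R fixing the finite set D k pointwise) and
sum over k in s of u k x = toAdd (f (phi x)) = 0. By `hind` all u k = 0, so f vanishes on all
`Pi.mulSingle k q`, so f = 1, contradiction. Now take a preimage of the element with coordinates
the action of y k on D k.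
-/

set_option autoImplicit false

open Set
open scoped Pointwise commutatorElement

namespace Pool.Agent.H73.BT

open Pool.Agent.H80.BT

theorem exists_hom_p {p : ℕ} (hp : p.Prime) (Q : Type*) [Group Q] [Finite Q]
    (hQ : IsPGroup p Q) (W : Subgroup Q) (hW : W ≠ ⊤) :
    ∃ f : Q →* Multiplicative (ZMod p), (∃ q, f q ≠ 1) ∧ ∀ w ∈ W, f w = 1 := by
  have hfact : Fact p.Prime := ⟨hp⟩
  have hnil : Group.IsNilpotent Q := hQ.isNilpotent
  obtain ⟨l, hl, f, ⟨q, hq⟩, hf⟩ := exists_hom_of_proper Q W hW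
  have h1 : (f q) ^ l = 1 := by
    apply Multiplicative.toAdd.injective
    rw [toAdd_pow, toAdd_one, nsmul_eq_mul, CharP.cast_eq_zero, zero_mul]
  obtain ⟨k, hk⟩ := hQ q
  have h2 : (f q) ^ (p ^ k) = 1 := by
    rw [← map_pow, hk, map_one]
  have h3 : orderOf (f q) ∣ l := orderOf_dvd_of_pow_eq_one h1
  have h4 : orderOf (f q) ∣ p ^ k := orderOf_dvd_of_pow_eq_one h2
  have h5 : orderOf (f q) ≠ 1 := by
    intro h
    exact hq (orderOf_eq_one_iff.1 h)
  have h6 : orderOf (f q) = l := (hl.eq_one_or_self_of_dvd _ h3).resolve_left h5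
  rw [h6] at h4
  have h7 : l = p := (Nat.prime_dvd_prime_iff_eq hl hp).1 (hl.dvd_of_dvd_pow h4)
  subst h7
  exact ⟨f, ⟨q, hq⟩, hf⟩

private theorem pi_pgroup {p : ℕ} {ι : Type*} [Fintype ι] {P : ι → Type*} [∀ i, Group (P i)]
    (h : ∀ i, IsPGroup p (P i)) : IsPGroup p (∀ i, P i) := by
  intro q
  choose n hn using fun i => h i (q i)
  refine ⟨∑ i, n i, ?_⟩
  funext i
  have h1 : p ^ n i ∣ p ^ ∑ i, n i :=
    pow_dvd_pow _ (Finset.single_le_sum (f := n) (fun _ _ => Nat.zero_le _) (Finset.mem_univ i))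
  obtain ⟨m, hm⟩ := h1
  rw [Pi.pow_apply, hm, pow_mul, hn i, one_pow]
  rfl

/-- the action of R on an invariant set -/
private def actHom {G : Type*} [Group G] {Ω : Type*} [MulAction G Ω] (R : Subgroup G) (D : Set Ω)
    (hinv : ∀ r ∈ R, ∀ z ∈ D, r • z ∈ D) : R →* Equiv.Perm D where
  toFun r :=
    { toFun := fun z => ⟨(r : G) • z.1, hinv r r.2 z.1 z.2⟩
      invFun := fun z => ⟨(r : G)⁻¹ • z.1, hinv _ (inv_mem r.2) z.1 z.2⟩
      left_inv := fun z => Subtype.ext (inv_smul_smul _ _)
      right_inv := fun z => Subtype.ext (smul_inv_smul _ _) }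
  map_one' := by
    ext z
    show (((1 : R) : G) • z.1 : Ω) = z.1
    rw [OneMemClass.coe_one, one_smul]
  map_mul' a b := by
    ext z
    show (((a * b : R) : G) • z.1 : Ω) = (a : G) • ((b : G) • z.1)
    rw [← mul_smul]
    rfl

private theorem actHom_apply {G : Type*} [Group G] {Ω : Type*} [MulAction G Ω] (R : Subgroup G)
    (D : Set Ω) (hinv : ∀ r ∈ R, ∀ z ∈ D, r • z ∈ D) (r : R) (z : D) :
    ((actHom R D hinv r z : D) : Ω) = (r : G) • (z : Ω) := rfl

private theorem hom_eq_prod {ι : Type*} [Fintype ι] [DecidableEq ι] {P : ι → Type*}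
    [∀ i, Group (P i)] {C : Type*} [CommGroup C] (f : (∀ i, P i) →* C) (q : ∀ i, P i) :
    f q = ∏ i, f (Pi.mulSingle i (q i)) := by
  let g : (∀ i, P i) →* C :=
    { toFun := fun q => ∏ i, f (Pi.mulSingle i (q i))
      map_one' := by
        simp only [Pi.one_apply, Pi.mulSingle_one, map_one, Finset.prod_const_one]
      map_mul' := by
        intro a b
        simp only [Pi.mul_apply, Pi.mulSingle_mul, map_mul, Finset.prod_mul_distrib] }
  have h : f = g := by
    apply MonoidHom.pi_ext
    intro i x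
    show f (Pi.mulSingle i x) = ∏ j, f (Pi.mulSingle j ((Pi.mulSingle i x : ∀ i, P i) j))
    rw [Finset.prod_eq_single i]
    · rw [Pi.mulSingle_eq_same]
    · intro j _ hj
      rw [Pi.mulSingle_eq_of_ne hj, Pi.mulSingle_one, map_one]
    · intro h
      exact (h (Finset.mem_univ i)).elim
  exact congrArg (fun k : (∀ i, P i) →* C => k q) h

theorem crt {G : Type*} [Group G] {Ω : Type*} [MulAction G Ω] {p : ℕ} (hp : p.Prime)
    (hG : IsPGroup p G) (R : Subgroup G) {κ : Type*} (s : Finset κ) (D : κ → Set Ω)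
    (hfin : ∀ k ∈ s, (D k).Finite) (hinv : ∀ k ∈ s, ∀ r ∈ R, ∀ z ∈ D k, r • z ∈ D k)
    (hind : ∀ u : κ → VS Ω R p,
      (∀ k ∈ s, ∀ x ∈ R, (∀ z ∈ D k, x • z = z) → (u k).1 x = 0) →
      ∑ k ∈ s, u k = 0 → ∀ k ∈ s, u k = 0)
    (y : κ → G) (hy : ∀ k ∈ s, y k ∈ R) :
    ∃ x ∈ R, ∀ k ∈ s, ∀ z ∈ D k, x • z = y k • z := by
  classical
  have hfD : ∀ k : {k // k ∈ s}, Finite (D k.1) := fun k => (hfin k.1 k.2).to_subtype
  let a : ∀ k : {k // k ∈ s}, R →* Equiv.Perm (D k.1) := fun k =>
    actHom R (D k.1) (hinv k.1 k.2)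
  have hPg : ∀ k : {k // k ∈ s}, IsPGroup p ((a k).range) := fun k =>
    (hG.to_subgroup R).of_surjective (a k).rangeRestrict (a k).rangeRestrict_surjective
  have hPf : ∀ k : {k // k ∈ s}, Finite ((a k).range) := fun k => by
    have := hfD k
    infer_instance
  let Φ : R →* (∀ k : {k // k ∈ s}, (a k).range) :=
    { toFun := fun r k => (a k).rangeRestrict r
      map_one' := by
        funext k
        exact map_one _
      map_mul' := by
        intro r t
        funext k
        exact map_mul _ _ _ }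
  have hΦ : ∀ (r : R) (k : {k // k ∈ s}), Φ r k = (a k).rangeRestrict r := fun _ _ => rfl
  have htop : Φ.range = ⊤ := by
    by_contra hne
    have hQ : IsPGroup p (∀ k : {k // k ∈ s}, (a k).range) := pi_pgroup hPg
    obtain ⟨f, ⟨q, hq⟩, hf⟩ := exists_hom_p hp _ hQ Φ.range hne
    -- the characters
    have hone : ∀ (k : {k // k ∈ s}) (x : R), (∀ z ∈ D k.1, (x : G) • z = z) →
        (a k).rangeRestrict x = 1 := by
      intro k x hx
      apply Subtype.ext
      apply Equiv.ext
      intro z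
      apply Subtype.ext
      exact hx z.1 z.2
    let u : κ → VS Ω R p := fun k =>
      if hk : k ∈ s then
        ⟨fun x => if hx : x ∈ R then
            (f (Pi.mulSingle (⟨k, hk⟩ : {k // k ∈ s}) ((a ⟨k, hk⟩).rangeRestrict ⟨x, hx⟩))).toAdd
          else 0, by
          refine ⟨?_, ?_, D k, hfin k hk, ?_⟩
          · intro x hx
            simp only [dif_neg hx]
          · intro x hx t ht
            simp only [dif_pos hx, dif_pos ht, dif_pos (mul_mem hx ht)]
            have h1 : (⟨x * t, mul_mem hx ht⟩ : R) = ⟨x, hx⟩ * ⟨t, ht⟩ := rfl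
            rw [h1, map_mul, Pi.mulSingle_mul, map_mul, toAdd_mul]
          · intro x hx hfx
            simp only [dif_pos hx]
            rw [hone ⟨k, hk⟩ ⟨x, hx⟩ hfx, Pi.mulSingle_one, map_one, toAdd_one]⟩
      else 0
    have hu : ∀ (k : κ) (hk : k ∈ s) (x : G) (hx : x ∈ R), (u k).1 x =
        (f (Pi.mulSingle (⟨k, hk⟩ : {k // k ∈ s})
          ((a ⟨k, hk⟩).rangeRestrict ⟨x, hx⟩))).toAdd := by
      intro k hk x hx
      simp only [u, dif_pos hk, dif_pos hx]
    have hu0 := hind u (by
        intro k hk x hx hfx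
        rw [hu k hk x hx, hone ⟨k, hk⟩ ⟨x, hx⟩ hfx, Pi.mulSingle_one, map_one, toAdd_one]) (by
        apply Subtype.ext
        funext x
        have h1 : (∑ k ∈ s, u k).1 x = ∑ k ∈ s, (u k).1 x := by
          have h2 : ((∑ k ∈ s, u k : VS Ω R p) : G → ZMod p) = ∑ k ∈ s, ((u k : VS Ω R p) : G → ZMod p) :=
            AddSubgroup.val_finsetSum _ _ _
          show ((∑ k ∈ s, u k : VS Ω R p) : G → ZMod p) x = _
          rw [h2, Finset.sum_apply]
        rw [h1]
        show ∑ k ∈ s, (u k).1 x = 0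
        by_cases hx : x ∈ R
        · have h3 : f (Φ ⟨x, hx⟩) = 1 := hf _ ⟨_, rfl⟩
          rw [hom_eq_prod f] at h3
          have h4 := congrArg Multiplicative.toAdd h3
          rw [toAdd_one, toAdd_prod] at h4
          rw [← Finset.sum_coe_sort s, ← h4]
          apply Finset.sum_congr rfl
          intro k _
          rw [hu k.1 k.2 x hx]
          rfl
        · apply Finset.sum_eq_zero
          intro k _
          exact VS.support (u k) hx)
    apply hq
    rw [hom_eq_prod f]
    apply Finset.prod_eq_one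
    intro k _
    obtain ⟨r, hr⟩ := (a k).rangeRestrict_surjective (q k)
    have h5 := hu k.1 k.2 r.1 r.2
    rw [hu0 k.1 k.2] at h5
    have h6 : (f (Pi.mulSingle k ((a k).rangeRestrict r))).toAdd = 0 := h5.symm
    rw [← hr]
    exact Multiplicative.toAdd.injective (h6.trans toAdd_one.symm)
  have hmem : (fun k : {k // k ∈ s} => (a k).rangeRestrict ⟨y k.1, hy k.1 k.2⟩) ∈ Φ.range := by
    rw [htop]
    exact Subgroup.mem_top _
  obtain ⟨x, hx⟩ := hmem
  refine ⟨x.1, x.2, ?_⟩
  intro k hk z hz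
  have h1 := congrFun hx ⟨k, hk⟩
  rw [hΦ] at h1
  have h2 := congrArg (fun e : (a ⟨k, hk⟩).range => ((e.1 : Equiv.Perm (D k)) ⟨z, hz⟩ : D k)) h1
  exact congrArg Subtype.val h2

end Pool.Agent.H73.BT
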