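import Pool.Agent.H73.BT.Unf

/-!
MODULE Cyc (frame helper73): an element which permutes p far copies of D cyclically and returns trivially.

PROOF. WLOG everything inside one proper subgroup: let E = ⋃ d ∈ D, K • d (finite, `Ctx.orb`), let C1 be from `unif c ω K hK D hD (p * E.ncard)`
(E as a Finset), and C2 = C1 ⊔ K ⊔ ⨆ d ∈ D, closure {g d} with g d • ω = d (c.trans), proper (`Ctx.sup_ne_top`, `Ctx.biSup_ne_top`, `Ctx.closure_ne_top`).
Then every e ∈ E is s • ω with s ∈ C2. C := C2. Given x ∉ C2 with x ^ p ∈ K and k : ℕ → G with k i ∈ K for 0 < i < p. Replace k by k 0 = 1, k p = (x ^ p)⁻¹ (∈ K).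
For an integer e not divisible by p, x ^ e ∉ C2: x ^ p ∈ C2 and gcd (e, p) = 1 would give x ∈ C2. For 0 ≤ i < p let
Q i = ⋃ j < p, j ≠ i, (x ^ (-i) * x ^ j) • E, at most p * |E| points; if t • ω ∈ Q i then t ∉ C1: t • ω = x ^ (j - i) • s • ω with s ∈ C2 gives
t ∈ x ^ (j - i) • C2 (stabilizer ω ≤ C2), so x ^ (j - i) ∈ C2 if t ∈ C1. `unif` gives l i with l i • (k i • d) = k (i + 1) • d for d ∈ D, l i fixing Q i.
Let l = ∏ (list product, i < p) x ^ i * l i * x ^ (-i). On x ^ i • y with y ∈ E all the factors j ≠ i act trivially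
(x ^ (-j) • x ^ i • y ∈ Q j), and the factor i sends x ^ i • k i • d to x ^ i • k (i + 1) • d, again a point x ^ i • y' with y' ∈ E. So
l • (x ^ i * k i) • d = (x ^ i * k (i + 1)) • d. Put y = x * l: y • (x ^ i * k i) • d = (x ^ (i + 1) * k (i + 1)) • d for 0 ≤ i < p;
for i = p - 1 the right side is x ^ p * (x ^ p)⁻¹ • d = d.
-/

set_option autoImplicit false

open Set
open scoped Pointwise

namespace Pool.Agent.H73.BT

open Pool.Agent.H80.BT

variable {G : Type*} [Group G] {Ω : Type*} [MulAction G Ω] {p : ℕ}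

private theorem pow_notin {C : Subgroup G} (hp : p.Prime) {x : G} (hx : x ∉ C) (hxp : x ^ p ∈ C)
    {i j : ℕ} (hi : i < p) (hj : j < p) (hij : i ≠ j) : (x ^ i)⁻¹ * x ^ j ∉ C := by
  intro h
  apply hx
  have e1 : (x ^ i)⁻¹ * x ^ j = x ^ ((j : ℤ) - i) := by
    rw [zpow_sub, zpow_natCast, zpow_natCast]
    have hc : Commute (x ^ i) (x ^ j) := (Commute.refl x).pow_pow i j
    exact (hc.inv_left).eq
  have hnd : ¬ (p : ℤ) ∣ ((j : ℤ) - i) := by
    intro hd
    obtain ⟨a, ha⟩ := hd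
    rcases lt_trichotomy a 0 with h0 | h0 | h0
    · have : (p : ℤ) * a ≤ (p : ℤ) * (-1) := mul_le_mul_of_nonneg_left (by omega) (by omega)
      omega
    · subst h0
      omega
    · have : (p : ℤ) * 1 ≤ (p : ℤ) * a := mul_le_mul_of_nonneg_left (by omega) (by omega)
      omega
  have hg : Int.gcd ((j : ℤ) - i) p = 1 := by
    rw [Int.gcd_comm]
    have h1 : IsCoprime (p : ℤ) ((j : ℤ) - i) :=
      ((Nat.prime_iff_prime_int.1 hp).coprime_iff_not_dvd).2 hnd
    exact Int.isCoprime_iff_gcd_eq_one.1 h1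
  have hb := Int.gcd_eq_gcd_ab ((j : ℤ) - i) p
  rw [hg] at hb
  set a := Int.gcdA ((j : ℤ) - i) p
  set b := Int.gcdB ((j : ℤ) - i) p
  have hx1 : x = (x ^ ((j : ℤ) - i)) ^ a * (x ^ p) ^ b := by
    rw [← zpow_natCast x p, ← zpow_mul, ← zpow_mul, ← zpow_add, ← hb]
    simp
  rw [hx1]
  rw [e1] at h
  exact mul_mem (C.zpow_mem h a) (C.zpow_mem hxp b)

/-- `t i = x ^ i * k i` for `0 < i < p`, `t 0 = 1`: the element `y` maps `t i • d` to `t (i + 1) • d` and `t (p - 1) • d` to `d`;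
the sets `t i • D` are disjoint from `D` for `0 < i < p`. -/
theorem cyc (c : Ctx G Ω p) (ω : Ω) (K : Subgroup G) (hK : K ≠ ⊤) (hH : MulAction.stabilizer G ω ≤ K)
    (D : Set Ω) (hD : D.Finite) :
    ∃ C : Subgroup G, C ≠ ⊤ ∧ ∀ x : G, x ^ p ∈ K → x ∉ C → ∀ k : ℕ → G, (∀ i, k i ∈ K) → k 0 = 1 →
      (∀ i, 0 < i → i < p → ∀ d ∈ D, (x ^ i * k i) • d ∉ D) ∧
      ∃ y : G, (∀ i, i + 1 < p → ∀ d ∈ D, y • (x ^ i * k i) • d = (x ^ (i + 1) * k (i + 1)) • d) ∧
        ∀ d ∈ D, y • (x ^ (p - 1) * k (p - 1)) • d = d := by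
  classical
  have htr := c.trans
  have hp := c.prime
  have hp0 : 0 < p := hp.pos
  -- the finite set E
  have hEf : (⋃ d ∈ D, (fun g : G => g • d) '' (K : Set G)).Finite :=
    hD.biUnion fun d _ => c.orb hK d
  set E : Finset Ω := hEf.toFinset with hE
  have memE : ∀ e : Ω, e ∈ E ↔ ∃ d ∈ D, ∃ k ∈ K, k • d = e := by
    intro e
    rw [hE, Set.Finite.mem_toFinset, Set.mem_iUnion₂]
    constructor
    · rintro ⟨d, hd, k, hk, rfl⟩
      exact ⟨d, hd, k, hk, rfl⟩
    · rintro ⟨d, hd, k, hk, rfl⟩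
      exact ⟨d, hd, k, hk, rfl⟩
  have hkE : ∀ k ∈ K, ∀ d ∈ D, k • d ∈ E := fun k hk d hd => (memE _).2 ⟨d, hd, k, hk, rfl⟩
  have hDE : ∀ d ∈ D, d ∈ E := fun d hd => by
    have := hkE 1 K.one_mem d hd
    rwa [one_smul] at this
  obtain ⟨C1, hC1, hst, hC1u⟩ := unif c ω K hK D hD (p * E.card)
  have hg : ∀ e : Ω, ∃ g : G, g • ω = e := fun e => MulAction.exists_smul_eq G ω e
  choose g hg using hg
  set C2 : Subgroup G := C1 ⊔ K ⊔ Subgroup.closure (g '' (E : Set Ω)) with hC2def
  have hC2 : C2 ≠ ⊤ := c.sup_ne_top (c.sup_ne_top hC1 hK)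
    (c.closure_ne_top (E.finite_toSet.image g))
  have h12 : C1 ≤ C2 := le_sup_left.trans le_sup_left
  have hK2 : K ≤ C2 := le_sup_right.trans le_sup_left
  have hgC : ∀ e ∈ E, g e ∈ C2 := fun e he =>
    Subgroup.mem_sup_right (Subgroup.subset_closure ⟨e, he, rfl⟩)
  -- a translate of E meeting a translate of ω
  have key : ∀ u t : G, ∀ e ∈ E, t ∈ C2 → t • ω = u • e → u ∈ C2 := by
    intro u t e he ht h
    have h1 : (t⁻¹ * (u * g e)) ∈ C2 := by
      apply h12
      apply hst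
      rw [MulAction.mem_stabilizer_iff, mul_smul, mul_smul, hg, ← h, inv_smul_smul]
    have h2 : u = t * (t⁻¹ * (u * g e)) * (g e)⁻¹ := by group
    rw [h2]
    exact mul_mem (mul_mem ht h1) (inv_mem (hgC e he))
  refine ⟨C2, hC2, ?_⟩
  intro x hxp hx k hkK hk0
  have hxC : x ^ p ∈ C2 := hK2 hxp
  refine ⟨?_, ?_⟩
  · intro i hi hip d hd hcon
    have h1 : g ((x ^ i * k i) • d) ∈ C2 := hgC _ (hDE _ hcon)
    have h2 := key (x ^ i) _ _ (hkE _ (hkK i) d hd) h1 (by rw [hg, mul_smul])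
    have h3 := pow_notin hp hx hxC hp0 hip (by omega : 0 ≠ i)
    apply h3
    rw [pow_zero, inv_one, one_mul]
    exact h2
  · set k' : ℕ → G := fun i => if i < p then k i else (x ^ p)⁻¹ with hk'
    have hk'K : ∀ i, k' i ∈ K := by
      intro i
      rw [hk']
      by_cases h : i < p
      · simp only [h, if_true]
        exact hkK i
      · simp only [h, if_false]
        exact inv_mem hxp
    -- the sets Q i
    set Q : ℕ → Finset Ω := fun i =>
      ((Finset.range p ×ˢ E).filter fun q => q.1 ≠ i).image fun q => (x ^ i)⁻¹ • x ^ q.1 • q.2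
      with hQ
    have hQc : ∀ i, (Q i).card ≤ p * E.card := by
      intro i
      refine Finset.card_image_le.trans ((Finset.card_filter_le _ _).trans ?_)
      rw [Finset.card_product, Finset.card_range]
    have hQm : ∀ i j e, j < p → j ≠ i → e ∈ E → (x ^ i)⁻¹ • x ^ j • e ∈ Q i := by
      intro i j e hj hji he
      rw [hQ]
      exact Finset.mem_image.2 ⟨(j, e), Finset.mem_filter.2
        ⟨Finset.mem_product.2 ⟨Finset.mem_range.2 hj, he⟩, hji⟩, rfl⟩
    have hQt : ∀ i, i < p → ∀ t : G, t • ω ∈ Q i → t ∉ C1 := by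
      intro i hi t ht hc
      rw [hQ] at ht
      obtain ⟨⟨j, e⟩, hje, hje2⟩ := Finset.mem_image.1 ht
      obtain ⟨hje3, hji⟩ := Finset.mem_filter.1 hje
      obtain ⟨hj, he⟩ := Finset.mem_product.1 hje3
      simp only at hji hj he hje2
      have hj' := Finset.mem_range.1 hj
      have := key ((x ^ i)⁻¹ * x ^ j) t e he (h12 hc) (by rw [mul_smul, ← hje2])
      exact pow_notin hp hx hxC hi hj' (Ne.symm hji) this
    have hl : ∀ i, ∃ l : G, i < p → (∀ d ∈ D, l • (k' i • d) = k' (i + 1) • d) ∧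
        ∀ q ∈ Q i, l • q = q := by
      intro i
      by_cases hi : i < p
      · obtain ⟨l, hl1, hl2⟩ := hC1u (k' i) (hk'K i) (k' (i + 1)) (hk'K (i + 1)) (Q i) (hQc i)
          (hQt i hi)
        exact ⟨l, fun _ => ⟨hl1, hl2⟩⟩
      · exact ⟨1, fun h => absurd h hi⟩
    choose l hl using hl
    let L : ℕ → G := fun m => Nat.rec 1 (fun m r => r * (x ^ m * l m * (x ^ m)⁻¹)) m
    have hL0 : L 0 = 1 := rfl
    have hLs : ∀ m, L (m + 1) = L m * (x ^ m * l m * (x ^ m)⁻¹) := fun m => rfl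
    have fix : ∀ i j e, i < p → j < p → j ≠ i → e ∈ E →
        (x ^ i * l i * (x ^ i)⁻¹) • (x ^ j • e) = x ^ j • e := by
      intro i j e hi hj hji he
      rw [mul_smul, mul_smul, (hl i hi).2 _ (hQm i j e hj hji he), smul_inv_smul]
    have low : ∀ m i e, i < p → m ≤ i → e ∈ E → L m • (x ^ i • e) = x ^ i • e := by
      intro m
      induction m with
      | zero => intro i e _ _ _; rw [hL0, one_smul]
      | succ m ih =>
        intro i e hi hmi he
        rw [hLs, mul_smul, fix m i e (by omega) hi (by omega) he]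
        exact ih i e hi (by omega) he
    have high : ∀ m i, i < p → m ≤ p → i < m → ∀ d ∈ D,
        L m • (x ^ i • (k' i • d)) = x ^ i • (k' (i + 1) • d) := by
      intro m
      induction m with
      | zero => intro i _ _ h; omega
      | succ m ih =>
        intro i hi hmp him d hd
        rw [hLs, mul_smul]
        by_cases hmi : m = i
        · subst hmi
          rw [mul_smul, mul_smul, inv_smul_smul, (hl m hi).1 d hd]
          exact low m m _ hi le_rfl (hkE _ (hk'K _) d hd)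
        · rw [fix m i _ (by omega) hi (Ne.symm hmi) (hkE _ (hk'K _) d hd)]
          exact ih i hi (by omega) (by omega) d hd
    refine ⟨x * L p, ?_, ?_⟩
    · intro i hi d hd
      have h1 := high p i (by omega) le_rfl (by omega) d hd
      have e1 : k' i = k i := by rw [hk']; simp only [(by omega : i < p), if_true]
      have e2 : k' (i + 1) = k (i + 1) := by rw [hk']; simp only [hi, if_true]
      rw [e1, e2] at h1
      rw [mul_smul, mul_smul, h1, ← mul_smul, ← mul_smul, ← pow_succ']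
    · intro d hd
      have h1 := high p (p - 1) (by omega) le_rfl (by omega) d hd
      have e1 : k' (p - 1) = k (p - 1) := by
        rw [hk']; simp only [(by omega : p - 1 < p), if_true]
      have e3 : p - 1 + 1 = p := by omega
      have e2 : k' (p - 1 + 1) = (x ^ p)⁻¹ := by
        rw [e3, hk']; simp only [lt_irrefl, if_false]
      rw [e1, e2] at h1
      rw [mul_smul, mul_smul, h1, ← mul_smul, ← mul_smul, ← pow_succ', e3, mul_inv_cancel,
        one_smul]

end Pool.Agent.H73.BT
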