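import Pool.Agent.H73.BT.ThF
import Pool.Agent.H73.BT.Chn

/-!
In a perfect locally finite barely transitive `p`-group every element has a support of density zero.
-/

set_option autoImplicit false

open Set
open scoped Pointwise

namespace Pool.Agent.H73.BT

open Pool.Agent.H80.BT

variable {G : Type*} [Group G] {Ω : Type*} [MulAction G Ω] {p : ℕ}

/-- an element `a` outside `K` all of whose conjugates, except those by elements of a proper subgroup, are in `K` -/
theorem den_a (c : Ctx G Ω p) (ω : Ω) (K : Subgroup G) (hK : K ≠ ⊤)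
    (hH : MulAction.stabilizer G ω ≤ K) :
    ∃ a : G, ∃ D : Subgroup G, D ≠ ⊤ ∧ a ∉ K ∧ ∀ g : G, g ∉ D → g⁻¹ * a * g ∈ K := by
  obtain ⟨b, ⟨y0, hy0⟩, hfin⟩ := theoremF c ω K hK hH
  obtain ⟨g0, rfl⟩ := QuotientGroup.mk_surjective y0
  set F : Set (G ⧸ K) := {y : G ⧸ K | b • y ≠ y} with hF
  have hDt : K ⊔ Subgroup.closure ((fun y : G ⧸ K => g0⁻¹ * y.out) '' F) ≠ ⊤ :=
    c.sup_ne_top hK (c.closure_ne_top (hfin.image _))
  refine ⟨g0⁻¹ * b * g0, K ⊔ Subgroup.closure ((fun y : G ⧸ K => g0⁻¹ * y.out) '' F), hDt, ?_, ?_⟩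
  · intro h
    apply hy0
    show ((b * g0 : G) : G ⧸ K) = (g0 : G ⧸ K)
    rw [eq_comm, QuotientGroup.eq]
    simpa [mul_assoc] using h
  · intro g hg
    have h1 : ((g0 * g : G) : G ⧸ K) ∉ F := by
      intro hmem
      apply hg
      have h2 : (((g0 * g : G) : G ⧸ K).out)⁻¹ * (g0 * g) ∈ K := by
        rw [← QuotientGroup.eq, QuotientGroup.out_eq']
      have h3 : g = (g0⁻¹ * ((g0 * g : G) : G ⧸ K).out) *
          ((((g0 * g : G) : G ⧸ K).out)⁻¹ * (g0 * g)) := by group
      rw [h3]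
      exact mul_mem (Subgroup.mem_sup_right (Subgroup.subset_closure ⟨_, hmem, rfl⟩))
        (Subgroup.mem_sup_left h2)
    have h4 : b • ((g0 * g : G) : G ⧸ K) = ((g0 * g : G) : G ⧸ K) := by
      by_contra hne
      exact h1 hne
    have h5 : ((b * (g0 * g) : G) : G ⧸ K) = ((g0 * g : G) : G ⧸ K) := h4
    rw [eq_comm, QuotientGroup.eq] at h5
    have h6 : g⁻¹ * (g0⁻¹ * b * g0) * g = (g0 * g)⁻¹ * (b * (g0 * g)) := by group
    rw [h6]
    exact h5

/-- a finite set `E` outside `K` such that the points fixed by no element of `E` have density at most `1 / N` -/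
theorem den_E (c : Ctx G Ω p) (ω : Ω) (K : Subgroup G) (hK : K ≠ ⊤)
    (hH : MulAction.stabilizer G ω ≤ K) (N : ℕ) :
    ∃ E Γ : Set G, E.Finite ∧ Γ.Finite ∧ (∀ y ∈ E, y ∉ K) ∧
      ∀ O : Set Ω, O.Finite → (∀ γ ∈ Γ, ∀ β ∈ O, γ • β ∈ O) →
        N * {β ∈ O | ∀ y ∈ E, y • β ≠ β}.ncard ≤ O.ncard := by
  classical
  obtain ⟨a, D, hD, haK, ha⟩ := den_a c ω K hK hH
  have htr := c.trans
  have hinf : Infinite (G ⧸ D) := by
    by_contra h
    have h1 : Finite (G ⧸ D) := not_infinite_iff_finite.1 h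
    exact hD (c.eq_top_of_finite D (fun g : G => (g : G ⧸ D)) (fun g h hgh => QuotientGroup.eq.1 hgh)
      (Set.toFinite _))
  set e : ℕ ↪ G ⧸ D := Infinite.natEmbedding (G ⧸ D) with he
  set r : ℕ → G := fun i => (e i).out with hr
  have hrD : ∀ i j, i ≠ j → (r i)⁻¹ * r j ∉ D := by
    intro i j hij hmem
    rw [← QuotientGroup.eq] at hmem
    simp only [hr, QuotientGroup.out_eq'] at hmem
    exact hij (e.injective hmem)
  set M : Subgroup G := Subgroup.normalClosure {a} with hM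
  have hMt : M ≠ ⊤ := c.normalClosure_ne_top a
  have hMn : M.Normal := Subgroup.normalClosure_normal
  have haM : a ∈ M := Subgroup.subset_normalClosure (Set.mem_singleton a)
  have hOrb : ((fun g : G => g • ω) '' (M : Set G)).Finite := c.orb hMt ω
  set Orb : Finset Ω := hOrb.toFinset with hOrbdef
  have hcc : 0 < Orb.card := by
    rw [Finset.card_pos]
    exact ⟨ω, by rw [hOrbdef, Set.Finite.mem_toFinset]; exact ⟨1, M.one_mem, one_smul _ _⟩⟩
  set R : ℕ := N * Orb.card with hR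
  set u : ℕ → ℕ → G := fun i j => a⁻¹ * ((r i)⁻¹ * r j * a * (r j)⁻¹ * r i) with hu
  set E : Set G := (fun q : ℕ × ℕ => u q.1 q.2) ''
    {q | q.1 < R ∧ q.2 < R ∧ q.1 ≠ q.2} with hE
  have hEfin : E.Finite := by
    apply Set.Finite.image
    apply ((Finset.range R ×ˢ Finset.range R).finite_toSet).subset
    rintro ⟨i, j⟩ ⟨h1, h2, -⟩
    simp only [Finset.coe_product, Finset.coe_range, Set.mem_prod, Set.mem_Iio]
    exact ⟨h1, h2⟩
  refine ⟨E, (fun i => (r i)⁻¹) '' (Finset.range R : Set ℕ), hEfin,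
    (Finset.finite_toSet _).image _, ?_, ?_⟩
  · rintro _ ⟨⟨i, j⟩, ⟨-, -, hij⟩, rfl⟩ hmem
    apply haK
    have h1 := ha ((r j)⁻¹ * r i) (hrD j i (Ne.symm hij))
    have h2 : a = (((r j)⁻¹ * r i)⁻¹ * a * ((r j)⁻¹ * r i)) * (u i j)⁻¹ := by
      simp only [hu]
      group
    rw [h2]
    exact mul_mem h1 (inv_mem hmem)
  · intro O hOfin hO
    set O' : Finset Ω := hOfin.toFinset with hO'
    have hOO : O.ncard = O'.card := Set.ncard_eq_toFinset_card O hOfin
    set Q : Finset Ω := O'.filter (fun β => ∀ y ∈ E, y • β ≠ β) with hQ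
    have hQQ : {β ∈ O | ∀ y ∈ E, y • β ≠ β}.ncard = Q.card := by
      rw [← Set.ncard_coe_finset]
      congr 1
      ext β
      simp [hQ, hO']
    rw [hQQ, hOO]
    have hO1 : ∀ i < R, ∀ β ∈ O', (r i)⁻¹ • β ∈ O' := by
      intro i hi β hβ
      rw [hO', Set.Finite.mem_toFinset] at hβ ⊢
      exact hO _ ⟨i, by simpa using hi, rfl⟩ β hβ
    have hA : ∀ i ∈ Finset.range R, Q.card ≤ (O'.filter (fun β => (r i)⁻¹ • β ∈ Q)).card := by
      intro i hi
      rw [Finset.mem_range] at hi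
      have h1 : O'.image (fun β => (r i)⁻¹ • β) = O' := by
        apply Finset.eq_of_subset_of_card_le
        · intro y hy
          obtain ⟨β, hβ, rfl⟩ := Finset.mem_image.1 hy
          exact hO1 i hi β hβ
        · rw [Finset.card_image_of_injective _ (MulAction.injective _)]
      have h2 : Q ⊆ (O'.filter (fun β => (r i)⁻¹ • β ∈ Q)).image (fun β => (r i)⁻¹ • β) := by
        intro q hq
        have h3 : q ∈ O' := Finset.mem_of_mem_filter q hq
        rw [← h1] at h3
        obtain ⟨β, hβ, rfl⟩ := Finset.mem_image.1 h3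
        exact Finset.mem_image.2 ⟨β, Finset.mem_filter.2 ⟨hβ, hq⟩, rfl⟩
      exact (Finset.card_le_card h2).trans Finset.card_image_le
    have hB : ∀ β ∈ O', ((Finset.range R).filter (fun i => (r i)⁻¹ • β ∈ Q)).card ≤ Orb.card := by
      intro β _
      obtain ⟨g, hg⟩ := MulAction.exists_smul_eq G ω β
      apply Finset.card_le_card_of_injOn (fun i => g⁻¹ • (r i * a * (r i)⁻¹) • β)
      · intro i _
        simp only [hOrbdef, Finset.mem_coe, Set.Finite.mem_toFinset]
        refine ⟨g⁻¹ * (r i * a * (r i)⁻¹) * g, ?_, ?_⟩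
        · have h1 := hMn.conj_mem _ (hMn.conj_mem a haM (r i)) g⁻¹
          rwa [inv_inv] at h1
        · show (g⁻¹ * (r i * a * (r i)⁻¹) * g) • ω = g⁻¹ • (r i * a * (r i)⁻¹) • β
          rw [← hg]
          simp only [mul_smul]
      · intro i hi j hj hij
        by_contra hne
        simp only [Finset.coe_filter, Finset.mem_range, Set.mem_ofPred_eq] at hi hj
        have h1 : (r i * a * (r i)⁻¹) • β = (r j * a * (r j)⁻¹) • β :=
          MulAction.injective g⁻¹ hij
        have h2 := (Finset.mem_filter.1 hi.2).2 (u i j) ⟨⟨i, j⟩, ⟨hi.1, hj.1, hne⟩, rfl⟩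
        apply h2
        have h3 : u i j • (r i)⁻¹ • β = (a⁻¹ * (r i)⁻¹) • (r j * a * (r j)⁻¹) • β := by
          simp only [hu, ← mul_smul]
          congr 1
          group
        rw [h3, ← h1]
        simp only [← mul_smul]
        congr 1
        group
    have hsum : ∑ i ∈ Finset.range R, (O'.filter (fun β => (r i)⁻¹ • β ∈ Q)).card =
        ∑ β ∈ O', ((Finset.range R).filter (fun i => (r i)⁻¹ • β ∈ Q)).card := by
      simp only [Finset.card_filter]
      exact Finset.sum_comm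
    have h4 : R * Q.card ≤ O'.card * Orb.card := by
      calc R * Q.card = ∑ _i ∈ Finset.range R, Q.card := by simp
        _ ≤ ∑ i ∈ Finset.range R, (O'.filter (fun β => (r i)⁻¹ • β ∈ Q)).card :=
          Finset.sum_le_sum hA
        _ = ∑ β ∈ O', ((Finset.range R).filter (fun i => (r i)⁻¹ • β ∈ Q)).card := hsum
        _ ≤ ∑ _β ∈ O', Orb.card := Finset.sum_le_sum hB
        _ = O'.card * Orb.card := by simp
    rw [hR] at h4
    have h5 : Orb.card * (N * Q.card) ≤ Orb.card * O'.card := by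
      calc Orb.card * (N * Q.card) = N * Orb.card * Q.card := by ring
        _ ≤ O'.card * Orb.card := h4
        _ = Orb.card * O'.card := by ring
    exact Nat.le_of_mul_le_mul_left h5 hcc

/-- every element has a support of density zero: for every `x` and `N` there is a finite set `Γ` such that
`x` moves at most the `N`-th part of every finite set invariant under `Γ`. -/
theorem dens (c : Ctx G Ω p) (x : G) (N : ℕ) :
    ∃ Γ : Set G, Γ.Finite ∧ ∀ O : Set Ω, O.Finite → (∀ γ ∈ Γ, ∀ β ∈ O, γ • β ∈ O) →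
      N * {β ∈ O | x • β ≠ β}.ncard ≤ O.ncard := by
  classical
  by_contra hcon
  push Not at hcon
  have := c.inf
  obtain ⟨ω⟩ : Nonempty Ω := inferInstance
  obtain ⟨K, hKt, -, hKH, hKc⟩ := chain c ω
  have hN : 0 < N := by
    rcases Nat.eq_zero_or_pos N with h | h
    · obtain ⟨O, -, -, h1⟩ := hcon ∅ Set.finite_empty
      rw [h] at h1
      simp at h1
    · exact h
  choose E Γ hEf hΓf hEK hEO using fun m : ℕ => den_E c ω (K m) (hKt m) (hKH m) (N * 2 ^ (m + 1))
  have key : ∀ r : ℕ, ∃ β : Ω, x • β ≠ β ∧ ∀ m ≤ r, ∃ y ∈ E m, y • β = β := by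
    intro r
    obtain ⟨O, hOf, hOi, hlt⟩ := hcon (⋃ m ∈ Finset.range (r + 1), Γ m)
      ((Finset.range (r + 1)).finite_toSet.biUnion fun m _ => hΓf m)
    by_contra hno
    push Not at hno
    have h1 : ∀ m ∈ Finset.range (r + 1),
        N * 2 ^ (m + 1) * {β ∈ O | ∀ y ∈ E m, y • β ≠ β}.ncard ≤ O.ncard := by
      intro m hm
      exact hEO m O hOf fun γ hγ β hβ => hOi γ (mem_biUnion hm hγ) β hβ
    have h2 : {β ∈ O | x • β ≠ β} ⊆
        ⋃ m ∈ Finset.range (r + 1), {β ∈ O | ∀ y ∈ E m, y • β ≠ β} := by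
      rintro β ⟨hβO, hβx⟩
      obtain ⟨m, hm, hm2⟩ := hno β hβx
      rw [mem_iUnion₂]
      exact ⟨m, Finset.mem_range.2 (Nat.lt_succ_of_le hm), hβO, hm2⟩
    have hf : ∀ m, {β ∈ O | ∀ y ∈ E m, y • β ≠ β}.Finite := fun m => hOf.subset fun β hβ => hβ.1
    have h3 : {β ∈ O | x • β ≠ β}.ncard ≤
        ∑ m ∈ Finset.range (r + 1), {β ∈ O | ∀ y ∈ E m, y • β ≠ β}.ncard := by
      refine (Set.ncard_le_ncard h2 ?_).trans ?_
      · exact (Finset.range (r + 1)).finite_toSet.biUnion fun m _ => hf m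
      · exact Finset.set_ncard_biUnion_le _ _
    have h4 : ((N : ℝ) * ({β ∈ O | x • β ≠ β}.ncard : ℝ)) ≤ (O.ncard : ℝ) := by
      have hNr : (0 : ℝ) < N := by exact_mod_cast hN
      have h5 : ∀ m ∈ Finset.range (r + 1),
          (N : ℝ) * ({β ∈ O | ∀ y ∈ E m, y • β ≠ β}.ncard : ℝ) ≤
            (O.ncard : ℝ) / 2 * (1 / 2) ^ m := by
        intro m hm
        have h6 : ((N * 2 ^ (m + 1) * {β ∈ O | ∀ y ∈ E m, y • β ≠ β}.ncard : ℕ) : ℝ) ≤
            (O.ncard : ℝ) := by exact_mod_cast h1 m hm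
        push_cast at h6
        have h7 : (0 : ℝ) < 2 ^ (m + 1) := by positivity
        have h8 : (O.ncard : ℝ) / 2 * (1 / 2) ^ m = (O.ncard : ℝ) / 2 ^ (m + 1) := by
          rw [pow_succ, one_div, inv_pow]
          field_simp
        rw [h8, le_div_iff₀ h7]
        linarith
      have h9 : (({β ∈ O | x • β ≠ β}.ncard : ℕ) : ℝ) ≤
          ∑ m ∈ Finset.range (r + 1), ({β ∈ O | ∀ y ∈ E m, y • β ≠ β}.ncard : ℝ) := by
        exact_mod_cast h3
      calc (N : ℝ) * ({β ∈ O | x • β ≠ β}.ncard : ℝ)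
          ≤ N * ∑ m ∈ Finset.range (r + 1), ({β ∈ O | ∀ y ∈ E m, y • β ≠ β}.ncard : ℝ) :=
            mul_le_mul_of_nonneg_left h9 hNr.le
        _ = ∑ m ∈ Finset.range (r + 1), (N : ℝ) * ({β ∈ O | ∀ y ∈ E m, y • β ≠ β}.ncard : ℝ) :=
            Finset.mul_sum _ _ _
        _ ≤ ∑ m ∈ Finset.range (r + 1), (O.ncard : ℝ) / 2 * (1 / 2) ^ m := Finset.sum_le_sum h5
        _ = (O.ncard : ℝ) / 2 * ∑ m ∈ Finset.range (r + 1), (1 / 2 : ℝ) ^ m := by
            rw [Finset.mul_sum]
        _ ≤ (O.ncard : ℝ) / 2 * 2 := by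
            apply mul_le_mul_of_nonneg_left (sum_geometric_two_le _)
            positivity
        _ = (O.ncard : ℝ) := by ring
    have h10 : N * {β ∈ O | x • β ≠ β}.ncard ≤ O.ncard := by exact_mod_cast h4
    omega
  choose β hβx hβE using key
  set U : Ultrafilter ℕ := Filter.hyperfilter ℕ with hU
  have hUle : (U : Filter ℕ) ≤ Filter.atTop := Nat.hyperfilter_le_atTop
  let S : Subgroup G :=
    { carrier := {g | ∀ᶠ r in (U : Filter ℕ), g • β r = β r}
      mul_mem' := by
        intro g h hg hh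
        filter_upwards [hg, hh] with r h1 h2
        rw [mul_smul, h2, h1]
      one_mem' := by
        filter_upwards with r
        exact one_smul _ _
      inv_mem' := by
        intro g hg
        filter_upwards [hg] with r h1
        rw [inv_smul_eq_iff, h1] }
  have hS : S ≠ ⊤ := by
    intro h
    have hx : x ∈ S := by rw [h]; trivial
    obtain ⟨r, hr⟩ := (Filter.Eventually.exists hx : ∃ r, x • β r = β r)
    exact hβx r hr
  obtain ⟨m, hm⟩ := hKc S hS
  have h1 : ∀ᶠ r in (U : Filter ℕ), ∃ y ∈ E m, y • β r = β r := by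
    filter_upwards [hUle (Filter.eventually_ge_atTop m)] with r hr
    exact hβE r m hr
  rw [Ultrafilter.eventually_exists_mem_iff (hEf m)] at h1
  obtain ⟨y, hy, hyS⟩ := h1
  exact hEK m y hy (hm hyS)

end Pool.Agent.H73.BT
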