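import Pool.Agent.H80.BT.A

/-!
MODULE Dic (frame helper73): if all elements act with finite support on one system of finite blocks then they all have finite support.

PROOF. Suppose g0 moves infinitely many points of Ω. Let V be an ultrafilter on Ω containing {β | g0 • β ≠ β} and all cofinite sets
(`Ultrafilter.of (cofinite ⊓ 𝓟 S)`, ne_bot since S is infinite). S_V = {g | ∀ᶠ β in V, g • β = β} is a subgroup, g0 ∉ S_V. Choose t β with t β • ω = β. For every g the set of the β such
that g moves the coset (t β) K is finite (finitely many cosets y with g • y ≠ y by hfin, each contains finitely many points t • ω since K has finite orbits), so for V-almost all β the point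
(t β)⁻¹ • g • β lies in the finite set K • ω, so it is V-almost everywhere equal to one point φ g of K • ω. φ g = φ h implies g • β = h • β for V-almost all β, so g⁻¹ * h ∈ S_V.
So S_V = ⊤ (`Ctx.eq_top_of_finite`), contradiction.
-/

set_option autoImplicit false

open Set
open scoped Pointwise

namespace Pool.Agent.H73.BT

open Pool.Agent.H80.BT

variable {G : Type*} [Group G] {Ω : Type*} [MulAction G Ω] {p : ℕ}

theorem dich (c : Ctx G Ω p) (ω : Ω) (K : Subgroup G) (hK : K ≠ ⊤) (hH : MulAction.stabilizer G ω ≤ K)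
    (hfin : ∀ g : G, {y : G ⧸ K | g • y ≠ y}.Finite) (g : G) : {β : Ω | g • β ≠ β}.Finite := by
  classical
  by_contra hinf
  have hinf' : ({β : Ω | g • β ≠ β} : Set Ω).Infinite := hinf
  have _ := c.trans
  have _ := c.inf
  set S : Set Ω := {β : Ω | g • β ≠ β} with hS
  have hne : (Filter.cofinite ⊓ Filter.principal S).NeBot :=
    hinf'.cofinite_inf_principal_neBot
  let V : Ultrafilter Ω := Ultrafilter.of (Filter.cofinite ⊓ Filter.principal S)
  have hV : (V : Filter Ω) ≤ Filter.cofinite ⊓ Filter.principal S := Ultrafilter.of_le _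
  have hVc : (V : Filter Ω) ≤ Filter.cofinite := hV.trans inf_le_left
  have hVS : ∀ᶠ β in (V : Filter Ω), g • β ≠ β :=
    (hV.trans inf_le_right) (Filter.mem_principal_self S)
  let Z : Subgroup G :=
    { carrier := {h | ∀ᶠ β in (V : Filter Ω), h • β = β}
      one_mem' := Filter.Eventually.of_forall fun β => one_smul G β
      mul_mem' := by
        intro a b ha hb
        filter_upwards [ha, hb] with β h1 h2
        rw [mul_smul, h2, h1]
      inv_mem' := by
        intro a ha
        filter_upwards [ha] with β h1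
        rw [inv_smul_eq_iff, h1] }
  have hZ : ∀ h, h ∈ Z ↔ ∀ᶠ β in (V : Filter Ω), h • β = β := fun h => Iff.rfl
  choose t ht using fun β : Ω => MulAction.exists_smul_eq G ω β
  set F : Set Ω := (fun g : G => g • ω) '' (K : Set G) with hF
  have hFf : F.Finite := c.orb hK ω
  -- almost all points stay in their block
  have key : ∀ h : G, ∀ᶠ β in (V : Filter Ω), (t β)⁻¹ • h • β ∈ F := by
    intro h
    have h1 : {β : Ω | h • ((t β : G) : G ⧸ K) ≠ ((t β : G) : G ⧸ K)}.Finite := by
      have h2 : {β : Ω | h • ((t β : G) : G ⧸ K) ≠ ((t β : G) : G ⧸ K)} ⊆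
          ⋃ y ∈ {y : G ⧸ K | h • y ≠ y}, (fun q : Ω => y.out • q) '' F := by
        intro β hβ
        refine Set.mem_biUnion (x := ((t β : G) : G ⧸ K)) hβ ?_
        refine ⟨(((t β : G) : G ⧸ K).out)⁻¹ • β, ?_, ?_⟩
        · refine ⟨(((t β : G) : G ⧸ K).out)⁻¹ * t β, ?_, ?_⟩
          · have := QuotientGroup.eq.mp (QuotientGroup.out_eq' ((t β : G) : G ⧸ K))
            exact this
          · simp only [mul_smul, ht β]
        · simp only [smul_inv_smul]
      exact ((hfin h).biUnion fun y _ => hFf.image _).subset h2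
    have h3 : ∀ᶠ β in (V : Filter Ω), h • ((t β : G) : G ⧸ K) = ((t β : G) : G ⧸ K) := by
      apply hVc
      rw [Filter.mem_cofinite]
      exact h1
    filter_upwards [h3] with β h4
    have h5 : ((h * t β : G) : G ⧸ K) = ((t β : G) : G ⧸ K) := h4
    have h6 := QuotientGroup.eq.mp h5.symm
    refine ⟨(t β)⁻¹ * (h * t β), h6, ?_⟩
    simp only [mul_smul, ht β]
  have key2 : ∀ h : G, ∃ q ∈ F, ∀ᶠ β in (V : Filter Ω), (t β)⁻¹ • h • β = q := by
    intro h
    have h1 : (⋃ q ∈ F, {β : Ω | (t β)⁻¹ • h • β = q}) ∈ V := by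
      filter_upwards [key h] with β h2
      exact Set.mem_biUnion h2 rfl
    rw [Ultrafilter.finite_biUnion_mem_iff hFf] at h1
    exact h1
  choose φ hφ1 hφ2 using key2
  have htop : Z = ⊤ := by
    refine c.eq_top_of_finite Z φ ?_ (hFf.subset ?_)
    · intro a b hab
      rw [hZ]
      have h1 := hφ2 a
      rw [hab] at h1
      filter_upwards [h1, hφ2 b] with β h2 h3
      have h4 : (t β)⁻¹ • a • β = (t β)⁻¹ • b • β := h2.trans h3.symm
      have h5 : a • β = b • β := smul_left_cancel _ h4
      rw [mul_smul, ← h5, inv_smul_smul]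
    · rintro _ ⟨h, rfl⟩
      exact hφ1 h
  have hg : g ∈ Z := by rw [htop]; trivial
  have h1 := (hZ g).1 hg
  have h2 : ∀ᶠ β in (V : Filter Ω), False := by
    filter_upwards [h1, hVS] with β h3 h4
    exact h4 h3
  exact (V.neBot.ne) (Filter.eventually_false_iff_eq_bot.1 h2)

end Pool.Agent.H73.BT
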