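import Pool.Agent.H73.BT.Crt

/-!
MODULE Far (helper73).

`far_R`: independence of far points inside a proper normal subgroup R with R <= [R,G].
Levels: C 0 = stabilizer of ω. Given C put D = (R ⊔ C) • A, A = Δ ∪ {ω}. `level` (mixing lemma + crt)
gives C' such that the groups R | k.out • D, k in a set s of at most m+1 classes mod C which are
pairwise different mod C', are independent. For X = insert ω Q the number of classes is
nonincreasing with the level, so two consecutive levels have the same classes.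
-/

set_option autoImplicit false

open Set
open scoped Pointwise commutatorElement

namespace Pool.Agent.H73.BT

open Pool.Agent.H80.BT

variable {G : Type*} [Group G] {Ω : Type*} [MulAction G Ω] {p : ℕ}

/-- the finite set at level `C` -/
def DD (R C : Subgroup G) (A : Set Ω) : Set Ω :=
  ⋃ a ∈ A, ((fun g : G => g • a) '' ((R ⊔ C : Subgroup G) : Set G))

theorem DD_finite (c : Ctx G Ω p) {R C : Subgroup G} (hR : R ≠ ⊤) (hC : C ≠ ⊤) {A : Set Ω}
    (hA : A.Finite) : (DD R C A).Finite :=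
  hA.biUnion (fun a _ => c.orb (c.sup_ne_top hR hC) a)

theorem DD_smul {R C : Subgroup G} {A : Set Ω} {g : G} (hg : g ∈ R ⊔ C) {z : Ω}
    (hz : z ∈ DD R C A) : g • z ∈ DD R C A := by
  rw [DD, Set.mem_iUnion₂] at hz ⊢
  obtain ⟨a, ha, h, hh, rfl⟩ := hz
  exact ⟨a, ha, g * h, mul_mem hg hh, mul_smul _ _ _⟩

theorem DD_subset {R C : Subgroup G} {A : Set Ω} {z : Ω} (hz : z ∈ A) : z ∈ DD R C A := by
  rw [DD, Set.mem_iUnion₂]
  exact ⟨z, hz, 1, one_mem _, one_smul _ _⟩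

theorem level (c : Ctx G Ω p) (R : Subgroup G) (hRn : R.Normal) (hRt : R ≠ ⊤)
    (hRR : R ≤ ⁅R, (⊤ : Subgroup G)⁆) (A : Set Ω) (hA : A.Finite) (m : ℕ)
    (C : Subgroup G) (hC : C ≠ ⊤) :
    ∃ C' : Subgroup G, C' ≠ ⊤ ∧ C ≤ C' ∧ ∀ s : Finset (G ⧸ C), s.card ≤ m + 1 →
      (∀ k ∈ s, ∀ k' ∈ s, k ≠ k' → (k.out)⁻¹ * k'.out ∉ C') →
      ∀ y : G ⧸ C → G, (∀ k ∈ s, y k ∈ R) →
        ∃ x ∈ R, ∀ k ∈ s, ∀ z ∈ DD R C A, x • (k.out • z) = y k • (k.out • z) := by
  classical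
  have hDf := DD_finite c hRt hC hA
  set U : Set (VS Ω R p) :=
    {w : VS Ω R p | ∀ x ∈ R, (∀ z ∈ DD R C A, x • z = z) → w.1 x = 0} with hU
  have hUf : U.Finite := c.finite_vanish c.prime hRt hDf
  obtain ⟨C1, hC1, hmix⟩ := c.mix (V := VS Ω R p) (fun W hW v => c.orbit_fin c.prime hRt W hW v)
    (fun v hv => VS.fixed hRR v hv) (ι := G ⧸ C) (m + 1) U hUf
  refine ⟨C ⊔ C1, c.sup_ne_top hC hC1, le_sup_left, ?_⟩
  intro s hs hsep y hy
  have hconj : ∀ (g : G) (x : G), x ∈ R → g * x * g⁻¹ ∈ R := fun g x hx => hRn.conj_mem x hx g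
  obtain ⟨x, hxR, hx⟩ := crt c.prime c.pgrp R s (fun k => (fun z => k.out • z) '' DD R C A)
    (fun k _ => hDf.image _) (by
      rintro k _ r hr _ ⟨z, hz, rfl⟩
      refine ⟨((k.out)⁻¹ * r * k.out) • z, ?_, ?_⟩
      · apply DD_smul _ hz
        apply Subgroup.mem_sup_left
        have := hconj (k.out)⁻¹ r hr
        rwa [inv_inv] at this
      · simp only [← mul_smul]
        congr 1
        group) (by
      intro u hu hsum
      have h1 := hmix s (fun k => k.out) (fun k => (k.out)⁻¹ • u k) hs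
        (fun k hk k' hk' hkk h => hsep k hk k' hk' hkk (Subgroup.mem_sup_right h)) (by
          intro k hk x hx hfix
          rw [VS.smul_apply, inv_inv]
          apply hu k hk
          · exact hconj _ _ hx
          · rintro _ ⟨z, hz, rfl⟩
            simp only [mul_smul, inv_smul_smul]
            rw [hfix z hz]) (by
          rw [← hsum]
          apply Finset.sum_congr rfl
          intro k _
          rw [smul_inv_smul])
      intro k hk
      have h2 := h1 k hk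
      have h3 : k.out • ((k.out)⁻¹ • u k) = k.out • (0 : VS Ω R p) := by rw [h2]
      rwa [smul_inv_smul, smul_zero] at h3) y hy
  exact ⟨x, hxR, fun k hk z hz => hx k hk _ ⟨z, hz, rfl⟩⟩

/-- the chain of levels -/
theorem levels (c : Ctx G Ω p) (ω : Ω) (R : Subgroup G) (hRn : R.Normal) (hRt : R ≠ ⊤)
    (hRR : R ≤ ⁅R, (⊤ : Subgroup G)⁆) (A : Set Ω) (hA : A.Finite) (m : ℕ) :
    ∃ Cs : ℕ → Subgroup G, MulAction.stabilizer G ω ≤ Cs 0 ∧ (∀ i, Cs i ≠ ⊤) ∧
      (∀ i, Cs i ≤ Cs (i + 1)) ∧ ∀ i, ∀ s : Finset (G ⧸ Cs i), s.card ≤ m + 1 →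
      (∀ k ∈ s, ∀ k' ∈ s, k ≠ k' → (k.out)⁻¹ * k'.out ∉ Cs (i + 1)) →
      ∀ y : G ⧸ Cs i → G, (∀ k ∈ s, y k ∈ R) →
        ∃ x ∈ R, ∀ k ∈ s, ∀ z ∈ DD R (Cs i) A, x • (k.out • z) = y k • (k.out • z) := by
  have h := fun C : {C : Subgroup G // C ≠ ⊤} => level c R hRn hRt hRR A hA m C.1 C.2
  choose nx h1 h2 h3 using h
  let f : ℕ → {C : Subgroup G // C ≠ ⊤} := fun n =>
    Nat.rec ⟨MulAction.stabilizer G ω, c.stab_ne_top ω⟩ (fun _ C => ⟨nx C, h1 C⟩) n
  refine ⟨fun i => (f i).1, le_rfl, fun i => (f i).2, fun i => h2 (f i), fun i => h3 (f i)⟩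

theorem far_R (c : Ctx G Ω p) (ω : Ω) (R : Subgroup G) (hRn : R.Normal) (hRt : R ≠ ⊤)
    (hRR : R ≤ ⁅R, (⊤ : Subgroup G)⁆) (Δ : Set Ω) (hΔ : Δ.Finite) (m : ℕ) :
    ∃ C : Subgroup G, C ≠ ⊤ ∧ MulAction.stabilizer G ω ≤ C ∧
      ∀ Q : Finset Ω, Q.card ≤ m → (∀ t : G, t • ω ∈ Q → t ∉ C) →
        ∀ r ∈ R, ∃ x ∈ R, (∀ z ∈ Δ, x • z = r • z) ∧ ∀ q ∈ Q, x • q = q := by
  classical
  obtain ⟨Cs, h0, htop, hmono, hlev⟩ := levels c ω R hRn hRt hRR (insert ω Δ) (hΔ.insert ω) m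
  have hmono' : Monotone Cs := monotone_nat_of_le_succ hmono
  refine ⟨Cs (m + 1), htop _, h0.trans (hmono' (Nat.zero_le _)), ?_⟩
  intro Q hQ hfar r hr
  have htr := c.trans
  have hex : ∀ z : Ω, ∃ t : G, t • ω = z := fun z => MulAction.exists_smul_eq G ω z
  choose t ht using hex
  set X : Finset Ω := insert ω Q with hX
  have hXc : X.card ≤ m + 1 := (Finset.card_insert_le _ _).trans (by omega)
  let S : (i : ℕ) → Finset (G ⧸ Cs i) := fun i => X.image (fun z => ((t z : G) : G ⧸ Cs i))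
  have hSc : ∀ i, (S i).card ≤ m + 1 := fun i => Finset.card_image_le.trans hXc
  have hS1 : ∀ i, 0 < (S i).card := by
    intro i
    rw [Finset.card_pos]
    exact ⟨_, Finset.mem_image.mpr ⟨ω, Finset.mem_insert_self _ _, rfl⟩⟩
  let φ : (i : ℕ) → G ⧸ Cs i → G ⧸ Cs (i + 1) := fun i k => ((k.out : G) : G ⧸ Cs (i + 1))
  have hφ : ∀ i (g : G), φ i ((g : G) : G ⧸ Cs i) = ((g : G) : G ⧸ Cs (i + 1)) := by
    intro i g
    apply QuotientGroup.eq.mpr
    apply hmono i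
    apply QuotientGroup.eq.mp
    exact QuotientGroup.out_eq' _
  have hSφ : ∀ i, S (i + 1) = (S i).image (φ i) := by
    intro i
    simp only [S, Finset.image_image]
    apply Finset.image_congr
    intro z _
    exact (hφ i (t z)).symm
  have hstep : ∃ i ≤ m, (S i).card ≤ (S (i + 1)).card := by
    by_contra hcon
    push Not at hcon
    have key : ∀ j ≤ m + 1, (S j).card + j ≤ m + 1 := by
      intro j
      induction j with
      | zero => intro _; simpa using hSc 0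
      | succ j ih =>
        intro hj
        have h1 := hcon j (by omega)
        have h2 := ih (by omega)
        omega
    have h1 := key (m + 1) le_rfl
    have h2 := hS1 (m + 1)
    omega
  obtain ⟨i, him, hi⟩ := hstep
  have hinj : Set.InjOn (φ i) (S i : Set (G ⧸ Cs i)) := by
    apply Finset.injOn_of_card_image_eq
    apply le_antisymm Finset.card_image_le
    rw [← hSφ]
    exact hi
  set k0 : G ⧸ Cs i := ((1 : G) : G ⧸ Cs i) with hk0
  obtain ⟨x, hxR, hx⟩ := hlev i (S i) (hSc i) (by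
    intro k hk k' hk' hkk hmem
    apply hkk
    apply hinj (Finset.mem_coe.mpr hk) (Finset.mem_coe.mpr hk')
    exact QuotientGroup.eq.mpr hmem) (fun k => if k = k0 then r else 1) (by
    intro k _
    split_ifs
    · exact hr
    · exact one_mem _)
  refine ⟨x, hxR, ?_, ?_⟩
  · intro z hz
    have hk0S : k0 ∈ S i := by
      apply Finset.mem_image.mpr
      refine ⟨ω, Finset.mem_insert_self _ _, ?_⟩
      rw [hk0]
      apply QuotientGroup.eq.mpr
      apply hmono' (Nat.zero_le i)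
      apply h0
      rw [MulAction.mem_stabilizer_iff, mul_one, inv_smul_eq_iff, ht]
    have hout : k0.out ∈ Cs i := by
      have h1 : ((k0.out : G) : G ⧸ Cs i) = ((1 : G) : G ⧸ Cs i) := QuotientGroup.out_eq' k0
      have h2 := QuotientGroup.eq.mp h1
      rw [mul_one] at h2
      exact inv_mem_iff.mp h2
    have h1 := hx k0 hk0S ((k0.out)⁻¹ • z)
      (DD_smul (Subgroup.mem_sup_right (inv_mem hout)) (DD_subset (Set.mem_insert_of_mem _ hz)))
    rw [smul_inv_smul, if_pos rfl] at h1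
    exact h1
  · intro q hq
    set k : G ⧸ Cs i := ((t q : G) : G ⧸ Cs i) with hk
    have hkS : k ∈ S i := Finset.mem_image.mpr ⟨q, Finset.mem_insert_of_mem hq, rfl⟩
    have hkk : k ≠ k0 := by
      intro h
      have h2 := QuotientGroup.eq.mp h
      rw [mul_one] at h2
      apply hfar (t q) (by rw [ht]; exact hq)
      exact hmono' (by omega : i ≤ m + 1) (inv_mem_iff.mp h2)
    have hc : (k.out)⁻¹ * t q ∈ Cs i := QuotientGroup.eq.mp (QuotientGroup.out_eq' k)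
    have h1 := hx k hkS (((k.out)⁻¹ * t q) • ω)
      (DD_smul (Subgroup.mem_sup_right hc) (DD_subset (Set.mem_insert _ _)))
    have h2 : k.out • (((k.out)⁻¹ * t q) • ω) = q := by
      rw [← mul_smul, mul_inv_cancel_left, ht]
    rw [h2, if_neg hkk, one_smul] at h1
    exact h1

theorem exh (c : Ctx G Ω p) (x : G) :
    ∃ R : Subgroup G, R.Normal ∧ R ≠ ⊤ ∧ R ≤ ⁅R, (⊤ : Subgroup G)⁆ ∧ x ∈ R := by
  set 𝓡 : Set (Subgroup G) := {R | R.Normal ∧ R ≠ ⊤ ∧ R ≤ ⁅R, (⊤ : Subgroup G)⁆} with h𝓡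
  have hne : 𝓡.Nonempty := by
    obtain ⟨R, h1, h2, h3, -⟩ := c.step2 c.bot_ne_top
    exact ⟨R, h1, h2, h3⟩
  have hdir : DirectedOn (· ≤ ·) 𝓡 := by
    rintro R ⟨hR1, hR2, hR3⟩ S ⟨hS1, hS2, hS3⟩
    refine ⟨R ⊔ S, ⟨inferInstance, c.sup_ne_top hR2 hS2, ?_⟩, le_sup_left, le_sup_right⟩
    exact sup_le (hR3.trans (Subgroup.commutator_mono le_sup_left le_rfl))
      (hS3.trans (Subgroup.commutator_mono le_sup_right le_rfl))
  have htop : sSup 𝓡 = ⊤ := by
    by_contra h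
    obtain ⟨R, h1, h2, h3, h4⟩ := c.step2 h
    exact h4 (le_sSup ⟨h1, h2, h3⟩)
  have hx : x ∈ sSup 𝓡 := by rw [htop]; trivial
  obtain ⟨R, hR, hxR⟩ := (Subgroup.mem_sSup_of_directedOn hne hdir).mp hx
  exact ⟨R, hR.1, hR.2.1, hR.2.2, hxR⟩

theorem far (c : Ctx G Ω p) (ω : Ω) (g : G) (Δ : Set Ω) (hΔ : Δ.Finite) (m : ℕ) :
    ∃ C : Subgroup G, C ≠ ⊤ ∧ MulAction.stabilizer G ω ≤ C ∧
      ∀ Q : Finset Ω, Q.card ≤ m → (∀ t : G, t • ω ∈ Q → t ∉ C) →
        ∃ x : G, (∀ z ∈ Δ, x • z = g • z) ∧ ∀ q ∈ Q, x • q = q := by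
  obtain ⟨R, hRn, hRt, hRR, hg⟩ := exh c g
  obtain ⟨C, hC, hs, h⟩ := far_R c ω R hRn hRt hRR Δ hΔ m
  refine ⟨C, hC, hs, fun Q hQ ht => ?_⟩
  obtain ⟨x, -, hx1, hx2⟩ := h Q hQ ht g hg
  exact ⟨x, hx1, hx2⟩

end Pool.Agent.H73.BT
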