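import Pool.Agent.H73.BT.Far

/-!
MODULE Il2 (skeleton helper73): classes of points and the moving lemma.

`cls c ω K z` is the class in G ⧸ K of an element carrying ω to z.
`il2` PROOF: G ⧸ K is infinite (`Ctx.eq_top_of_finite` or directly: K • ω finite, Ω infinite).
Choose r 0, ..., r b ∈ G with pairwise different classes in G ⧸ K. `far` with g = r j, Δ = {ω}, the
given m: C j. C = K ⊔ ⨆ j, C j (proper: `Ctx.sup_ne_top`, `Ctx.biSup_ne_top`). Given q, Q, F: let t
be such that t • ω = q. Q' = t⁻¹ • Q; for j the element x j with x j • ω = r j • ω, x j = 1 on Q' (Q' is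
far: if t' • ω ∈ Q' then t * t' carries ω into Q, and t' ∈ C would give cls C (t t' ω) = cls C q).
y j = t * x j * t⁻¹ fixes Q pointwise and y j • cls K q = t * x j * K = t * r j * K: these are b + 1
different elements of G ⧸ K, so one is not in F.
-/

set_option autoImplicit false

open Set
open scoped Pointwise commutatorElement

namespace Pool.Agent.H73.BT

open Pool.Agent.H80.BT

variable {G : Type*} [Group G] {Ω : Type*} [MulAction G Ω] {p : ℕ}

/-- an element of `G` carrying `ω` to `z` -/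
noncomputable def rep (c : Ctx G Ω p) (ω z : Ω) : G :=
  Classical.choose (c.trans.exists_smul_eq ω z)

theorem rep_smul (c : Ctx G Ω p) (ω z : Ω) : rep c ω z • ω = z :=
  Classical.choose_spec (c.trans.exists_smul_eq ω z)

/-- the class of the point `z` in `G ⧸ K` -/
noncomputable def cls (c : Ctx G Ω p) (ω : Ω) (K : Subgroup G) (z : Ω) : G ⧸ K :=
  ((rep c ω z : G) : G ⧸ K)

theorem cls_eq (c : Ctx G Ω p) (ω : Ω) (K : Subgroup G) (hH : MulAction.stabilizer G ω ≤ K)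
    (t : G) (z : Ω) (ht : t • ω = z) : cls c ω K z = (t : G ⧸ K) := by
  apply QuotientGroup.eq.mpr
  apply hH
  rw [MulAction.mem_stabilizer_iff, mul_smul, ht, inv_smul_eq_iff, rep_smul]

theorem cls_smul (c : Ctx G Ω p) (ω : Ω) (K : Subgroup G) (hH : MulAction.stabilizer G ω ≤ K)
    (g : G) (z : Ω) : cls c ω K (g • z) = g • cls c ω K z := by
  rw [cls_eq c ω K hH (g * rep c ω z) (g • z) (by rw [mul_smul, rep_smul])]
  rfl

theorem cls_mono (c : Ctx G Ω p) (ω : Ω) {K C : Subgroup G} (hKC : K ≤ C) {z z' : Ω}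
    (h : cls c ω K z = cls c ω K z') : cls c ω C z = cls c ω C z' :=
  QuotientGroup.eq.mpr (hKC (QuotientGroup.eq.mp h))

theorem il2 (c : Ctx G Ω p) (ω : Ω) (K : Subgroup G) (hK : K ≠ ⊤)
    (hH : MulAction.stabilizer G ω ≤ K) (m b : ℕ) :
    ∃ C : Subgroup G, C ≠ ⊤ ∧ K ≤ C ∧
      ∀ (q : Ω) (Q : Finset Ω), Q.card ≤ m → (∀ z ∈ Q, cls c ω C z ≠ cls c ω C q) →
        ∀ F : Finset (G ⧸ K), F.card ≤ b →
          ∃ y : G, (∀ z ∈ Q, y • z = z) ∧ y • cls c ω K q ∉ F := by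
  classical
  have hinf : Infinite (G ⧸ K) := by
    by_contra hfin
    rw [not_infinite_iff_finite] at hfin
    apply hK
    exact c.eq_top_of_finite K (fun g : G => (g : G ⧸ K))
      (fun g h hgh => QuotientGroup.eq.mp hgh) (Set.toFinite _)
  obtain ⟨s, hs⟩ := Infinite.exists_subset_card_eq (G ⧸ K) (b + 1)
  have hfar : ∀ k : G ⧸ K, ∃ C : Subgroup G, C ≠ ⊤ ∧ MulAction.stabilizer G ω ≤ C ∧
      ∀ Q : Finset Ω, Q.card ≤ m → (∀ t : G, t • ω ∈ Q → t ∉ C) →
        ∃ x : G, (∀ z ∈ ({ω} : Set Ω), x • z = k.out • z) ∧ ∀ q ∈ Q, x • q = q :=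
    fun k => far c ω k.out {ω} (Set.finite_singleton ω) m
  choose C hC1 hC2 hC3 using hfar
  refine ⟨K ⊔ ⨆ k ∈ (s : Set (G ⧸ K)), C k,
    c.sup_ne_top hK (c.biSup_ne_top _ s.finite_toSet C (fun k _ => hC1 k)), le_sup_left, ?_⟩
  intro q Q hQ hfarQ F hF
  set t : G := rep c ω q with ht
  have htq : t • ω = q := rep_smul c ω q
  let Q' : Finset Ω := Q.image (fun z => t⁻¹ • z)
  have hQ' : Q'.card ≤ m := Finset.card_image_le.trans hQ
  have hout : ∀ t' : G, t' • ω ∈ Q' → t' ∉ K ⊔ ⨆ k ∈ (s : Set (G ⧸ K)), C k := by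
    intro t' ht' hmem
    obtain ⟨z, hz, hz2⟩ := Finset.mem_image.mp ht'
    have hz3 : (t * t') • ω = z := by rw [mul_smul, ← hz2, smul_inv_smul]
    apply hfarQ z hz
    have hst : MulAction.stabilizer G ω ≤ K ⊔ ⨆ k ∈ (s : Set (G ⧸ K)), C k :=
      hH.trans le_sup_left
    rw [cls_eq c ω _ hst (t * t') z hz3, cls_eq c ω _ hst t q htq]
    apply QuotientGroup.eq.mpr
    have h3 : (t * t')⁻¹ * t = t'⁻¹ := by group
    rw [h3]
    exact inv_mem hmem
  have hx : ∀ k ∈ s, ∃ x : G, x • ω = k.out • ω ∧ ∀ q ∈ Q', x • q = q := by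
    intro k hk
    obtain ⟨x, hx1, hx2⟩ := hC3 k Q' hQ' (fun t' ht' h => hout t' ht'
      (Subgroup.mem_sup_right
        ((le_iSup₂ (f := fun (k : G ⧸ K) (_ : k ∈ (s : Set (G ⧸ K))) => C k) k hk) h)))
    exact ⟨x, hx1 ω rfl, hx2⟩
  have hx' : ∀ k : G ⧸ K, ∃ x : G, k ∈ s → (x • ω = k.out • ω ∧ ∀ q ∈ Q', x • q = q) := by
    intro k
    by_cases hk : k ∈ s
    · obtain ⟨x, h⟩ := hx k hk
      exact ⟨x, fun _ => h⟩
    · exact ⟨1, fun h => (hk h).elim⟩
  choose x hx using hx'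
  have hval : ∀ k ∈ s, (t * x k * t⁻¹) • cls c ω K q = t • k := by
    intro k hk
    rw [cls_eq c ω K hH t q htq]
    have h1 : (t * x k * t⁻¹) • ((t : G) : G ⧸ K) = ((t * x k : G) : G ⧸ K) := by
      change (((t * x k * t⁻¹) * t : G) : G ⧸ K) = _
      rw [inv_mul_cancel_right]
    have h2 : t • k = ((t * k.out : G) : G ⧸ K) := by
      conv_lhs => rw [← QuotientGroup.out_eq' k]
      rfl
    rw [h1, h2]
    apply QuotientGroup.eq.mpr
    apply hH
    rw [MulAction.mem_stabilizer_iff]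
    have h4 : (t * x k)⁻¹ * (t * k.out) = (x k)⁻¹ * k.out := by group
    rw [h4, mul_smul, inv_smul_eq_iff]
    exact ((hx k hk).1).symm
  have hcard : F.card < (s.image (fun k => t • k)).card := by
    rw [Finset.card_image_of_injective _ (MulAction.injective t), hs]
    omega
  obtain ⟨v, hv, hvF⟩ := Finset.exists_mem_notMem_of_card_lt_card hcard
  obtain ⟨k, hk, rfl⟩ := Finset.mem_image.mp hv
  refine ⟨t * x k * t⁻¹, ?_, ?_⟩
  · intro z hz
    have h5 := (hx k hk).2 (t⁻¹ • z) (Finset.mem_image_of_mem _ hz)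
    rw [mul_smul, mul_smul, h5, smul_inv_smul]
  · rw [hval k hk]
    exact hvF

end Pool.Agent.H73.BT
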