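import Pool.Agent.H73.BT.Den

/-!
Every invariant finitely additive probability measure vanishes on the supports of the elements.
-/

set_option autoImplicit false

open Set
open scoped Pointwise

namespace Pool.Agent.H73.BT

open Pool.Agent.H80.BT

theorem mean_le {Ω ι : Type*} (μ : Set Ω → ℝ) (h0 : ∀ s, 0 ≤ μ s)
    (hadd : ∀ s t, Disjoint s t → μ (s ∪ t) = μ s + μ t) (s : ι → Set Ω) (I : Finset ι) :
    ∀ (k : ℕ) (T : Set Ω), (∀ β ∈ T, {c ∈ (I : Set ι) | β ∈ s c}.ncard ≤ k) →
      ∑ c ∈ I, μ (s c ∩ T) ≤ k * μ T := by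
  classical
  induction I using Finset.induction_on with
  | empty =>
    intro k T _
    simp only [Finset.sum_empty]
    exact mul_nonneg (Nat.cast_nonneg _) (h0 _)
  | @insert a I ha ih =>
    intro k T hk
    have hfin : ∀ (J : Finset ι) (β : Ω), {c ∈ (J : Set ι) | β ∈ s c}.Finite := fun J β =>
      J.finite_toSet.subset fun c hc => hc.1
    rw [Finset.sum_insert ha]
    have h1 : ∀ c, μ (s c ∩ T) = μ (s c ∩ (T ∩ s a)) + μ (s c ∩ (T \ s a)) := by
      intro c
      rw [← hadd]
      · congr 1
        ext β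
        simp only [mem_inter_iff, mem_union, mem_sdiff]
        tauto
      · rw [Set.disjoint_left]
        rintro β ⟨-, -, h⟩ ⟨-, -, h'⟩
        exact h' h
    have hT : μ T = μ (T ∩ s a) + μ (T \ s a) := by
      rw [← hadd, Set.inter_union_sdiff]
      rw [Set.disjoint_left]
      rintro β ⟨-, h⟩ ⟨-, h'⟩
      exact h' h
    have h2 : ∑ c ∈ I, μ (s c ∩ (T \ s a)) ≤ k * μ (T \ s a) := by
      apply ih
      intro β hβ
      refine le_trans (Set.ncard_le_ncard ?_ (hfin _ β)) (hk β hβ.1)
      rintro c ⟨hc, hβc⟩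
      exact ⟨by simp [Finset.mem_coe.1 hc], hβc⟩
    have h3 : ∑ c ∈ I, μ (s c ∩ (T ∩ s a)) + μ (s a ∩ T) ≤ k * μ (T ∩ s a) := by
      rcases Set.eq_empty_or_nonempty (T ∩ s a) with he | ⟨β0, hβ0⟩
      · have hz : μ (∅ : Set Ω) = 0 := by
          have := hadd ∅ ∅ (Set.disjoint_empty _)
          rw [Set.union_empty] at this
          linarith
        rw [he]
        rw [Set.inter_comm (s a) T, he]
        simp [hz]
      · have hk1 : 1 ≤ k := by
          refine le_trans ?_ (hk β0 hβ0.1)
          rw [Nat.one_le_iff_ne_zero, ← Nat.pos_iff_ne_zero, Set.ncard_pos (hfin _ β0)]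
          exact ⟨a, by simp, hβ0.2⟩
        obtain ⟨k', rfl⟩ : ∃ k', k = k' + 1 := ⟨k - 1, by omega⟩
        have h4 : ∑ c ∈ I, μ (s c ∩ (T ∩ s a)) ≤ k' * μ (T ∩ s a) := by
          apply ih
          intro β hβ
          have h5 := hk β hβ.1
          have h6 : {c ∈ ((insert a I : Finset ι) : Set ι) | β ∈ s c} =
              insert a {c ∈ (I : Set ι) | β ∈ s c} := by
            ext c
            simp only [Finset.coe_insert, mem_insert_iff, Finset.mem_coe, mem_ofPred_eq]
            constructor
            · rintro ⟨rfl | h, h'⟩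
              · exact Or.inl rfl
              · exact Or.inr ⟨h, h'⟩
            · rintro (rfl | ⟨h, h'⟩)
              · exact ⟨Or.inl rfl, hβ.2⟩
              · exact ⟨Or.inr h, h'⟩
          rw [h6, Set.ncard_insert_of_notMem _ (hfin _ β)] at h5
          · omega
          · rintro ⟨h, -⟩
            exact ha h
        rw [Set.inter_comm (s a) T]
        push_cast
        linarith
    have h7 : ∑ c ∈ I, μ (s c ∩ T) =
        ∑ c ∈ I, μ (s c ∩ (T ∩ s a)) + ∑ c ∈ I, μ (s c ∩ (T \ s a)) := by
      rw [← Finset.sum_add_distrib]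
      exact Finset.sum_congr rfl fun c _ => h1 c
    rw [h7, hT]
    linarith

variable {G : Type*} [Group G] {Ω : Type*} [MulAction G Ω] {p : ℕ}

theorem mean_zero (c : Ctx G Ω p) (x : G) (μ : Set Ω → ℝ) (h0 : ∀ s, 0 ≤ μ s)
    (h1 : μ Set.univ = 1) (hadd : ∀ s t, Disjoint s t → μ (s ∪ t) = μ s + μ t)
    (hinv : ∀ (g : G) (s : Set Ω), μ ((fun β => g • β) '' s) = μ s) :
    μ {β : Ω | x • β ≠ β} = 0 := by
  classical
  have key : ∀ N : ℕ, (N : ℝ) * μ {β : Ω | x • β ≠ β} ≤ 1 := by
    intro N
    rcases Nat.eq_zero_or_pos N with hN | hN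
    · rw [hN]; simp
    obtain ⟨Γ, hΓ, hO⟩ := dens c x N
    have hCf := c.lf Γ hΓ
    set C : Subgroup G := Subgroup.closure Γ with hC
    set I : Finset G := hCf.toFinset with hI
    have hIC : ∀ g, g ∈ I ↔ g ∈ C := by
      intro g
      rw [hI, Set.Finite.mem_toFinset]
      rfl
    have hIpos : 0 < I.card := Finset.card_pos.2 ⟨1, (hIC 1).2 C.one_mem⟩
    set s : G → Set Ω := fun g => {β | x • g • β ≠ g • β} with hs
    have hsμ : ∀ g, μ (s g) = μ {β : Ω | x • β ≠ β} := by
      intro g
      rw [← hinv g (s g)]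
      congr 1
      ext β
      simp only [hs, mem_image, mem_ofPred_eq]
      constructor
      · rintro ⟨γ, h, rfl⟩
        exact h
      · intro h
        exact ⟨g⁻¹ • β, by simpa using h, by simp⟩
    have hcount : ∀ β : Ω, {g ∈ (I : Set G) | β ∈ s g}.ncard ≤ I.card / N := by
      intro β
      rw [Nat.le_div_iff_mul_le hN]
      set O : Finset Ω := I.image (fun g => g • β) with hOdef
      have hOinv : ∀ γ ∈ Γ, ∀ δ ∈ (O : Set Ω), γ • δ ∈ (O : Set Ω) := by
        intro γ hγ δ hδ
        rw [Finset.mem_coe, hOdef, Finset.mem_image] at hδ ⊢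
        obtain ⟨g, hg, rfl⟩ := hδ
        exact ⟨γ * g, (hIC _).2 (C.mul_mem (Subgroup.subset_closure hγ) ((hIC g).1 hg)),
          mul_smul _ _ _⟩
      have h2 := hO (O : Set Ω) O.finite_toSet hOinv
      have h2' : N * (O.filter (fun δ => x • δ ≠ δ)).card ≤ O.card := by
        rw [Set.ncard_coe_finset] at h2
        have h3 : {δ ∈ (O : Set Ω) | x • δ ≠ δ} = ((O.filter (fun δ => x • δ ≠ δ) : Finset Ω) : Set Ω) := by
          ext δ
          simp
        rw [h3, Set.ncard_coe_finset] at h2
        exact h2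
      -- all fibres of `g ↦ g • β` on `I` have the same size
      set m : ℕ := (I.filter (fun g => g • β = β)).card with hm
      have hfib : ∀ δ ∈ O, (I.filter (fun g => g • β = δ)).card = m := by
        intro δ hδ
        rw [hOdef, Finset.mem_image] at hδ
        obtain ⟨g0, hg0, rfl⟩ := hδ
        apply Finset.card_bij' (fun g _ => g0⁻¹ * g) (fun g _ => g0 * g)
        · intro g hg
          rw [Finset.mem_filter] at hg ⊢
          refine ⟨(hIC _).2 (C.mul_mem (C.inv_mem ((hIC _).1 hg0)) ((hIC _).1 hg.1)), ?_⟩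
          rw [mul_smul, hg.2, inv_smul_smul]
        · intro g hg
          rw [Finset.mem_filter] at hg ⊢
          refine ⟨(hIC _).2 (C.mul_mem ((hIC _).1 hg0) ((hIC _).1 hg.1)), ?_⟩
          rw [mul_smul, hg.2]
        · intro g _
          group
        · intro g _
          group
      have h4 : I.card = O.card * m := by
        rw [Finset.card_eq_sum_card_fiberwise (s := I) (t := O) (f := fun g => g • β)
          (fun g hg => Finset.mem_coe.2 (Finset.mem_image_of_mem _ hg))]
        rw [Finset.sum_congr rfl hfib]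
        simp
      have h5 : {g ∈ (I : Set G) | β ∈ s g}.ncard = (O.filter (fun δ => x • δ ≠ δ)).card * m := by
        have h6 : {g ∈ (I : Set G) | β ∈ s g} =
            ((I.filter (fun g => x • g • β ≠ g • β) : Finset G) : Set G) := by
          ext g
          simp [hs]
        rw [h6, Set.ncard_coe_finset]
        rw [Finset.card_eq_sum_card_fiberwise (s := I.filter (fun g => x • g • β ≠ g • β))
          (t := O.filter (fun δ => x • δ ≠ δ)) (f := fun g => g • β)]
        · rw [Finset.sum_congr rfl (g := fun _ => m)]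
          · simp
          · intro δ hδ
            rw [Finset.mem_filter] at hδ
            rw [← hfib δ hδ.1]
            congr 1
            ext g
            simp only [Finset.mem_filter]
            constructor
            · rintro ⟨⟨h7, -⟩, h8⟩
              exact ⟨h7, h8⟩
            · rintro ⟨h7, h8⟩
              exact ⟨⟨h7, by rw [h8]; exact hδ.2⟩, h8⟩
        · intro g hg
          rw [Finset.mem_coe, Finset.mem_filter] at hg
          rw [Finset.mem_coe, Finset.mem_filter]
          exact ⟨Finset.mem_image_of_mem _ hg.1, hg.2⟩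
      rw [h5, h4]
      calc (O.filter (fun δ => x • δ ≠ δ)).card * m * N
          = N * (O.filter (fun δ => x • δ ≠ δ)).card * m := by ring
        _ ≤ O.card * m := Nat.mul_le_mul_right _ h2'
    have h8 := mean_le μ h0 hadd s I (I.card / N) Set.univ (fun β _ => hcount β)
    simp only [Set.inter_univ, hsμ, Finset.sum_const, nsmul_eq_mul, h1, mul_one] at h8
    have h9 : ((I.card / N : ℕ) : ℝ) ≤ (I.card : ℝ) / N := Nat.cast_div_le
    have hIr : (0 : ℝ) < I.card := by exact_mod_cast hIpos
    have hNr : (0 : ℝ) < N := by exact_mod_cast hN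
    have h10 : (I.card : ℝ) * μ {β : Ω | x • β ≠ β} ≤ (I.card : ℝ) / N := h8.trans h9
    rw [le_div_iff₀ hNr] at h10
    have h11 : (I.card : ℝ) * (N * μ {β : Ω | x • β ≠ β}) ≤ (I.card : ℝ) * 1 := by linarith
    exact le_of_mul_le_mul_left h11 hIr
  by_contra hne
  have hpos : 0 < μ {β : Ω | x • β ≠ β} := lt_of_le_of_ne (h0 _) (Ne.symm hne)
  obtain ⟨N, hN⟩ := exists_nat_gt (1 / μ {β : Ω | x • β ≠ β})
  rw [div_lt_iff₀ hpos] at hN
  linarith [key N]

end Pool.Agent.H73.BT
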