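import Pool.Agent.H80.BT.D
import Mathlib.Topology.Instances.Discrete
import Mathlib.Topology.Constructions

/-!
MODULE Pts (helper73): complete. The closure of the stabiliser functions.
-/

set_option autoImplicit false

open Set
open scoped Pointwise

namespace Pool.Agent.H73.BT

open Pool.Agent.H80.BT

variable {G : Type*} [Group G] {Ω : Type*} [MulAction G Ω] {p : ℕ}

open Classical in
/-- the function of the element `g`: it tells whether `x` fixes `g • β` -/
noncomputable def fx (g : G) : G × Ω → Bool := fun q => decide (q.1 • g • q.2 = g • q.2)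

theorem fx_eq {g : G} {q : G × Ω} : fx g q = true ↔ q.1 • g • q.2 = g • q.2 := by
  simp [fx]

/-- the closure of the set of these functions -/
def XX (G : Type*) [Group G] (Ω : Type*) [MulAction G Ω] : Set (G × Ω → Bool) :=
  closure (Set.range (fx (G := G) (Ω := Ω)))

/-- the right action of `G` -/
def rr (h : G) (T : G × Ω → Bool) : G × Ω → Bool := fun q => T (q.1, h • q.2)

/-- the left action of `G` -/
def ll (k : G) (T : G × Ω → Bool) : G × Ω → Bool := fun q => T (k⁻¹ * q.1 * k, q.2)

theorem rr_one (T : G × Ω → Bool) : rr 1 T = T := by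
  funext q
  simp [rr]

theorem rr_rr (g h : G) (T : G × Ω → Bool) : rr h (rr g T) = rr (g * h) T := by
  funext q
  simp [rr, mul_smul]

theorem rr_cont (h : G) : Continuous (rr (Ω := Ω) h) :=
  continuous_pi fun q => continuous_apply (q.1, h • q.2)

theorem fx_mul (g h : G) (x : G) (β : Ω) : fx (g * h) (x, β) = fx g (x, h • β) := by
  rw [Bool.eq_iff_iff, fx_eq, fx_eq]
  show x • (g * h) • β = (g * h) • β ↔ x • g • h • β = g • h • β
  rw [mul_smul]

theorem fx_conj (g k : G) (x : G) (β : Ω) : fx (k * g) (x, β) = fx g (k⁻¹ * x * k, β) := by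
  rw [Bool.eq_iff_iff, fx_eq, fx_eq]
  show x • (k * g) • β = (k * g) • β ↔ (k⁻¹ * x * k) • g • β = g • β
  rw [mul_smul k g, mul_smul, mul_smul, inv_smul_eq_iff]

theorem rr_XX {T : G × Ω → Bool} (hT : T ∈ XX G Ω) (h : G) : rr h T ∈ XX G Ω := by
  refine map_mem_closure (rr_cont h) hT ?_
  rintro _ ⟨g, rfl⟩
  refine ⟨g * h, ?_⟩
  funext q
  exact fx_mul g h q.1 q.2

/-- a closed condition which holds for the functions `fx g` holds on the closure -/
theorem XX_of_closed {P : Set (G × Ω → Bool)} (hP : IsClosed P) (h : ∀ g : G, fx g ∈ P)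
    {T : G × Ω → Bool} (hT : T ∈ XX G Ω) : T ∈ P :=
  closure_minimal (by rintro _ ⟨g, rfl⟩; exact h g) hP hT

theorem cl_of {α : Type*} (q : α) (b : Bool) : IsClosed {T : α → Bool | T q = b} :=
  isClosed_eq (continuous_apply q) continuous_const

theorem XX_one {T : G × Ω → Bool} (hT : T ∈ XX G Ω) (β : Ω) : T (1, β) = true := by
  refine XX_of_closed (P := {T | T (1, β) = true}) (cl_of _ _) (fun g => ?_) hT
  rw [Set.mem_ofPred_eq, fx_eq]
  exact one_smul _ _

theorem XX_mul {T : G × Ω → Bool} (hT : T ∈ XX G Ω) (β : Ω) (x y : G) (hx : T (x, β) = true)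
    (hy : T (y, β) = true) : T (x * y, β) = true := by
  have h := XX_of_closed (P := {T : G × Ω → Bool | T (x, β) = false} ∪
    ({T | T (y, β) = false} ∪ {T | T (x * y, β) = true}))
    ((cl_of _ _).union ((cl_of _ _).union (cl_of _ _))) (fun g => ?_) hT
  · rcases h with h | h | h
    · rw [Set.mem_ofPred_eq, hx] at h
      exact absurd h (by decide)
    · rw [Set.mem_ofPred_eq, hy] at h
      exact absurd h (by decide)
    · exact h
  · by_cases h1 : fx g (x, β) = true
    · by_cases h2 : fx g (y, β) = true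
      · right
        right
        rw [Set.mem_ofPred_eq, fx_eq]
        rw [fx_eq] at h1 h2
        simp only at h1 h2 ⊢
        rw [mul_smul, h2, h1]
      · right
        left
        simpa using h2
    · left
      simpa using h1

theorem XX_inv {T : G × Ω → Bool} (hT : T ∈ XX G Ω) (β : Ω) (x : G) (hx : T (x, β) = true) :
    T (x⁻¹, β) = true := by
  have h := XX_of_closed (P := {T : G × Ω → Bool | T (x, β) = false} ∪ {T | T (x⁻¹, β) = true})
    ((cl_of _ _).union (cl_of _ _)) (fun g => ?_) hT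
  · rcases h with h | h
    · rw [Set.mem_ofPred_eq, hx] at h
      exact absurd h (by decide)
    · exact h
  · by_cases h1 : fx g (x, β) = true
    · right
      rw [Set.mem_ofPred_eq, fx_eq]
      rw [fx_eq] at h1
      simp only at h1 ⊢
      rw [inv_smul_eq_iff]
      exact h1.symm
    · left
      simpa using h1

/-- the subgroup of the elements fixing all `β ∈ Δ` -/
def SS {T : G × Ω → Bool} (hT : T ∈ XX G Ω) (Δ : Set Ω) : Subgroup G where
  carrier := {x | ∀ β ∈ Δ, T (x, β) = true}
  mul_mem' := fun {x y} hx hy β hβ => XX_mul hT β x y (hx β hβ) (hy β hβ)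
  one_mem' := fun β _ => XX_one hT β
  inv_mem' := fun {x} hx β hβ => XX_inv hT β x (hx β hβ)

theorem mem_SS {T : G × Ω → Bool} (hT : T ∈ XX G Ω) {Δ : Set Ω} {x : G} :
    x ∈ SS hT Δ ↔ ∀ β ∈ Δ, T (x, β) = true := Iff.rfl

/-- in a proper normal subgroup these subgroups have finite index -/
theorem SS_index1 (c : Ctx G Ω p) {T : G × Ω → Bool} (hT : T ∈ XX G Ω) (β : Ω)
    (R : Subgroup G) [hRn : R.Normal] (hR : R ≠ ⊤) : (SS hT {β}).relIndex R ≠ 0 := by
  classical
  intro h0
  have hinf : Infinite (R ⧸ (SS hT {β}).subgroupOf R) := by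
    by_contra hcon
    rw [not_infinite_iff_finite] at hcon
    exact (Nat.card_pos (α := R ⧸ (SS hT {β}).subgroupOf R)).ne' h0
  set O : Set Ω := (fun g : G => g • β) '' (R : Set G) with hO
  have hOf : O.Finite := c.orb hR β
  have htr := c.trans
  obtain ⟨e⟩ : Nonempty (Fin (O.ncard + 1) ↪ (R ⧸ (SS hT {β}).subgroupOf R)) :=
    ⟨(Fin.valEmbedding).trans (Infinite.natEmbedding _)⟩
  let s : Fin (O.ncard + 1) → G := fun i => ((e i).out : R)
  have hsR : ∀ i, s i ∈ R := fun i => ((e i).out : R).2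
  have key := XX_of_closed (P := ⋃ i : Fin (O.ncard + 1), ⋃ j : Fin (O.ncard + 1), ⋃ (_ : i ≠ j),
    {T : G × Ω → Bool | T ((s i)⁻¹ * s j, β) = true}) ?_ (fun g => ?_) hT
  · simp only [Set.mem_iUnion] at key
    obtain ⟨i, j, hij, h⟩ := key
    apply hij
    apply e.injective
    have h1 : (((e i).out : R) : R ⧸ (SS hT {β}).subgroupOf R) =
        (((e j).out : R) : R ⧸ (SS hT {β}).subgroupOf R) := by
      apply QuotientGroup.eq.mpr
      rw [Subgroup.mem_subgroupOf]
      intro β' hβ'
      rw [Set.mem_singleton_iff] at hβ'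
      subst hβ'
      exact h
    rwa [QuotientGroup.out_eq', QuotientGroup.out_eq'] at h1
  · refine isClosed_iUnion_of_finite fun i => isClosed_iUnion_of_finite fun j =>
      isClosed_iUnion_of_finite fun _ => cl_of _ _
  · -- the orbit of `g • β` has as many points as `O`
    obtain ⟨u, hu⟩ : ∃ u : G, u • β = g • β := ⟨g, rfl⟩
    let O' : Finset Ω := (hOf.toFinset).image (fun z => g • z)
    have hcard : O'.card < (Finset.univ : Finset (Fin (O.ncard + 1))).card := by
      rw [Finset.card_univ, Fintype.card_fin]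
      have h1 : O'.card ≤ hOf.toFinset.card := Finset.card_image_le
      rw [← Set.ncard_eq_toFinset_card O hOf] at h1
      omega
    obtain ⟨i, -, j, -, hij, h⟩ := Finset.exists_ne_map_eq_of_card_lt_of_maps_to hcard
      (f := fun i => s i • g • β) (by
      intro i _
      rw [Finset.mem_coe, Finset.mem_image]
      refine ⟨g⁻¹ • s i • g • β, ?_, smul_inv_smul g _⟩
      rw [Set.Finite.mem_toFinset]
      refine ⟨g⁻¹ * s i * g, ?_, ?_⟩
      · have := hRn.conj_mem _ (hsR i) g⁻¹
        rwa [inv_inv] at this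
      · simp only [mul_smul])
    simp only [Set.mem_iUnion]
    refine ⟨i, j, hij, ?_⟩
    rw [Set.mem_ofPred_eq, fx_eq]
    simp only at h ⊢
    rw [mul_smul, inv_smul_eq_iff]
    exact h.symm

theorem SS_index (c : Ctx G Ω p) {T : G × Ω → Bool} (hT : T ∈ XX G Ω) {Δ : Set Ω} (hΔ : Δ.Finite)
    (R : Subgroup G) [R.Normal] (hR : R ≠ ⊤) : (SS hT Δ).relIndex R ≠ 0 := by
  induction Δ, hΔ using Set.Finite.induction_on with
  | empty =>
    have h1 : SS hT (∅ : Set Ω) = ⊤ := by
      rw [eq_top_iff]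
      intro x _ β hβ
      exact absurd hβ (Set.notMem_empty β)
    rw [h1, Subgroup.relIndex_top_left]
    exact one_ne_zero
  | @insert β Δ hβ hΔ ih =>
    have h1 : SS hT (insert β Δ) = SS hT {β} ⊓ SS hT Δ := by
      ext x
      rw [Subgroup.mem_inf, mem_SS, mem_SS, mem_SS]
      constructor
      · intro h
        exact ⟨fun γ hγ => h γ (by rw [Set.mem_singleton_iff.mp hγ]; exact Set.mem_insert _ _),
          fun γ hγ => h γ (Set.mem_insert_of_mem _ hγ)⟩
      · rintro ⟨h1, h2⟩ γ hγ
        rcases Set.mem_insert_iff.mp hγ with h | h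
        · exact h1 γ (Set.mem_singleton_iff.mpr h)
        · exact h2 γ h
    rw [h1]
    exact Subgroup.relIndex_inf_ne_zero (SS_index1 c hT β R hR) ih

/-- the left translates are in the closure of the set of the right translates -/
theorem ll_mem (c : Ctx G Ω p) {T : G × Ω → Bool} (hT : T ∈ XX G Ω) (k : G) :
    ll k T ∈ closure (Set.range (fun h : G => rr h T)) := by
  classical
  rw [mem_closure_iff]
  intro o ho hko
  obtain ⟨I, u, hu, hIu⟩ := isOpen_pi_iff.mp ho _ hko
  have hR := c.normalClosure_ne_top k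
  have hfin : ∀ β : Ω, ((fun g : G => g • β) '' (Subgroup.normalClosure {k} : Set G)).Finite :=
    fun β => c.orb hR β
  let J : Finset (G × Ω) := I.image (fun q => (k⁻¹ * q.1 * k, q.2)) ∪
    I.biUnion (fun q => ((hfin q.2).toFinset).image (fun β => (q.1, β)))
  have hopen : IsOpen ((J : Set (G × Ω)).pi (fun q => ({T q} : Set Bool))) :=
    isOpen_set_pi J.finite_toSet (fun q _ => isOpen_discrete _)
  obtain ⟨T', hT', g, rfl⟩ := mem_closure_iff.mp hT _ hopen (fun q _ => rfl)
  have hJ : ∀ q ∈ J, fx g q = T q := fun q hq => hT' q hq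
  refine ⟨rr (g⁻¹ * k * g) T, hIu ?_, ⟨_, rfl⟩⟩
  intro q hq
  have h1 : rr (g⁻¹ * k * g) T q = ll k T q := by
    obtain ⟨x, β⟩ := q
    show T (x, (g⁻¹ * k * g) • β) = T (k⁻¹ * x * k, β)
    rw [← hJ (k⁻¹ * x * k, β) (Finset.mem_union_left _ (Finset.mem_image.mpr ⟨(x, β), hq, rfl⟩))]
    rw [← hJ (x, (g⁻¹ * k * g) • β) (Finset.mem_union_right _ (Finset.mem_biUnion.mpr
      ⟨(x, β), hq, Finset.mem_image.mpr ⟨_, ?_, rfl⟩⟩))]
    · rw [← fx_conj, ← fx_mul, ← mul_assoc, mul_inv_cancel_left]
    · rw [Set.Finite.mem_toFinset]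
      refine ⟨g⁻¹ * k * g, ?_, rfl⟩
      have := (Subgroup.normalClosure_normal (s := {k})).conj_mem k
        (Subgroup.subset_normalClosure (Set.mem_singleton k)) g⁻¹
      rwa [inv_inv] at this
  rw [h1]
  exact (hu q hq).2

end Pool.Agent.H73.BT
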