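import Pool.Agent.H73.BT.Cov
import Pool.Agent.H73.BT.Chn
import Pool.Agent.H73.BT.Pts

/-!
MODULE Thn (frame helper73): every finite set of elements fixes translates of every finite set of points, in every coset of
a suitable proper subgroup.

PROOF. Suppose not (push): for every C ≠ ⊤ there is g with: ∀ h ∈ C ∃ f ∈ F ∃ δ ∈ Δ, f • (g * h) • δ ≠ (g * h) • δ.
Let BB = {T ∈ XX G Ω | ∀ h, ∃ f ∈ F, ∃ δ ∈ Δ, T (f, h • δ) = false}, closed (finite unions of clopen conditions; F, Δ finite).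
NONEMPTY: with the chain K n (`chain`) the sets Z n = {T ∈ XX | ∀ h ∈ K n, ∃ f ∈ F, ∃ δ ∈ Δ, T (f, h • δ) = false} are closed, decreasing, nonempty
(T = fx g, g for C = K n: fx g (f, h • δ) = true means f • g • h • δ = g • h • δ), so the intersection is nonempty
(`IsCompact.nonempty_iInter_of_sequence_nonempty_isCompact_isClosed`), and every h : G is in some K n (zpowers h ≠ ⊤, `Ctx.closure_ne_top`).
BB is invariant under rr (`rr_XX`; rr g T (f, h • δ) = T (f, (g * h) • δ)).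
Apply `cov` to X = BB (subtype), r = rr restricted, A n = {T | ∀ x, (∀ δ ∈ Δ, T (x, δ) = true) → x ∈ K n} (closed: for x ∉ K n the condition
∃ δ ∈ Δ, T (x, δ) = false is clopen; every T ∈ BB is in some A n, since SS T Δ does not contain all of F (h = 1), so it is ≠ ⊤, so ≤ K n).
Get M, n, H; T0 ∈ M; Δ' = ⋃ h ∈ H, h • Δ. For all T ∈ M: (∀ β ∈ Δ', T (x, β) = true) → x ∈ K n. For all k: ll k T0 ∈ M (`ll_mem`, M closed
and invariant under rr). So SS T0 Δ' ≤ (K n).normalCore =: L (if x ∈ SS T0 Δ' then ll k T0 (k * x * k⁻¹, β) = T0 (x, β) = true, so k * x * k⁻¹ ∈ K n).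
For every normal R ≠ ⊤: (SS T0 Δ').relIndex R ≠ 0 (`SS_index`), so L.relIndex R ≠ 0, so the image of R in G ⧸ L is finite, so
⁅R, ⊤⁆ ≤ L (`Ctx.commutator_le_of_finite`). With R = normalClosure {x} (≠ ⊤: `Ctx.normalClosure_ne_top`) all commutators are in L,
so L = ⊤ since c.perf, contradiction to L ≤ K n ≠ ⊤.
-/

set_option autoImplicit false

open Set
open scoped Pointwise commutatorElement

namespace Pool.Agent.H73.BT

open Pool.Agent.H80.BT

variable {G : Type*} [Group G] {Ω : Type*} [MulAction G Ω] {p : ℕ}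

omit [Group G] [MulAction G Ω] in
private theorem eq_cl (q : G × Ω) : IsClosed {T : G × Ω → Bool | T q = false} :=
  isClosed_singleton.preimage (continuous_apply q)

private theorem cond_cl {F : Set G} (hF : F.Finite) {Δ : Set Ω} (hΔ : Δ.Finite) (h : G) :
    IsClosed {T : G × Ω → Bool | ∃ f ∈ F, ∃ δ ∈ Δ, T (f, h • δ) = false} := by
  have h1 : {T : G × Ω → Bool | ∃ f ∈ F, ∃ δ ∈ Δ, T (f, h • δ) = false} =
      ⋃ f ∈ F, ⋃ δ ∈ Δ, {T : G × Ω → Bool | T (f, h • δ) = false} := by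
    ext T
    simp
  rw [h1]
  exact hF.isClosed_biUnion fun f _ => hΔ.isClosed_biUnion fun δ _ => eq_cl _

private theorem SS_cl {Δ : Set Ω} (hΔ : Δ.Finite) (K : Subgroup G) :
    IsClosed {T : G × Ω → Bool | ∀ x, (∀ δ ∈ Δ, T (x, δ) = true) → x ∈ K} := by
  have h1 : {T : G × Ω → Bool | ∀ x, (∀ δ ∈ Δ, T (x, δ) = true) → x ∈ K} =
      ⋂ x ∈ {x : G | x ∉ K}, ⋃ δ ∈ Δ, {T : G × Ω → Bool | T (x, δ) = false} := by
    ext T
    simp only [mem_ofPred_eq, mem_iInter, mem_iUnion, exists_prop]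
    constructor
    · intro h x hx
      by_contra hcon
      push Not at hcon
      exact hx (h x fun δ hδ => by simpa using hcon δ hδ)
    · intro h x hx
      by_contra hcon
      obtain ⟨δ, hδ, hT⟩ := h x hcon
      rw [hx δ hδ] at hT
      exact absurd hT (by simp)
  rw [h1]
  exact isClosed_biInter fun x _ => hΔ.isClosed_biUnion fun δ _ => eq_cl _

private theorem image_fin (L R : Subgroup G) [L.Normal] (h : L.relIndex R ≠ 0) :
    ((fun x : G => (x : G ⧸ L)) '' (R : Set G)).Finite := by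
  have h1 : (L.subgroupOf R).index ≠ 0 := h
  have h2 : Finite (R ⧸ L.subgroupOf R) := Subgroup.index_ne_zero_iff_finite.1 h1
  refine (Set.finite_range (QuotientGroup.map (L.subgroupOf R) L R.subtype le_rfl)).subset ?_
  rintro _ ⟨x, hx, rfl⟩
  exact ⟨((⟨x, hx⟩ : R) : R ⧸ L.subgroupOf R), rfl⟩

theorem thin (c : Ctx G Ω p) (F : Set G) (hF : F.Finite) (Δ : Set Ω) (hΔ : Δ.Finite) :
    ∃ C : Subgroup G, C ≠ ⊤ ∧ ∀ g : G, ∃ h ∈ C, ∀ f ∈ F, ∀ δ ∈ Δ,
      f • (g * h) • δ = (g * h) • δ := by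
  classical
  by_contra hcon
  push Not at hcon
  have := c.inf
  obtain ⟨ω⟩ : Nonempty Ω := inferInstance
  obtain ⟨K, hKt, hKm, -, hKc⟩ := chain c ω
  have hKall : ∀ h : G, ∃ n, h ∈ K n := by
    intro h
    obtain ⟨n, hn⟩ := hKc _ (c.closure_ne_top (Set.finite_singleton h))
    exact ⟨n, hn (Subgroup.subset_closure rfl)⟩
  set BB : Set (G × Ω → Bool) :=
    {T | T ∈ XX G Ω ∧ ∀ h : G, ∃ f ∈ F, ∃ δ ∈ Δ, T (f, h • δ) = false} with hBB
  have hXc : IsClosed (XX G Ω) := isClosed_closure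
  have hBcl : IsClosed BB := by
    have h1 : BB = XX G Ω ∩ ⋂ h : G, {T | ∃ f ∈ F, ∃ δ ∈ Δ, T (f, h • δ) = false} := by
      ext T
      simp only [hBB, mem_ofPred_eq, mem_inter_iff, mem_iInter]
    rw [h1]
    exact hXc.inter (isClosed_iInter fun h => cond_cl hF hΔ h)
  have hBne : BB.Nonempty := by
    let Z : ℕ → Set (G × Ω → Bool) := fun n =>
      {T | T ∈ XX G Ω ∧ ∀ h ∈ K n, ∃ f ∈ F, ∃ δ ∈ Δ, T (f, h • δ) = false}
    have hZcl : ∀ n, IsClosed (Z n) := by
      intro n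
      have h1 : Z n = XX G Ω ∩ ⋂ h ∈ K n, {T | ∃ f ∈ F, ∃ δ ∈ Δ, T (f, h • δ) = false} := by
        ext T
        simp only [Z, mem_ofPred_eq, mem_inter_iff, mem_iInter]
      rw [h1]
      exact hXc.inter (isClosed_biInter fun h _ => cond_cl hF hΔ h)
    have hZne : ∀ n, (Z n).Nonempty := by
      intro n
      obtain ⟨g, hg⟩ := hcon (K n) (hKt n)
      refine ⟨fx g, subset_closure ⟨g, rfl⟩, fun h hh => ?_⟩
      obtain ⟨f, hf, δ, hδ, hne⟩ := hg h hh
      refine ⟨f, hf, δ, hδ, ?_⟩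
      rw [← Bool.not_eq_true, fx_eq]
      simpa only [mul_smul] using hne
    have hZm : ∀ n, Z (n + 1) ⊆ Z n := fun n T hT => ⟨hT.1, fun h hh => hT.2 h (hKm (Nat.le_succ n) hh)⟩
    obtain ⟨T, hT⟩ := IsCompact.nonempty_iInter_of_sequence_nonempty_isCompact_isClosed Z hZm hZne
      (hZcl 0).isCompact hZcl
    rw [mem_iInter] at hT
    refine ⟨T, (hT 0).1, fun h => ?_⟩
    obtain ⟨n, hn⟩ := hKall h
    exact (hT n).2 h hn
  have hBr : ∀ h : G, ∀ T ∈ BB, rr h T ∈ BB := by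
    intro h T hT
    refine ⟨rr_XX hT.1 h, fun g => ?_⟩
    obtain ⟨f, hf, δ, hδ, hTf⟩ := hT.2 (h * g)
    refine ⟨f, hf, δ, hδ, ?_⟩
    show T (f, h • g • δ) = false
    rwa [← mul_smul]
  have : CompactSpace BB := isCompact_iff_compactSpace.1 hBcl.isCompact
  have : Nonempty BB := hBne.to_subtype
  obtain ⟨M, hMcl, ⟨T₀, hT₀⟩, hMr, n, H, hH⟩ := cov (X := BB) (G := G)
    (fun h T => ⟨rr h T.1, hBr h T.1 T.2⟩) (fun T => Subtype.ext (rr_one T.1))
    (fun g h T => Subtype.ext (rr_rr g h T.1))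
    (fun h => ((rr_cont h).comp continuous_subtype_val).subtype_mk _)
    (fun n => {T : BB | ∀ x, (∀ δ ∈ Δ, T.1 (x, δ) = true) → x ∈ K n})
    (fun n => (SS_cl hΔ (K n)).preimage continuous_subtype_val)
    (fun T => by
      have h1 : SS T.2.1 Δ ≠ ⊤ := by
        intro h
        obtain ⟨f, hf, δ, hδ, hTf⟩ := T.2.2 1
        have h2 : f ∈ SS T.2.1 Δ := by
          rw [h]
          trivial
        have h3 := h2 δ hδ
        rw [one_smul, h3] at hTf
        exact absurd hTf (by simp)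
      obtain ⟨n, hn⟩ := hKc _ h1
      exact ⟨n, fun x hx => hn hx⟩)
  set Δ' : Set Ω := ⋃ h ∈ H, (fun δ => h • δ) '' Δ with hΔ'
  have hΔ'f : Δ'.Finite := H.finite_toSet.biUnion fun h _ => hΔ.image _
  have claim1 : ∀ T ∈ M, ∀ x : G, (∀ β ∈ Δ', T.1 (x, β) = true) → x ∈ K n := by
    intro T hT x hx
    obtain ⟨h, hh, hA⟩ := hH T hT
    refine hA x fun δ hδ => ?_
    exact hx (h • δ) (mem_biUnion (by exact_mod_cast hh) ⟨δ, hδ, rfl⟩)
  have claim2 : ∀ k : G, ∃ T ∈ M, T.1 = ll k T₀.1 := by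
    intro k
    have h1 := ll_mem c T₀.2.1 k
    have h2 : IsClosed (Subtype.val '' M : Set (G × Ω → Bool)) :=
      hBcl.isClosedEmbedding_subtypeVal.isClosedMap M hMcl
    have h3 : Set.range (fun h : G => rr h T₀.1) ⊆ Subtype.val '' M := by
      rintro _ ⟨h, rfl⟩
      exact ⟨_, hMr h T₀ hT₀, rfl⟩
    obtain ⟨T, hT, hTe⟩ := closure_minimal h3 h2 h1
    exact ⟨T, hT, hTe⟩
  have claim3 : SS T₀.2.1 Δ' ≤ (K n).normalCore := by
    intro x hx k
    obtain ⟨T, hT, hTe⟩ := claim2 k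
    refine claim1 T hT _ fun β hβ => ?_
    rw [hTe]
    show T₀.1 (k⁻¹ * (k * x * k⁻¹) * k, β) = true
    have h1 : k⁻¹ * (k * x * k⁻¹) * k = x := by group
    rw [h1]
    exact hx β hβ
  have claim4 : ∀ x : G, ⁅Subgroup.normalClosure {x}, (⊤ : Subgroup G)⁆ ≤ (K n).normalCore := by
    intro x
    apply c.commutator_le_of_finite
    apply image_fin
    have h1 := SS_index c T₀.2.1 hΔ'f (Subgroup.normalClosure {x}) (c.normalClosure_ne_top x)
    intro h2
    apply h1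
    have h3 := Subgroup.relIndex_dvd_of_le_left (Subgroup.normalClosure {x}) claim3
    rw [h2] at h3
    exact Nat.eq_zero_of_zero_dvd h3
  apply hKt n
  rw [eq_top_iff]
  refine le_trans ?_ (Subgroup.normalCore_le (K n))
  rw [← c.perf, commutator_def, Subgroup.commutator_le]
  intro x _ y _
  exact claim4 x (Subgroup.commutator_mem_commutator
    (Subgroup.subset_normalClosure (Set.mem_singleton x)) (Subgroup.mem_top y))

end Pool.Agent.H73.BT
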