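import Pool.Agent.H73.BT.Cyc
import Pool.Agent.H73.BT.Thn

/-!
MODULE Rst (frame helper73): one step of the construction of a proper subgroup with infinite orbits.

PROOF. D = {f • a | f ∈ F} ∪ {b} (finite). `thin c F hF D hD` gives K0 ≠ ⊤; K = K0 ⊔ C ⊔ stabilizer a. C2 from `cyc c a K _ _ D _`.
By hunb there is x ∉ C2 with x ^ p ∈ C ≤ K. For every 0 < i < p choose k i ∈ K0 ≤ K such that F fixes (x ^ i * k i) • d for all d ∈ D (thin with g = x ^ i);
k i = 1 for the other i. `cyc` gives y. F' = closure (F ∪ {y}), finite by c.lf. Let O = ⋃ i < p, (x ^ i * k i) • {f • a | f ∈ F} (finite).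
y • O ⊆ O (the last one is mapped to i = 0: x ^ 0 * k 0 = 1). f • O ⊆ O for f ∈ F: for i = 0 since F is a subgroup, for 0 < i < p since f fixes these points.
O finite gives g • O = O for g ∈ F ∪ {y}, so for all g ∈ F' (closure_induction, or F' ≤ MulAction.stabilizer G O). a ∈ O, so F' • a ⊆ O. b ∉ O: for i = 0 by hab, for 0 < i < p
since (x ^ i * k i) • d ∉ D for d ∈ D (first part of cyc). y • a = (x * k 1) • a ∉ D ⊇ F • a if 2 < p or p = 2 (1 < p always: c.prime), so y ∈ F' is the required element.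
-/

set_option autoImplicit false

open Set
open scoped Pointwise

namespace Pool.Agent.H73.BT

open Pool.Agent.H80.BT

variable {G : Type*} [Group G] {Ω : Type*} [MulAction G Ω] {p : ℕ}

theorem rst (c : Ctx G Ω p) (C : Subgroup G) (hC : C ≠ ⊤)
    (hunb : ∀ C' : Subgroup G, C' ≠ ⊤ → ∃ x : G, x ^ p ∈ C ∧ x ∉ C') (a b : Ω)
    (F : Subgroup G) (hF : (F : Set G).Finite) (hab : ∀ f ∈ F, f • a ≠ b) :
    ∃ F' : Subgroup G, F ≤ F' ∧ (F' : Set G).Finite ∧ (∀ f ∈ F', f • a ≠ b) ∧
      ∃ y ∈ F', ∀ f ∈ F, y • a ≠ f • a := by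
  classical
  have hp1 : 1 < p := c.prime.one_lt
  set D : Set Ω := (fun f : G => f • a) '' (F : Set G) ∪ {b} with hDdef
  have hD : D.Finite := (hF.image _).union (Set.finite_singleton b)
  have hFD : ∀ f ∈ F, f • a ∈ D := fun f hf => Or.inl ⟨f, hf, rfl⟩
  have hbD : b ∈ D := Or.inr rfl
  obtain ⟨K0, hK0, hthin⟩ := thin c (F : Set G) hF D hD
  have hK : K0 ⊔ C ⊔ MulAction.stabilizer G a ≠ ⊤ :=
    c.sup_ne_top (c.sup_ne_top hK0 hC) (c.stab_ne_top a)
  obtain ⟨C2, hC2, hcyc⟩ := cyc c a (K0 ⊔ C ⊔ MulAction.stabilizer G a) hK le_sup_right D hD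
  obtain ⟨x, hxp, hx⟩ := hunb C2 hC2
  choose h hh hfix using fun i : ℕ => hthin (x ^ i)
  obtain ⟨hdis, y, hy1, hy2⟩ := hcyc x (le_sup_left (α := Subgroup G) (le_sup_right (α := Subgroup G) hxp)) hx
    (fun i => if i = 0 then 1 else h i) (fun i => by
      by_cases hi : i = 0
      · simp [hi]
      · simp only [hi, if_false]
        exact le_sup_left (α := Subgroup G) (le_sup_left (α := Subgroup G) (hh i))) (by simp)
  set k : ℕ → G := fun i => if i = 0 then 1 else h i with hk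
  have hk0 : x ^ 0 * k 0 = 1 := by simp [hk]
  have hkfix : ∀ i, 0 < i → ∀ f ∈ F, ∀ d ∈ D, f • (x ^ i * k i) • d = (x ^ i * k i) • d := by
    intro i hi f hf d hd
    have h1 : k i = h i := by simp [hk, hi.ne']
    rw [h1]
    exact hfix i f hf d hd
  set O : Set Ω := {w | ∃ i < p, ∃ f ∈ F, (x ^ i * k i) • f • a = w} with hO
  have hOfin : O.Finite := by
    have h1 : O ⊆ (fun q : ℕ × G => (x ^ q.1 * k q.1) • q.2 • a) '' (Set.Iio p ×ˢ (F : Set G)) := by
      rintro w ⟨i, hi, f, hf, rfl⟩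
      exact ⟨(i, f), ⟨hi, hf⟩, rfl⟩
    exact (((Set.finite_Iio p).prod hF).image _).subset h1
  have haO : a ∈ O := ⟨0, by omega, 1, one_mem _, by rw [hk0, one_smul, one_smul]⟩
  have hyO : y ∈ MulAction.stabilizer G O := by
    rw [MulAction.mem_stabilizer_set' hOfin]
    rintro w ⟨i, hi, f, hf, rfl⟩
    by_cases hip : i + 1 < p
    · rw [hy1 i hip (f • a) (hFD f hf)]
      exact ⟨i + 1, hip, f, hf, rfl⟩
    · have h1 : i = p - 1 := by omega
      subst h1
      rw [hy2 (f • a) (hFD f hf)]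
      exact ⟨0, by omega, f, hf, by rw [hk0, one_smul]⟩
  have hFO : ∀ g ∈ F, g ∈ MulAction.stabilizer G O := by
    intro g hg
    rw [MulAction.mem_stabilizer_set' hOfin]
    rintro w ⟨i, hi, f, hf, rfl⟩
    rcases Nat.eq_zero_or_pos i with h0 | h0
    · subst h0
      refine ⟨0, by omega, g * f, mul_mem hg hf, ?_⟩
      rw [hk0, one_smul, one_smul, mul_smul]
    · rw [hkfix i h0 g hg (f • a) (hFD f hf)]
      exact ⟨i, hi, f, hf, rfl⟩
  have hF'O : Subgroup.closure ((F : Set G) ∪ {y}) ≤ MulAction.stabilizer G O := by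
    rw [Subgroup.closure_le]
    rintro g (hg | hg)
    · exact hFO g hg
    · rw [Set.mem_singleton_iff.1 hg]
      exact hyO
  have hyF' : y ∈ Subgroup.closure ((F : Set G) ∪ {y}) := Subgroup.subset_closure (Or.inr rfl)
  refine ⟨Subgroup.closure ((F : Set G) ∪ {y}), fun f hf => Subgroup.subset_closure (Or.inl hf),
    c.lf _ (hF.union (Set.finite_singleton y)), fun g hg hgb => ?_, y, hyF', fun f hf hya => ?_⟩
  · have h1 : g • a ∈ O := (MulAction.mem_stabilizer_set' hOfin).1 (hF'O hg) haO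
    rw [hgb] at h1
    obtain ⟨i, hi, f, hf, hw⟩ := h1
    rcases Nat.eq_zero_or_pos i with h0 | h0
    · subst h0
      rw [hk0, one_smul] at hw
      exact hab f hf hw
    · exact hdis i h0 hi (f • a) (hFD f hf) (hw ▸ hbD)
  · have haD : a ∈ D := by
      have := hFD 1 (one_mem _)
      rwa [one_smul] at this
    have h1 := hy1 0 (by omega) a haD
    have h2 : y • a = (x ^ 1 * k 1) • a := by
      have h3 : y • (x ^ 0 * k 0) • a = (x ^ (0 + 1) * k (0 + 1)) • a := h1
      rw [hk0, one_smul] at h3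
      exact h3
    apply hdis 1 one_pos hp1 a haD
    have h4 : (x ^ 1 * k 1) • a ∈ D := by
      rw [← h2, hya]
      exact hFD f hf
    exact h4

end Pool.Agent.H73.BT
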