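import Pool.Agent.H73.BT.Rst

/-!
MODULE Rts (frame helper73): roots of the elements of a proper subgroup lie in a proper subgroup.

PROOF of `roots_p`: suppose not; then `hunb` of `rst` holds. Choose a : Ω and b ≠ a. Iterate `rst` from F 0 = ⊥ (as in ThF.lean, the proof of `theoremF` after `stp`: same
shape): finite subgroups F 0 ≤ F 1 ≤ ... with f • a ≠ b for f ∈ F n and an element of F (n + 1) moving a outside F n • a. The union U is a subgroup with infinite orbit of a,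
so U = ⊤ (c.bt), but b = g • a for some g (c.trans), contradiction.
`roots`: m = p ^ n * s with s coprime to p (m ≠ 0); x has order a power of p (c.pgrp), so x ^ (p ^ n) is a power of x ^ m, so it is in C; iterate `roots_p` n times
(x ^ (p ^ (n + 1)) = (x ^ (p ^ n)) ^ p).
-/

set_option autoImplicit false

open Set
open scoped Pointwise

namespace Pool.Agent.H73.BT

open Pool.Agent.H80.BT

variable {G : Type*} [Group G] {Ω : Type*} [MulAction G Ω] {p : ℕ}

theorem roots_p (c : Ctx G Ω p) (C : Subgroup G) (hC : C ≠ ⊤) :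
    ∃ C' : Subgroup G, C' ≠ ⊤ ∧ ∀ x : G, x ^ p ∈ C → x ∈ C' := by
  classical
  by_contra hcon
  have hunb : ∀ C' : Subgroup G, C' ≠ ⊤ → ∃ x : G, x ^ p ∈ C ∧ x ∉ C' := by
    intro C' hC'
    by_contra h
    refine hcon ⟨C', hC', fun x hx => ?_⟩
    by_contra hx'
    exact h ⟨x, hx, hx'⟩
  have := c.inf
  have := c.trans
  obtain ⟨a⟩ : Nonempty Ω := inferInstance
  obtain ⟨b, hb⟩ : ∃ b : Ω, b ≠ a := exists_ne a
  set T := {F : Subgroup G // (F : Set G).Finite ∧ ∀ f ∈ F, f • a ≠ b} with hT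
  have hstep : ∀ F : T, ∃ F' : T, F.1 ≤ F'.1 ∧ ∃ y ∈ F'.1, ∀ f ∈ F.1, y • a ≠ f • a := by
    intro F
    obtain ⟨F', h1, h2, h3, h4⟩ := rst c C hC hunb a b F.1 F.2.1 F.2.2
    exact ⟨⟨F', h2, h3⟩, h1, h4⟩
  choose nxt hle x hx hxne using hstep
  have hbot : ((⊥ : Subgroup G) : Set G).Finite ∧ ∀ f ∈ (⊥ : Subgroup G), f • a ≠ b := by
    constructor
    · rw [Subgroup.coe_bot]
      exact Set.finite_singleton 1
    · intro f hf
      rw [Subgroup.mem_bot] at hf
      subst hf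
      rw [one_smul]
      exact hb.symm
  set F : ℕ → T := fun n => Nat.rec ⟨⊥, hbot⟩ (fun _ G => nxt G) n with hFdef
  have hFs : ∀ n, F (n + 1) = nxt (F n) := fun n => rfl
  have hmono : Monotone fun n => (F n).1 := by
    apply monotone_nat_of_le_succ
    intro n
    show (F n).1 ≤ (F (n + 1)).1
    rw [hFs]
    exact hle (F n)
  set X : Subgroup G := ⨆ n, (F n).1 with hX
  have hdir : Directed (· ≤ ·) fun n => (F n).1 := hmono.directed_le
  have hXtop : X ≠ ⊤ := by
    intro h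
    obtain ⟨g, hg⟩ := MulAction.exists_smul_eq G a b
    have hgX : g ∈ X := by
      rw [h]
      trivial
    rw [hX, Subgroup.mem_iSup_of_directed hdir] at hgX
    obtain ⟨n, hn⟩ := hgX
    exact (F n).2.2 g hn hg
  have hfin := c.orb hXtop a
  have hmem : ∀ n, x (F n) • a ∈ (fun g : G => g • a) '' (X : Set G) := by
    intro n
    refine ⟨x (F n), ?_, rfl⟩
    have h1 : x (F n) ∈ (F (n + 1)).1 := by
      rw [hFs]
      exact hx (F n)
    exact (le_iSup (fun n => (F n).1) (n + 1)) h1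
  have hinj : Function.Injective fun n => x (F n) • a := by
    have hlt : ∀ n m, n < m → x (F n) • a ≠ x (F m) • a := by
      intro n m hnm h
      have h1 : x (F n) ∈ (F (n + 1)).1 := by
        rw [hFs]
        exact hx (F n)
      have h2 : x (F n) ∈ (F m).1 := hmono (by omega : n + 1 ≤ m) h1
      exact hxne (F m) _ h2 h.symm
    intro n m h
    rcases lt_trichotomy n m with h1 | h1 | h1
    · exact absurd h (hlt n m h1)
    · exact h1
    · exact absurd h.symm (hlt m n h1)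
  exact Set.infinite_of_injective_forall_mem hinj hmem hfin

private theorem roots_pow (c : Ctx G Ω p) (n : ℕ) : ∀ (C : Subgroup G), C ≠ ⊤ →
    ∃ C' : Subgroup G, C' ≠ ⊤ ∧ ∀ x : G, x ^ p ^ n ∈ C → x ∈ C' := by
  induction n with
  | zero => exact fun C hC => ⟨C, hC, fun x hx => by simpa using hx⟩
  | succ n ih =>
    intro C hC
    obtain ⟨C₁, h1, h2⟩ := roots_p c C hC
    obtain ⟨C₂, h3, h4⟩ := ih C₁ h1
    refine ⟨C₂, h3, fun x hx => h4 x (h2 _ ?_)⟩
    rw [← pow_mul, ← pow_succ]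
    exact hx

theorem roots (c : Ctx G Ω p) (C : Subgroup G) (hC : C ≠ ⊤) (m : ℕ) (hm : m ≠ 0) :
    ∃ C' : Subgroup G, C' ≠ ⊤ ∧ ∀ x : G, x ^ m ∈ C → x ∈ C' := by
  obtain ⟨n, s, hs, hms⟩ := Nat.exists_eq_pow_mul_and_not_dvd hm p c.prime.ne_one
  obtain ⟨C', h1, h2⟩ := roots_pow c n C hC
  refine ⟨C', h1, fun x hx => h2 x ?_⟩
  obtain ⟨k, hk⟩ := c.pgrp x
  have hcop : IsCoprime (s : ℤ) ((p ^ k : ℕ) : ℤ) := by
    rw [Nat.isCoprime_iff_coprime]
    exact ((Nat.Prime.coprime_iff_not_dvd c.prime).2 hs).symm.pow_right k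
  obtain ⟨u, v, huv⟩ := hcop
  have hy : (x ^ p ^ n) = (x ^ m) ^ u := by
    have e1 : (x ^ p ^ n) ^ (p ^ k : ℕ) = 1 := by
      rw [← pow_mul, mul_comm, pow_mul, hk, one_pow]
    calc (x ^ p ^ n) = (x ^ p ^ n) ^ (u * (s : ℤ) + v * ((p ^ k : ℕ) : ℤ)) := by
          rw [huv, zpow_one]
      _ = ((x ^ p ^ n) ^ s) ^ u * ((x ^ p ^ n) ^ (p ^ k : ℕ)) ^ v := by
          rw [zpow_add, mul_comm u, mul_comm v, zpow_mul, zpow_mul, zpow_natCast, zpow_natCast]
      _ = (x ^ m) ^ u := by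
          rw [e1, one_zpow, mul_one, ← pow_mul, ← hms]
  rw [hy]
  exact zpow_mem hx u

end Pool.Agent.H73.BT
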