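import Pool.Agent.H73.BT.Far

/-!
MODULE Stp (skeleton helper73): one step of the construction for Theorem F.

PROOF. m = card F * card F. x0 with x0 • ω ∉ F • ω (Ω infinite, transitive, F finite). `far` with
g = x0, Δ = {ω}: C. Put C1 = C ⊔ K (proper by `Ctx.sup_ne_top`). The set B of y : G ⧸ K such that
y = t K with f * t ∈ C1 for some f ∈ F is finite (C1 • ω is finite by `Ctx.orb`, K contains the
stabilizer, so C1 / K is finite; finite union over F of translates). For f ∈ F the element f⁻¹ * a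
moves a point of G ⧸ K, so infinitely many (hinf), so there is y f ∉ B with f • y f ≠ a • y f.
Put t f = (y f).out, Q = {f' • t f • ω | f, f' ∈ F}, card Q <= m, all far: if t • ω = f' • t f • ω then
(f' * t f)⁻¹ * t ∈ stabilizer ≤ C, so t ∈ C would give f' * t f ∈ C, contradiction.
`far` gives x with x • ω = x0 • ω and x = 1 on Q. x fixes all points f' • y f of G ⧸ K (K contains the
stabilizer of ω). F' = closure (F ∪ {x}), finite by `c.lf`. Claim: for all g ∈ F' and f1 ∈ F there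
is f2 ∈ F with g • f1 • y f = f2 • y f for all f ∈ F (closure induction, same for inverses).
With f1 = 1: g • y f2 = f2 • y f2 ≠ a • y f2.
-/

set_option autoImplicit false

open Set
open scoped Pointwise commutatorElement

namespace Pool.Agent.H73.BT

open Pool.Agent.H80.BT

variable {G : Type*} [Group G] {Ω : Type*} [MulAction G Ω] {p : ℕ}

private theorem coset_fin (c : Ctx G Ω p) (ω : Ω) (K C1 : Subgroup G)
    (hH : MulAction.stabilizer G ω ≤ K) (hC : C1 ≠ ⊤) :
    ((fun g : G => (g : G ⧸ K)) '' (C1 : Set G)).Finite := by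
  classical
  let φ : Ω → G ⧸ K := fun z => if h : ∃ g ∈ C1, g • ω = z then ((Classical.choose h : G) : G ⧸ K)
    else ((1 : G) : G ⧸ K)
  refine ((c.orb hC ω).image φ).subset ?_
  rintro _ ⟨g, hg, rfl⟩
  refine ⟨g • ω, ⟨g, hg, rfl⟩, ?_⟩
  have h : ∃ g' ∈ C1, g' • ω = g • ω := ⟨g, hg, rfl⟩
  have h1 : φ (g • ω) = ((Classical.choose h : G) : G ⧸ K) := dif_pos h
  rw [h1]
  have h2 := (Classical.choose_spec h).2
  refine QuotientGroup.eq.2 (hH ?_)
  rw [MulAction.mem_stabilizer_iff, mul_smul]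
  exact inv_smul_eq_iff.2 h2.symm

theorem stp (c : Ctx G Ω p) (ω : Ω) (K : Subgroup G) (hK : K ≠ ⊤)
    (hH : MulAction.stabilizer G ω ≤ K)
    (hinf : ∀ g : G, (∃ y : G ⧸ K, g • y ≠ y) → {y : G ⧸ K | g • y ≠ y}.Infinite)
    (a : G) (F : Subgroup G) (hF : (F : Set G).Finite)
    (hA : ∀ f ∈ F, ∃ y : G ⧸ K, f • y ≠ a • y) :
    ∃ F' : Subgroup G, F ≤ F' ∧ (F' : Set G).Finite ∧ (∀ f ∈ F', ∃ y : G ⧸ K, f • y ≠ a • y) ∧
      ∃ x ∈ F', ∀ f ∈ F, x • ω ≠ f • ω := by
  classical
  have hinfΩ := c.inf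
  have htr := c.trans
  obtain ⟨z0, hz0⟩ : ∃ z0 : Ω, z0 ∉ (fun f : G => f • ω) '' (F : Set G) :=
    (hF.image _).exists_notMem
  obtain ⟨x0, hx0⟩ := MulAction.exists_smul_eq G ω z0
  have hFf : Finite F := hF.to_subtype
  have hFt : Fintype F := Fintype.ofFinite F
  obtain ⟨C, hC, hs, hfar⟩ := far c ω x0 {ω} (Set.finite_singleton ω) (Fintype.card F * Fintype.card F)
  have hC1 : C ⊔ K ≠ ⊤ := c.sup_ne_top hC hK
  set B : Set (G ⧸ K) := ⋃ f ∈ (F : Set G),
    (fun y : G ⧸ K => f⁻¹ • y) '' ((fun g : G => (g : G ⧸ K)) '' ((C ⊔ K : Subgroup G) : Set G)) with hB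
  have hBf : B.Finite := hF.biUnion fun f _ => (coset_fin c ω K (C ⊔ K) hH hC1).image _
  have hy : ∀ f : F, ∃ y : G ⧸ K, y ∉ B ∧ (f : G) • y ≠ a • y := by
    intro f
    have h1 : {y : G ⧸ K | ((f : G)⁻¹ * a) • y ≠ y}.Infinite := by
      apply hinf
      obtain ⟨y, hy⟩ := hA f f.2
      refine ⟨y, fun h => hy ?_⟩
      have h2 := congrArg (fun w => (f : G) • w) h
      simp only [mul_smul, smul_inv_smul] at h2
      exact h2.symm
    obtain ⟨y, hy1, hy2⟩ := (h1.sdiff hBf).nonempty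
    refine ⟨y, hy2, fun h => hy1 ?_⟩
    rw [mul_smul, ← h, inv_smul_smul]
  choose y hyB hya using hy
  set Q : Finset Ω := (Finset.univ : Finset (F × F)).image
    (fun q => (q.1 : G) • (y q.2).out • ω) with hQ
  have hQc : Q.card ≤ Fintype.card F * Fintype.card F := by
    refine Finset.card_image_le.trans (le_of_eq ?_)
    rw [Finset.card_univ, Fintype.card_prod]
  obtain ⟨x, hx1, hx2⟩ := hfar Q hQc (by
    intro t ht htC
    rw [hQ, Finset.mem_image] at ht
    obtain ⟨⟨f', f⟩, -, h⟩ := ht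
    simp only at h
    have h1 : ((f' : G) * (y f).out)⁻¹ * t ∈ C := by
      apply hs
      rw [MulAction.mem_stabilizer_iff, mul_smul, ← h, ← mul_smul (f' : G), inv_smul_smul]
    have h2 : (f' : G) * (y f).out ∈ C := by
      have h3 := C.mul_mem htC (C.inv_mem h1)
      rwa [mul_inv_rev, inv_inv, mul_inv_cancel_left] at h3
    apply hyB f
    rw [hB, Set.mem_iUnion₂]
    refine ⟨f', f'.2, (((f' : G) * (y f).out : G) : G ⧸ K), ⟨_, Subgroup.mem_sup_left h2, rfl⟩, ?_⟩
    show (f' : G)⁻¹ • (((f' : G) * (y f).out : G) : G ⧸ K) = y f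
    rw [MulAction.Quotient.smul_coe, smul_eq_mul, inv_mul_cancel_left]
    exact QuotientGroup.out_eq' (y f))
  have hxQ : ∀ f' f : F, x • (f' : G) • y f = (f' : G) • y f := by
    intro f' f
    have h1 : x • (f' : G) • (y f).out • ω = (f' : G) • (y f).out • ω :=
      hx2 _ (Finset.mem_image.2 ⟨(f', f), Finset.mem_univ _, rfl⟩)
    have h2 : ((y f).out : G ⧸ K) = y f := QuotientGroup.out_eq' (y f)
    rw [← h2, MulAction.Quotient.smul_coe, MulAction.Quotient.smul_coe]
    refine QuotientGroup.eq.2 (hH ?_)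
    simp only [smul_eq_mul]
    rw [MulAction.mem_stabilizer_iff, mul_smul, inv_smul_eq_iff]
    simp only [mul_smul]
    exact h1.symm
  have hfin : ((F : Set G) ∪ {x}).Finite := hF.union (Set.finite_singleton x)
  refine ⟨Subgroup.closure ((F : Set G) ∪ {x}), ?_, c.lf _ hfin, ?_, x, ?_, ?_⟩
  · intro f hf
    exact Subgroup.subset_closure (Or.inl hf)
  · have key : ∀ g ∈ Subgroup.closure ((F : Set G) ∪ {x}),
        (∀ f1 : F, ∃ f2 : F, ∀ f : F, g • (f1 : G) • y f = (f2 : G) • y f) ∧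
          ∀ f1 : F, ∃ f2 : F, ∀ f : F, g⁻¹ • (f1 : G) • y f = (f2 : G) • y f := by
      intro g hg
      induction hg using Subgroup.closure_induction with
      | mem g hg =>
        rcases hg with hg | hg
        · refine ⟨fun f1 => ⟨⟨g, hg⟩ * f1, fun f => ?_⟩, fun f1 => ⟨⟨g, hg⟩⁻¹ * f1, fun f => ?_⟩⟩
          · rw [← mul_smul]
            rfl
          · rw [← mul_smul]
            rfl
        · rw [Set.mem_singleton_iff] at hg
          subst hg
          refine ⟨fun f1 => ⟨f1, fun f => hxQ f1 f⟩, fun f1 => ⟨f1, fun f => ?_⟩⟩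
          rw [inv_smul_eq_iff]
          exact (hxQ f1 f).symm
      | one => exact ⟨fun f1 => ⟨f1, fun f => one_smul _ _⟩, fun f1 => ⟨f1, fun f => by
          rw [inv_one, one_smul]⟩⟩
      | mul g h _ _ hg hh =>
        refine ⟨fun f1 => ?_, fun f1 => ?_⟩
        · obtain ⟨f2, h2⟩ := hh.1 f1
          obtain ⟨f3, h3⟩ := hg.1 f2
          exact ⟨f3, fun f => by rw [mul_smul, h2, h3]⟩
        · obtain ⟨f2, h2⟩ := hg.2 f1
          obtain ⟨f3, h3⟩ := hh.2 f2
          exact ⟨f3, fun f => by rw [mul_inv_rev, mul_smul, h2, h3]⟩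
      | inv g _ hg =>
        refine ⟨hg.2, ?_⟩
        rw [inv_inv]
        exact hg.1
    intro g hg
    obtain ⟨f2, h2⟩ := (key g hg).1 1
    refine ⟨y f2, ?_⟩
    have h3 := h2 f2
    rw [Subgroup.coe_one, one_smul] at h3
    rw [h3]
    exact hya f2
  · exact Subgroup.subset_closure (Or.inr rfl)
  · intro f hf h
    apply hz0
    refine ⟨f, hf, ?_⟩
    show f • ω = z0
    rw [← hx0, ← h]
    exact hx1 ω rfl

end Pool.Agent.H73.BT
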