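import Pool.Agent.H73.BT.Stp

/-!
MODULE ThF (skeleton helper73): Theorem F.

PROOF. Suppose not: every g that moves a point of G ⧸ K moves infinitely many (hinf of `stp`).
G acts on G ⧸ K transitively with more than one point, so some a moves a point. Start with F 0 = ⊥,
iterate `stp` (choice; recursion on the subtype of finite subgroups F with
∀ f ∈ F, ∃ y, f • y ≠ a • y). X = ⨆ n, F n (directed, union). a ∉ X (a ∈ F n would give f = a in
the property). So X ≠ ⊤ and by `c.orb` the set X • ω is finite; but F n • ω ⊂ F (n+1) • ω strictly for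
all n (contains x • ω), contradiction.
-/

set_option autoImplicit false

open Set
open scoped Pointwise commutatorElement

namespace Pool.Agent.H73.BT

open Pool.Agent.H80.BT

variable {G : Type*} [Group G] {Ω : Type*} [MulAction G Ω] {p : ℕ}

theorem theoremF (c : Ctx G Ω p) (ω : Ω) (K : Subgroup G) (hK : K ≠ ⊤)
    (hH : MulAction.stabilizer G ω ≤ K) :
    ∃ g : G, {y : G ⧸ K | g • y ≠ y}.Nonempty ∧ {y : G ⧸ K | g • y ≠ y}.Finite := by
  classical
  by_contra hcon
  have hinf : ∀ g : G, (∃ y : G ⧸ K, g • y ≠ y) → {y : G ⧸ K | g • y ≠ y}.Infinite := by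
    intro g hg hfin
    exact hcon ⟨g, hg, hfin⟩
  obtain ⟨a, ha⟩ : ∃ a : G, a ∉ K := by
    by_contra h
    apply hK
    rw [eq_top_iff]
    intro x _
    by_contra hx
    exact h ⟨x, hx⟩
  have ha1 : (1 : G) • ((1 : G) : G ⧸ K) ≠ a • ((1 : G) : G ⧸ K) := by
    intro h
    apply ha
    have h1 : (((1 : G) : G ⧸ K)) = ((a : G) : G ⧸ K) := by
      have h2 : a • ((1 : G) : G ⧸ K) = ((a * 1 : G) : G ⧸ K) := rfl
      rw [h2, one_smul, mul_one] at h
      exact h
    have h3 := QuotientGroup.eq.1 h1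
    simpa using h3
  set T := {F : Subgroup G // (F : Set G).Finite ∧ ∀ f ∈ F, ∃ y : G ⧸ K, f • y ≠ a • y} with hT
  have hstep : ∀ F : T, ∃ F' : T, F.1 ≤ F'.1 ∧ ∃ x ∈ F'.1, ∀ f ∈ F.1, x • ω ≠ f • ω := by
    intro F
    obtain ⟨F', h1, h2, h3, h4⟩ := stp c ω K hK hH hinf a F.1 F.2.1 F.2.2
    exact ⟨⟨F', h2, h3⟩, h1, h4⟩
  choose nxt hle x hx hxne using hstep
  have hbot : ((⊥ : Subgroup G) : Set G).Finite ∧ ∀ f ∈ (⊥ : Subgroup G), ∃ y : G ⧸ K, f • y ≠ a • y := by
    constructor
    · rw [Subgroup.coe_bot]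
      exact Set.finite_singleton 1
    · intro f hf
      rw [Subgroup.mem_bot] at hf
      subst hf
      exact ⟨_, ha1⟩
  set F : ℕ → T := fun n => Nat.rec ⟨⊥, hbot⟩ (fun _ G => nxt G) n with hFdef
  have hFs : ∀ n, F (n + 1) = nxt (F n) := fun n => rfl
  have hmono : Monotone fun n => (F n).1 := by
    apply monotone_nat_of_le_succ
    intro n
    show (F n).1 ≤ (F (n + 1)).1
    rw [hFs]
    exact hle (F n)
  set X : Subgroup G := ⨆ n, (F n).1 with hX
  have hdir : Directed (· ≤ ·) fun n => (F n).1 := hmono.directed_le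
  have haX : a ∉ X := by
    intro h
    rw [hX, Subgroup.mem_iSup_of_directed hdir] at h
    obtain ⟨n, hn⟩ := h
    obtain ⟨y, hy⟩ := (F n).2.2 a hn
    exact hy rfl
  have hXtop : X ≠ ⊤ := by
    intro h
    apply haX
    rw [h]
    trivial
  have hfin := c.orb hXtop ω
  have hmem : ∀ n, x (F n) • ω ∈ (fun g : G => g • ω) '' (X : Set G) := by
    intro n
    refine ⟨x (F n), ?_, rfl⟩
    have h1 : x (F n) ∈ (F (n + 1)).1 := by
      rw [hFs]
      exact hx (F n)
    exact (le_iSup (fun n => (F n).1) (n + 1)) h1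
  have hinj : Function.Injective fun n => x (F n) • ω := by
    have hlt : ∀ n m, n < m → x (F n) • ω ≠ x (F m) • ω := by
      intro n m hnm h
      have h1 : x (F n) ∈ (F (n + 1)).1 := by
        rw [hFs]
        exact hx (F n)
      have h2 : x (F n) ∈ (F m).1 := hmono (by omega : n + 1 ≤ m) h1
      exact hxne (F m) _ h2 h.symm
    intro n m h
    rcases lt_trichotomy n m with h1 | h1 | h1
    · exact absurd h (hlt n m h1)
    · exact h1
    · exact absurd h.symm (hlt m n h1)
  exact Set.infinite_of_injective_forall_mem hinj hmem hfin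

end Pool.Agent.H73.BT
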