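import Pool.Agent.H73.BT.Bad

/-!
MODULE ThL (skeleton helper73): Theorem L.

`reach` PROOF. Levels K 0 = N ⊔ stabilizer ω, K (i+1) from `il2` with m := Δ.card + L, b := L + 1 (recursion
on the subtype of proper subgroups). z from `away` with C = K (L+1) (Δ may be enlarged to be nonempty: insert ω).
Induction on m ≤ L: there is h (pointwise fixing Δ) with the classes mod K (L - m) of walk (g h) s z j,
j ≤ m, pairwise different; the step is `wstep` with K = K (L-m-1), C = K (L-m), x = g h, and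
x * k = g * (h k). Final m = L at level K 0.

`theoremL` PROOF. w.toWord reversed gives s; `walk` at L = length is `FreeGroup.lift x w • z`
(lemma `walk_eq`), reducedness of toWord gives hred. If lift x w ∈ N then cls K0 (walk L) =
lift x w • cls K0 z = cls K0 z (N normal, N ≤ K0) against reach for i = 0, j = L > 0.
-/

set_option autoImplicit false

open Set
open scoped Pointwise commutatorElement

namespace Pool.Agent.H73.BT

open Pool.Agent.H80.BT

variable {G : Type*} [Group G] {Ω : Type*} [MulAction G Ω] {p : ℕ} {ι : Type*}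

theorem reach (c : Ctx G Ω p) (ω : Ω) (K0 : Subgroup G) (hK : K0 ≠ ⊤)
    (hH : MulAction.stabilizer G ω ≤ K0) (Δ : Finset Ω) (g : ι → G) (s : ℕ → ι × Bool) (L : ℕ)
    (hred : ∀ j, j + 1 < L → (s j).1 = (s (j + 1)).1 → (s j).2 = (s (j + 1)).2) :
    ∃ (z : Ω) (h : ι → G), (∀ i, ∀ δ ∈ Δ, h i • δ = δ) ∧
      ∀ i j, i < j → j ≤ L →
        cls c ω K0 (walk (fun i => g i * h i) s z i) ≠ cls c ω K0 (walk (fun i => g i * h i) s z j) := by
  classical
  -- the levels
  set Δ' : Finset Ω := insert ω Δ with hΔ'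
  have hstep : ∀ K : {K : Subgroup G // K ≠ ⊤ ∧ MulAction.stabilizer G ω ≤ K},
      ∃ C : {K : Subgroup G // K ≠ ⊤ ∧ MulAction.stabilizer G ω ≤ K}, K.1 ≤ C.1 ∧
        ∀ (q : Ω) (Q : Finset Ω), Q.card ≤ Δ'.card + L →
          (∀ z ∈ Q, cls c ω C.1 z ≠ cls c ω C.1 q) →
          ∀ F : Finset (G ⧸ K.1), F.card ≤ L + 1 →
            ∃ y : G, (∀ z ∈ Q, y • z = z) ∧ y • cls c ω K.1 q ∉ F := by
    rintro ⟨K, hK1, hK2⟩
    obtain ⟨C, hC1, hC2, hC3⟩ := il2 c ω K hK1 hK2 (Δ'.card + L) (L + 1)
    exact ⟨⟨C, hC1, hK2.trans hC2⟩, hC2, hC3⟩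
  choose f hf1 hf2 using hstep
  let lev : ℕ → {K : Subgroup G // K ≠ ⊤ ∧ MulAction.stabilizer G ω ≤ K} :=
    fun n => Nat.rec ⟨K0, hK, hH⟩ (fun _ K => f K) n
  have lev0 : (lev 0).1 = K0 := rfl
  have levS : ∀ n, lev (n + 1) = f (lev n) := fun n => rfl
  have hmono : ∀ i j, i ≤ j → (lev i).1 ≤ (lev j).1 := by
    intro i j hij
    induction j, hij using Nat.le_induction with
    | base => exact le_rfl
    | succ j _ ih =>
      refine ih.trans ?_
      rw [levS]
      exact hf1 _
  obtain ⟨z, hz⟩ := away c ω (lev L).1 (lev L).2.1 (lev L).2.2 Δ' ⟨ω, Finset.mem_insert_self _ _⟩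
    g s L
  have main : ∀ m, m ≤ L → ∃ h : ι → G, (∀ i, ∀ δ ∈ Δ', h i • δ = δ) ∧
      ∀ i j, i < j → j ≤ m →
        cls c ω (lev (L - m)).1 (walk (fun i => g i * h i) s z i) ≠
          cls c ω (lev (L - m)).1 (walk (fun i => g i * h i) s z j) := by
    intro m
    induction m with
    | zero =>
      intro _
      refine ⟨fun _ => 1, fun _ _ _ => one_smul _ _, fun i j hij hj => ?_⟩
      omega
    | succ m ih =>
      intro hm
      obtain ⟨h, hh1, hh2⟩ := ih (by omega)
      obtain ⟨n, hn⟩ : ∃ n, L - m = n + 1 := ⟨L - m - 1, by omega⟩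
      have hn' : L - (m + 1) = n := by omega
      rw [hn] at hh2
      rw [hn']
      have hnL : n + 1 ≤ L := by omega
      obtain ⟨k, hk1, hk2⟩ := wstep c ω (lev n).1 (lev (n + 1)).1 (lev n).2.2
        (hmono n (n + 1) (Nat.le_succ n)) (Δ'.card + L) (L + 1) (hf2 (lev n)) Δ' s z m
        (by omega) (by omega) (fun j hj => hred j (by omega)) (fun i => g i * h i)
        (fun j hj δ hδ he => hz h hh1 j (by omega) δ hδ
          (cls_mono c ω (hmono (n + 1) L hnL) he)) hh2
      refine ⟨fun i => h i * k i, fun i δ hδ => ?_, ?_⟩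
      · rw [mul_smul, hk1 i δ hδ, hh1 i δ hδ]
      · have e : (fun i => g i * (h i * k i)) = fun i => (g i * h i) * k i := by
          funext i
          rw [mul_assoc]
        rw [e]
        exact hk2
  obtain ⟨h, hh1, hh2⟩ := main L le_rfl
  refine ⟨z, h, fun i δ hδ => hh1 i δ (Finset.mem_insert_of_mem hδ), ?_⟩
  rw [Nat.sub_self] at hh2
  exact hh2

/-- the walk along a list read from its end -/
theorem walk_list (x : ι → G) (z : Ω) (d : ι × Bool) : ∀ (l : List (ι × Bool)) (s : ℕ → ι × Bool),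
    (∀ j < l.length, s j = l.reverse.getD j d) →
    walk x s z l.length = FreeGroup.lift x (FreeGroup.mk l) • z := by
  intro l
  induction l with
  | nil =>
    intro s _
    simp [walk]
  | cons a l ih =>
    intro s hs
    have h1 : walk x s z l.length = FreeGroup.lift x (FreeGroup.mk l) • z := by
      apply ih s
      intro j hj
      rw [hs j (by simp; omega), List.reverse_cons, List.getD_append _ _ _ _ (by simpa using hj)]
    have h2 : s l.length = a := by
      rw [hs l.length (by simp), List.reverse_cons, List.getD_append_right _ _ _ _ (by simp)]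
      simp
    change letter x (s l.length) • walk x s z l.length = _
    rw [h1, h2]
    have h3 : FreeGroup.lift x (FreeGroup.mk (a :: l)) =
        letter x a * FreeGroup.lift x (FreeGroup.mk l) := by
      rw [FreeGroup.lift_mk, FreeGroup.lift_mk, List.map_cons, List.prod_cons]
      congr 1
      unfold letter
      cases a.2 <;> simp
    rw [h3, mul_smul]

/-- every word is the end of a walk -/
theorem walk_eq (w : FreeGroup ι) (hw : w ≠ 1) : ∃ (L : ℕ) (s : ℕ → ι × Bool), 0 < L ∧
    (∀ j, j + 1 < L → (s j).1 = (s (j + 1)).1 → (s j).2 = (s (j + 1)).2) ∧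
    ∀ (x : ι → G) (z : Ω), walk x s z L = FreeGroup.lift x w • z := by
  classical
  have hne : w.toWord ≠ [] := fun h => hw (FreeGroup.toWord_eq_nil_iff.mp h)
  have hlen : 0 < w.toWord.length := List.length_pos_iff.mpr hne
  let d : ι × Bool := w.toWord.head hne
  refine ⟨w.toWord.length, fun j => w.toWord.reverse.getD j d, hlen, ?_, ?_⟩
  · intro j hj
    have hc := List.isChain_iff_getElem.mp (FreeGroup.isReduced_toWord (x := w))
      (w.toWord.length - 2 - j) (by omega)
    have e1 : w.toWord.reverse.getD j d = w.toWord[w.toWord.length - 2 - j + 1]'(by omega) := by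
      rw [List.getD_eq_getElem _ _ (by simp; omega), List.getElem_reverse]
      congr 1
      omega
    have e2 : w.toWord.reverse.getD (j + 1) d = w.toWord[w.toWord.length - 2 - j]'(by omega) := by
      rw [List.getD_eq_getElem _ _ (by simp; omega), List.getElem_reverse]
      congr 1
      omega
    simp only [e1, e2]
    intro h
    exact (hc h.symm).symm
  · intro x z
    have := walk_list x z d w.toWord (fun j => w.toWord.reverse.getD j d) (fun j _ => rfl)
    rwa [FreeGroup.mk_toWord] at this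

theorem theoremL (c : Ctx G Ω p) {N : Subgroup G} (hNn : N.Normal) (hN : N ≠ ⊤) {Δ : Set Ω}
    (hΔ : Δ.Finite) (g : ι → G) (w : FreeGroup ι) (hw : w ≠ 1) :
    ∃ h : ι → G, (∀ i, ∀ δ ∈ Δ, h i • δ = δ) ∧ FreeGroup.lift (fun i => g i * h i) w ∉ N := by
  have hinf := c.inf
  obtain ⟨ω⟩ : Nonempty Ω := inferInstance
  obtain ⟨L, s, hL, hred, hwalk⟩ := walk_eq (G := G) (Ω := Ω) w hw
  have hK0 : N ⊔ MulAction.stabilizer G ω ≠ ⊤ := c.sup_ne_top hN (c.stab_ne_top ω)
  have hH : MulAction.stabilizer G ω ≤ N ⊔ MulAction.stabilizer G ω := le_sup_right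
  obtain ⟨z, h, hh, hd⟩ := reach c ω (N ⊔ MulAction.stabilizer G ω) hK0 hH hΔ.toFinset g s L hred
  refine ⟨h, fun i δ hδ => hh i δ (hΔ.mem_toFinset.mpr hδ), fun hmem => ?_⟩
  apply hd 0 L hL le_rfl
  rw [hwalk, cls_smul c ω _ hH]
  have h0 : walk (fun i => g i * h i) s z 0 = z := rfl
  rw [h0]
  have key : ∀ n ∈ N, ∀ t : G, n • ((t : G) : G ⧸ (N ⊔ MulAction.stabilizer G ω)) =
      ((t : G) : G ⧸ (N ⊔ MulAction.stabilizer G ω)) := by
    intro n hn t
    change (((n * t : G)) : G ⧸ (N ⊔ MulAction.stabilizer G ω)) = _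
    apply QuotientGroup.eq.mpr
    have h1 : (n * t)⁻¹ * t = t⁻¹ * n⁻¹ * t := by group
    rw [h1]
    apply Subgroup.mem_sup_left
    have := hNn.conj_mem _ (inv_mem hn) t⁻¹
    rwa [inv_inv] at this
  rw [cls]
  exact (key _ hmem _).symm

end Pool.Agent.H73.BT
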