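import Pool.Agent.H73.BT.Far

/-!
MODULE Unf (frame helper73): far independence, uniformly for the elements of a proper subgroup restricted to a finite set.

PROOF. The set Φ of the restrictions of the elements of K to D (functions D → Ω, or: functions Ω → Ω, z ↦ k • z on D and z outside) is finite,
because D is finite and K has finite orbits (`Ctx.orb`; `Set.Finite.pi`). For every pair in Φ × Φ choose representatives k, k' ∈ K and
apply `far c ω (k' * k⁻¹) ((fun z => k • z) '' D) _ m`; C1 = stabilizer ω ⊔ the join of the finitely many proper subgroups obtained (`Ctx.biSup_ne_top`,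
`Ctx.sup_ne_top`). If t ∉ C1 then t is not in the smaller ones.
-/

set_option autoImplicit false

open Set
open scoped Pointwise

namespace Pool.Agent.H73.BT

open Pool.Agent.H80.BT

variable {G : Type*} [Group G] {Ω : Type*} [MulAction G Ω] {p : ℕ}

theorem unif (c : Ctx G Ω p) (ω : Ω) (K : Subgroup G) (hK : K ≠ ⊤) (D : Set Ω) (hD : D.Finite) (m : ℕ) :
    ∃ C : Subgroup G, C ≠ ⊤ ∧ MulAction.stabilizer G ω ≤ C ∧
      ∀ k ∈ K, ∀ k' ∈ K, ∀ Q : Finset Ω, Q.card ≤ m → (∀ t : G, t • ω ∈ Q → t ∉ C) →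
        ∃ l : G, (∀ d ∈ D, l • (k • d) = k' • d) ∧ ∀ q ∈ Q, l • q = q := by
  classical
  have hDf : Finite D := hD
  let ρ : G → (D → Ω) := fun k d => k • (d : Ω)
  have hfin : (ρ '' (K : Set G)).Finite := by
    apply (Set.Finite.pi (fun d : D => c.orb hK (d : Ω))).subset
    rintro _ ⟨k, hk, rfl⟩
    intro d _
    exact ⟨k, hk, rfl⟩
  have hrep : ∀ φ : D → Ω, ∃ g : G, (∃ k ∈ K, ρ k = φ) → ρ g = φ := by
    intro φ
    by_cases h : ∃ k ∈ K, ρ k = φ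
    · obtain ⟨k, _, hk⟩ := h
      exact ⟨k, fun _ => hk⟩
    · exact ⟨1, fun h' => (h h').elim⟩
  choose r hr using hrep
  have H : ∀ a : (D → Ω) × (D → Ω), ∃ C : Subgroup G, C ≠ ⊤ ∧ MulAction.stabilizer G ω ≤ C ∧
      ∀ Q : Finset Ω, Q.card ≤ m → (∀ t : G, t • ω ∈ Q → t ∉ C) →
        ∃ x : G, (∀ z ∈ (fun z => r a.1 • z) '' D, x • z = (r a.2 * (r a.1)⁻¹) • z) ∧
          ∀ q ∈ Q, x • q = q :=
    fun a => far c ω (r a.2 * (r a.1)⁻¹) ((fun z => r a.1 • z) '' D) (hD.image _) m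
  choose Cf hC1 hC2 hC3 using H
  refine ⟨MulAction.stabilizer G ω ⊔ ⨆ a ∈ ((ρ '' (K : Set G)) ×ˢ (ρ '' (K : Set G))), Cf a,
    c.sup_ne_top (c.stab_ne_top ω)
      (c.biSup_ne_top _ (hfin.prod hfin) Cf (fun a _ => hC1 a)), le_sup_left, ?_⟩
  intro k hk k' hk' Q hQ hQC
  have hmem : ((ρ k, ρ k') : (D → Ω) × (D → Ω)) ∈ ((ρ '' (K : Set G)) ×ˢ (ρ '' (K : Set G))) :=
    ⟨⟨k, hk, rfl⟩, ⟨k', hk', rfl⟩⟩
  have hle : Cf (ρ k, ρ k') ≤ MulAction.stabilizer G ω ⊔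
      ⨆ a ∈ ((ρ '' (K : Set G)) ×ˢ (ρ '' (K : Set G))), Cf a :=
    le_trans (le_biSup Cf hmem) le_sup_right
  obtain ⟨x, hx1, hx2⟩ := hC3 (ρ k, ρ k') Q hQ (fun t ht hC => hQC t ht (hle hC))
  refine ⟨x, ?_, hx2⟩
  intro d hd
  have e1 : r (ρ k) • d = k • d := congrFun (hr (ρ k) ⟨k, hk, rfl⟩) ⟨d, hd⟩
  have e2 : r (ρ k') • d = k' • d := congrFun (hr (ρ k') ⟨k', hk', rfl⟩) ⟨d, hd⟩
  have := hx1 (r (ρ k) • d) ⟨d, hd, rfl⟩
  rw [← e1, this, mul_smul, inv_smul_smul, e2]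

end Pool.Agent.H73.BT
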