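import Pool.Agent.H73.BT.Il2

/-!
MODULE Wlk (skeleton helper73): one step of the walk argument for Theorem L.

`walk x s z j` is the point reached from z after the letters s 0, ..., s (j-1).
`wstep` PROOF. Let Z j = walk x s z j, (a, b) = s m. If cls K (Z (m+1)) is not among cls K (Z i),
i ≤ m, take x' = x (h = 1), using cls_mono for the first m+1 points. Otherwise let tail j = Z j if
s j = (_, true), Z (j+1) if s j = (_, false), and q = tail m,
Q = Δ ∪ {tail j | j < m, (s j).1 = a}, card ≤ M (M ≥ Δ.card + m).
Claim: cls C z ≠ cls C q for z ∈ Q. For z ∈ Δ this is hypothesis haw (q = Z m or Z (m+1)). For z = tail j,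
j < m, (s j).1 = a: cls C (tail j) = cls C (tail m) implies (apply x a, cls_smul) equality also for the
other ends x a • tail. Cases on (s m).2, (s j).2: (true,true): cls C (Z m) = cls C (Z j), against
hdis; (false,false): same; (true,false): cls C (Z m) = cls C (Z (j+1)), so j + 1 = m by hdis and s m,
s (m-1) are inverse letters, against hred; (false,true): x a • tail m = Z m and
x a • tail j = Z (j+1): again j + 1 = m.
F = {x a⁻¹ • cls K (Z i) | i ≤ m} if (s m).2 = true, F = {cls K (Z i) | i ≤ m} if false; card ≤ m + 1 ≤ b.
Property il (conclusion of `il2`) gives y; put k = y (true) resp. y⁻¹ (false), x' = update x a (x a * k).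
k fixes all tails of letters a before m, so walk x' s z j = Z j for j ≤ m (induction), and
walk x' s z (m+1) = x a • k • Z m (true), resp. k⁻¹ • x a⁻¹ • Z m = y • Z (m+1) (false), whose class
mod K is not among cls K (Z i), i ≤ m. k fixes Δ pointwise.
-/

set_option autoImplicit false

open Set
open scoped Pointwise commutatorElement

namespace Pool.Agent.H73.BT

open Pool.Agent.H80.BT

variable {G : Type*} [Group G] {Ω : Type*} [MulAction G Ω] {p : ℕ} {ι : Type*}

/-- the group element of a letter -/
def letter (x : ι → G) (s : ι × Bool) : G := if s.2 then x s.1 else (x s.1)⁻¹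

/-- the walk along the letters `s 0, s 1, ...` -/
def walk (x : ι → G) (s : ℕ → ι × Bool) (z : Ω) : ℕ → Ω
  | 0 => z
  | j + 1 => letter x (s j) • walk x s z j

theorem wstep (c : Ctx G Ω p) (ω : Ω) (K C : Subgroup G) (hH : MulAction.stabilizer G ω ≤ K)
    (hKC : K ≤ C) (M b : ℕ)
    (il : ∀ (q : Ω) (Q : Finset Ω), Q.card ≤ M → (∀ z ∈ Q, cls c ω C z ≠ cls c ω C q) →
        ∀ F : Finset (G ⧸ K), F.card ≤ b →
          ∃ y : G, (∀ z ∈ Q, y • z = z) ∧ y • cls c ω K q ∉ F)
    (Δ : Finset Ω) (s : ℕ → ι × Bool) (z : Ω) (m : ℕ) (hM : Δ.card + m ≤ M) (hb : m + 1 ≤ b)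
    (hred : ∀ j, j + 1 ≤ m → (s j).1 = (s (j + 1)).1 → (s j).2 = (s (j + 1)).2)
    (x : ι → G)
    (haw : ∀ j ≤ m + 1, ∀ δ ∈ Δ, cls c ω C δ ≠ cls c ω C (walk x s z j))
    (hdis : ∀ i j, i < j → j ≤ m → cls c ω C (walk x s z i) ≠ cls c ω C (walk x s z j)) :
    ∃ k : ι → G, (∀ i, ∀ δ ∈ Δ, k i • δ = δ) ∧
      ∀ i j, i < j → j ≤ m + 1 →
        cls c ω K (walk (fun i => x i * k i) s z i) ≠ cls c ω K (walk (fun i => x i * k i) s z j) := by
  classical
  have hHC : MulAction.stabilizer G ω ≤ C := hH.trans hKC
  set Z : ℕ → Ω := walk x s z with hZ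
  have hZs : ∀ j, Z (j + 1) = letter x (s j) • Z j := fun j => rfl
  set a : ι := (s m).1 with ha
  set tail : ℕ → Ω := fun j => if (s j).2 then Z j else Z (j + 1) with htail
  set head : ℕ → Ω := fun j => if (s j).2 then Z (j + 1) else Z j with hhead
  have hth : ∀ j, head j = x (s j).1 • tail j := by
    intro j
    simp only [htail, hhead]
    cases hb : (s j).2
    · simp only [Bool.false_eq_true, if_false]
      rw [hZs j, letter, hb]
      simp only [Bool.false_eq_true, if_false]
      rw [smul_inv_smul]
    · simp only [if_true]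
      rw [hZs j, letter, hb]
      simp only [if_true]
  have hdK : ∀ i j, i < j → j ≤ m → cls c ω K (Z i) ≠ cls c ω K (Z j) := fun i j hij hj h =>
    hdis i j hij hj (cls_mono c ω hKC h)
  -- the set of the points to be fixed
  set Q : Finset Ω := Δ ∪ ((Finset.range m).filter fun j => (s j).1 = a).image tail with hQ
  have hQcard : Q.card ≤ M := by
    refine le_trans (Finset.card_union_le _ _) (le_trans ?_ hM)
    refine Nat.add_le_add_left (le_trans Finset.card_image_le ?_) _
    refine le_trans (Finset.card_filter_le _ _) ?_
    rw [Finset.card_range]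
  have hQΔ : ∀ δ ∈ Δ, δ ∈ Q := fun δ hδ => Finset.mem_union_left _ hδ
  have hQt : ∀ j, j < m → (s j).1 = a → tail j ∈ Q := fun j hj hja =>
    Finset.mem_union_right _ (Finset.mem_image_of_mem _
      (Finset.mem_filter.2 ⟨Finset.mem_range.2 hj, hja⟩))
  have hfar : ∀ w ∈ Q, cls c ω C w ≠ cls c ω C (tail m) := by
    intro w hw
    rcases Finset.mem_union.1 hw with hw | hw
    · simp only [htail]
      cases hb' : (s m).2
      · simp only [Bool.false_eq_true, if_false]
        exact haw (m + 1) le_rfl w hw
      · simp only [if_true]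
        exact haw m (Nat.le_succ m) w hw
    · obtain ⟨j, hj, rfl⟩ := Finset.mem_image.1 hw
      obtain ⟨hj1, hja⟩ := Finset.mem_filter.1 hj
      have hjm := Finset.mem_range.1 hj1
      intro he
      have he2 : cls c ω C (head j) = cls c ω C (head m) := by
        rw [hth j, hth m, cls_smul c ω C hHC, cls_smul c ω C hHC, he, hja]
      have hkey : cls c ω C (Z (j + 1)) = cls c ω C (Z m) → (s j).2 = (s m).2 := by
        intro h
        have hjm' : j + 1 = m := by
          by_contra hne
          exact hdis (j + 1) m (lt_of_le_of_ne hjm hne) le_rfl h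
        have h2 := hred j (le_of_eq hjm')
        rw [hjm'] at h2
        exact h2 hja
      simp only [htail, hhead] at he he2
      cases hbm : (s m).2 <;> cases hbj : (s j).2 <;>
        simp only [hbm, hbj, Bool.false_eq_true, if_false, if_true] at he he2 hkey
      · exact hdis j m hjm le_rfl he2
      · exact absurd (hkey he2) (by decide)
      · exact absurd (hkey he) (by decide)
      · exact hdis j m hjm le_rfl he
  -- an element fixing the set does not change the walk up to m
  have hwalk : ∀ k0 : G, (∀ w ∈ Q, k0 • w = w) → ∀ j ≤ m,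
      walk (fun i => x i * (if i = a then k0 else 1)) s z j = Z j := by
    intro k0 hk0 j
    induction j with
    | zero => intro _; rfl
    | succ j ih =>
      intro hj
      have hj' : j < m := hj
      show letter (fun i => x i * (if i = a then k0 else 1)) (s j) •
        walk (fun i => x i * (if i = a then k0 else 1)) s z j = Z (j + 1)
      rw [ih (le_of_lt hj'), hZs j]
      by_cases hja : (s j).1 = a
      · have hfix := hk0 (tail j) (hQt j hj' hja)
        simp only [htail] at hfix
        cases hb' : (s j).2
        · simp only [hb', Bool.false_eq_true, if_false] at hfix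
          rw [hZs j] at hfix
          simp only [letter, hb', hja, if_true, Bool.false_eq_true, if_false] at hfix ⊢
          rw [mul_inv_rev, mul_smul, inv_smul_eq_iff]
          exact hfix.symm
        · simp only [hb', if_true] at hfix
          simp only [letter, hb', hja, if_true]
          rw [mul_smul, hfix]
      · simp only [letter, if_neg hja, mul_one]
  -- conclusion from the class of the last point
  have hfinish : ∀ k0 : G, (∀ w ∈ Q, k0 • w = w) →
      (∀ i ≤ m, cls c ω K (Z i) ≠
        cls c ω K (walk (fun i => x i * (if i = a then k0 else 1)) s z (m + 1))) →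
      ∃ k : ι → G, (∀ i, ∀ δ ∈ Δ, k i • δ = δ) ∧
      ∀ i j, i < j → j ≤ m + 1 →
        cls c ω K (walk (fun i => x i * k i) s z i) ≠
          cls c ω K (walk (fun i => x i * k i) s z j) := by
    intro k0 hk0 hlast
    refine ⟨fun i => if i = a then k0 else 1, fun i δ hδ => ?_, fun i j hij hj => ?_⟩
    · by_cases hi : i = a
      · simp only [if_pos hi]
        exact hk0 δ (hQΔ δ hδ)
      · simp only [if_neg hi]
        exact one_smul _ _
    · have hi : i ≤ m := by omega
      rw [hwalk k0 hk0 i hi]
      rcases Nat.lt_or_ge j (m + 1) with h | h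
      · rw [hwalk k0 hk0 j (by omega)]
        exact hdK i j hij (by omega)
      · have hjm : j = m + 1 := le_antisymm hj h
        subst hjm
        exact hlast i hi
  cases hbm : (s m).2
  · -- last letter is an inverse letter
    set F : Finset (G ⧸ K) := (Finset.range (m + 1)).image fun i => cls c ω K (Z i) with hF
    have hFc : F.card ≤ b := by
      refine le_trans Finset.card_image_le ?_
      rw [Finset.card_range]
      exact hb
    obtain ⟨y, hy1, hy2⟩ := il (tail m) Q hQcard hfar F hFc
    have hyi : ∀ w ∈ Q, y⁻¹ • w = w := fun w hw => by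
      rw [inv_smul_eq_iff]
      exact (hy1 w hw).symm
    refine hfinish y⁻¹ hyi fun i hi he => hy2 ?_
    have e1 : walk (fun i => x i * (if i = a then y⁻¹ else 1)) s z (m + 1) = y • tail m := by
      show letter (fun i => x i * (if i = a then y⁻¹ else 1)) (s m) •
        walk (fun i => x i * (if i = a then y⁻¹ else 1)) s z m = y • tail m
      rw [hwalk y⁻¹ hyi m le_rfl]
      simp only [htail, hbm, Bool.false_eq_true, if_false]
      rw [hZs m]
      simp only [letter, hbm, Bool.false_eq_true, if_false, ← ha, if_true]
      rw [mul_inv_rev, inv_inv, mul_smul]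
    rw [e1, cls_smul c ω K hH] at he
    rw [← he, hF]
    exact Finset.mem_image.2 ⟨i, Finset.mem_range.2 (by omega), rfl⟩
  · set F : Finset (G ⧸ K) := (Finset.range (m + 1)).image fun i => (x a)⁻¹ • cls c ω K (Z i)
      with hF
    have hFc : F.card ≤ b := by
      refine le_trans Finset.card_image_le ?_
      rw [Finset.card_range]
      exact hb
    obtain ⟨y, hy1, hy2⟩ := il (tail m) Q hQcard hfar F hFc
    refine hfinish y hy1 fun i hi he => hy2 ?_
    have e1 : walk (fun i => x i * (if i = a then y else 1)) s z (m + 1) = x a • y • tail m := by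
      show letter (fun i => x i * (if i = a then y else 1)) (s m) •
        walk (fun i => x i * (if i = a then y else 1)) s z m = x a • y • tail m
      rw [hwalk y hy1 m le_rfl]
      simp only [htail, hbm, if_true]
      simp only [letter, hbm, ← ha, if_true]
      rw [mul_smul]
    rw [e1, cls_smul c ω K hH, cls_smul c ω K hH] at he
    rw [hF]
    refine Finset.mem_image.2 ⟨i, Finset.mem_range.2 (by omega), ?_⟩
    show (x a)⁻¹ • cls c ω K (Z i) = y • cls c ω K (tail m)
    rw [he, inv_smul_smul]

end Pool.Agent.H73.BT
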